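import Mathlib

/-!
# Crossing angular resolution of hypercubes

Straight-line drawings of graphs in the Euclidean plane, crossing angles, the crossing angular
resolution of a drawing and of a graph, and the hypercube graph `Q_d`.
-/

namespace Pool.Agent.CarQ

open Real

/-- The Euclidean plane. -/
abbrev Plane : Type := EuclideanSpace ℝ (Fin 2)

/-- The hypercube graph `Q_d`: the vertices are the 0-1 vectors of length `d`, and two vertices are
adjacent when they differ in exactly one coordinate. -/
def cube (d : ℕ) : SimpleGraph (Fin d → Bool) where
  Adj u v := hammingDist u v = 1
  symm := ⟨fun u v h => by rw [hammingDist_comm]; exact h⟩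
  loopless := ⟨fun u h => by simp at h⟩

/-- A straight-line drawing of `G`: the vertices are mapped injectively to points of the plane, the
edges are drawn as closed segments, and no segment contains the image of a vertex other than its own
endpoints. -/
structure Drawing {V : Type} (G : SimpleGraph V) where
  /-- the positions of the vertices -/
  pos : V → Plane
  inj : Function.Injective pos
  avoid : ∀ u v w : V, G.Adj u v → pos w ∈ segment ℝ (pos u) (pos v) → w = u ∨ w = v

variable {V : Type} {G : SimpleGraph V}

/-- The edges `uv` and `u'v'` are two different edges which cross: there is a point interior to both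
segments. -/
def Drawing.Cross (D : Drawing G) (u v u' v' : V) : Prop :=
  G.Adj u v ∧ G.Adj u' v' ∧ s(u, v) ≠ s(u', v') ∧
    (openSegment ℝ (D.pos u) (D.pos v) ∩ openSegment ℝ (D.pos u') (D.pos v')).Nonempty

/-- The smaller of the two angles formed by the lines `uv` and `u'v'`. -/
noncomputable def Drawing.crossAngle (D : Drawing G) (u v u' v' : V) : ℝ :=
  min (InnerProductGeometry.angle (D.pos v - D.pos u) (D.pos v' - D.pos u'))
    (π - InnerProductGeometry.angle (D.pos v - D.pos u) (D.pos v' - D.pos u'))

/-- The set of all crossing angles of a drawing. -/
def Drawing.angles (D : Drawing G) : Set ℝ :=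
  {θ | ∃ u v u' v', D.Cross u v u' v' ∧ θ = D.crossAngle u v u' v'}

/-- The crossing angular resolution of a drawing (with at least one crossing): its smallest
crossing angle. -/
noncomputable def Drawing.car (D : Drawing G) : ℝ := sInf D.angles

/-- The crossing angular resolution of a graph: the supremum of the crossing angular resolutions of
its straight-line drawings with at least one crossing. -/
noncomputable def car (G : SimpleGraph V) : ℝ :=
  sSup {θ | ∃ D : Drawing G, D.angles.Nonempty ∧ θ = D.car}

end Pool.Agent.CarQ
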