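import Pool.Agent.CarQ.Planar

/-!
# The upper bound

If all crossing angles of a straight-line drawing of a bipartite graph with `n ≥ 3` vertices and `e`
edges are at least `α`, then `e α ≤ π (2n - 4)`.
-/

namespace Pool.Agent.CarQ

open Real

variable {V : Type}

/-- a shear makes all abscissas different -/
theorem exists_shear [Finite V] {G : SimpleGraph V} (D : Drawing G) :
    ∃ t : ℝ, Function.Injective fun v => D.pos v 0 + t * D.pos v 1 := by
  classical
  have hfin : (Set.range fun p : V × V =>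
      -(D.pos p.1 0 - D.pos p.2 0) / (D.pos p.1 1 - D.pos p.2 1)).Finite := Set.finite_range _
  obtain ⟨t, ht⟩ := hfin.exists_notMem
  refine ⟨t, fun u v huv => ?_⟩
  simp only at huv
  by_cases hb : D.pos u 1 = D.pos v 1
  · apply D.inj
    ext i
    fin_cases i
    · rw [hb] at huv
      simpa using huv
    · simpa using hb
  · exfalso
    apply ht
    refine ⟨(u, v), ?_⟩
    have hb' : D.pos u 1 - D.pos v 1 ≠ 0 := sub_ne_zero.2 hb
    simp only
    rw [div_eq_iff hb']
    linarith

theorem mem_openSegment_of {p q z : Plane} {s : ℝ} (h0 : 0 < s) (h1 : s < 1)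
    (h : ∀ i, z i = (1 - s) * p i + s * q i) : z ∈ openSegment ℝ p q := by
  refine ⟨1 - s, s, by linarith, h0, by ring, ?_⟩
  ext i
  rw [h i]
  simp

theorem line_mem {t : ℝ} {pos : V → Plane} {u v : V} {T : ℝ} {z : Plane}
    (hu : pos u 0 + t * pos u 1 < T) (hv : T < pos v 0 + t * pos v 1)
    (hz0 : z 0 + t * z 1 = T)
    (hz1 : z 1 = line (fun v => pos v 0 + t * pos v 1) (fun v => pos v 1) u v T) :
    z ∈ openSegment ℝ (pos u) (pos v) := by
  have hd : 0 < (pos v 0 + t * pos v 1) - (pos u 0 + t * pos u 1) := by linarith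
  set s : ℝ := (T - (pos u 0 + t * pos u 1)) / ((pos v 0 + t * pos v 1) - (pos u 0 + t * pos u 1))
    with hs
  have hs0 : 0 < s := div_pos (by linarith) hd
  have hs1 : s < 1 := by rw [hs, div_lt_one hd]; linarith
  have hsT : s * ((pos v 0 + t * pos v 1) - (pos u 0 + t * pos u 1)) =
      T - (pos u 0 + t * pos u 1) := div_mul_cancel₀ _ hd.ne'
  have h1 : z 1 = (1 - s) * pos u 1 + s * pos v 1 := by
    rw [hz1, line]
    simp only
    rw [mul_div_assoc, ← hs]
    ring
  have h0 : z 0 = (1 - s) * pos u 0 + s * pos v 0 := by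
    have h2 : z 0 = T - t * z 1 := by linarith
    rw [h2, h1]
    linarith
  refine mem_openSegment_of hs0 hs1 fun i => ?_
  fin_cases i
  · exact h0
  · exact h1

/-- a set of edges of a drawing which do not cross has at most `2n - 4` elements -/
theorem noncross_bound [Fintype V] [DecidableEq V] {G : SimpleGraph V} (D : Drawing G)
    (hn : 3 ≤ Fintype.card V) (c : V → Bool) (hc : ∀ u v, G.Adj u v → c u ≠ c v)
    (H : SimpleGraph V) [DecidableRel H.Adj] (hH : H ≤ G)
    (hnc : ∀ u v u' v', H.Adj u v → H.Adj u' v' → ¬ D.Cross u v u' v') :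
    H.edgeFinset.card + 4 ≤ 2 * Fintype.card V := by
  obtain ⟨t, ht⟩ := exists_shear D
  refine planar_bound H hn (fun v => D.pos v 0 + t * D.pos v 1) (fun v => D.pos v 1) ht c
    (fun u v h => hc u v (hH h)) ?_ ?_
  · intro u v w huv h1 h2 h3
    have hw : D.pos w ∈ openSegment ℝ (D.pos u) (D.pos v) := line_mem h1 h2 rfl h3
    rcases D.avoid u v w (hH huv) (openSegment_subset_segment _ _ _ hw) with h | h
    · subst h; exact lt_irrefl _ h1
    · subst h; exact lt_irrefl _ h2
  · intro u v u' v' huv huv' hne T h1 h2 h3 h4 h5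
    refine hnc u v u' v' huv huv' ⟨hH huv, hH huv', hne, ?_⟩
    set h := line (fun v => D.pos v 0 + t * D.pos v 1) (fun v => D.pos v 1) u v T with hh
    refine ⟨!₂[T - t * h, h], ?_, ?_⟩
    · exact line_mem h1 h2 (by simp) (by simp [hh])
    · exact line_mem h3 h4 (by simp) (by simpa using h5)

/-! ### directions -/

theorem exists_dir {G : SimpleGraph V} (D : Drawing G) (e : Sym2 V) :
    ∃ θ : ℝ, ∀ u v, e = s(u, v) → u ≠ v → ∃ r : ℝ, r ≠ 0 ∧
      (D.pos v - D.pos u) 0 = r * cos θ ∧ (D.pos v - D.pos u) 1 = r * sin θ := by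
  induction e with
  | _ p q =>
    set w := D.pos q - D.pos p with hw
    set z : ℂ := ⟨w 0, w 1⟩ with hz
    refine ⟨z.arg, fun u v huv hne => ?_⟩
    have h0 : w 0 = ‖z‖ * cos z.arg := by rw [Complex.norm_mul_cos_arg]
    have h1 : w 1 = ‖z‖ * sin z.arg := by rw [Complex.norm_mul_sin_arg]
    have hz0 : p ≠ q → z ≠ 0 := by
      intro hpq hzz
      apply hpq
      apply D.inj
      have e0 : w 0 = 0 := congrArg Complex.re hzz
      have e1 : w 1 = 0 := congrArg Complex.im hzz
      have e2 : w = 0 := by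
        ext i
        fin_cases i
        · simpa using e0
        · simpa using e1
      rw [hw, sub_eq_zero] at e2
      exact e2.symm
    rcases Sym2.eq_iff.1 huv with ⟨rfl, rfl⟩ | ⟨rfl, rfl⟩
    · exact ⟨‖z‖, norm_ne_zero_iff.2 (hz0 hne), h0, h1⟩
    · refine ⟨-‖z‖, neg_ne_zero.2 (norm_ne_zero_iff.2 (hz0 hne.symm)), ?_, ?_⟩
      · rw [neg_mul, ← h0, hw]; simp
      · rw [neg_mul, ← h1, hw]; simp

theorem angle_dir {w w' : Plane} {r r' θ θ' : ℝ} (hr : r ≠ 0) (hr' : r' ≠ 0)
    (h0 : w 0 = r * cos θ) (h1 : w 1 = r * sin θ) (h0' : w' 0 = r' * cos θ')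
    (h1' : w' 1 = r' * sin θ') :
    InnerProductGeometry.angle w w' = arccos (cos (θ - θ')) ∨
      InnerProductGeometry.angle w w' = π - arccos (cos (θ - θ')) := by
  have hn : ‖w‖ = |r| := by
    rw [EuclideanSpace.norm_eq, Fin.sum_univ_two, h0, h1, Real.norm_eq_abs, Real.norm_eq_abs,
      sq_abs, sq_abs, ← Real.sqrt_sq_eq_abs]
    congr 1
    have := Real.sin_sq_add_cos_sq θ
    nlinarith
  have hn' : ‖w'‖ = |r'| := by
    rw [EuclideanSpace.norm_eq, Fin.sum_univ_two, h0', h1', Real.norm_eq_abs, Real.norm_eq_abs,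
      sq_abs, sq_abs, ← Real.sqrt_sq_eq_abs]
    congr 1
    have := Real.sin_sq_add_cos_sq θ'
    nlinarith
  have hi : inner ℝ w w' = r * r' * cos (θ - θ') := by
    rw [PiLp.inner_apply, Fin.sum_univ_two, h0, h1, h0', h1', Real.cos_sub]
    simp only [RCLike.inner_apply, conj_trivial]
    ring
  unfold InnerProductGeometry.angle
  rw [hi, hn, hn', ← abs_mul]
  have hrr : r * r' ≠ 0 := mul_ne_zero hr hr'
  rcases lt_or_gt_of_ne hrr with h | h
  · right
    rw [abs_of_neg h, ← Real.arccos_neg]
    congr 1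
    field_simp
  · left
    rw [abs_of_pos h]
    congr 1
    field_simp

theorem min_dir {A δ : ℝ} {k : ℤ} (hA : A = arccos (cos (π * δ + k * π)) ∨
    A = π - arccos (cos (π * δ + k * π))) (hδ : |δ| ≤ 1) : min A (π - A) ≤ π * |δ| := by
  have hpi := Real.pi_pos
  have h1 : cos (π * δ) = cos (π * |δ|) := by
    rw [← Real.cos_abs, abs_mul, abs_of_pos hpi]
  have h2 : arccos (cos (π * |δ|)) = π * |δ| :=
    Real.arccos_cos (by positivity) (by nlinarith)
  have h3 : arccos (cos (π * δ + k * π)) = π * |δ| ∨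
      arccos (cos (π * δ + k * π)) = π - π * |δ| := by
    rw [Real.cos_add_int_mul_pi]
    rcases Int.even_or_odd k with hk | hk
    · left
      rw [hk.neg_one_zpow, one_mul, h1, h2]
    · right
      rw [hk.neg_one_zpow, neg_one_mul, Real.arccos_neg, h1, h2]
  rcases hA with hA | hA <;> rcases h3 with h3 | h3 <;> rw [hA, h3]
  · exact min_le_left _ _
  · refine (min_le_right _ _).trans (by linarith)
  · refine (min_le_right _ _).trans (by linarith)
  · refine (min_le_left _ _).trans (by linarith)

/-! ### windows -/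

/-- indicator of a window -/
noncomputable def gw (β c x : ℝ) : ℝ := if Int.fract (c - x) < β then 1 else 0

theorem gw_measurable (β c : ℝ) : Measurable (gw β c) := by
  unfold gw
  refine Measurable.ite ?_ measurable_const measurable_const
  exact measurableSet_lt (measurable_const.sub measurable_id).fract measurable_const

theorem gw_integrable (β c a b : ℝ) :
    IntervalIntegrable (gw β c) MeasureTheory.volume a b := by
  refine (intervalIntegrable_const (c := (1 : ℝ))).mono_fun
    (gw_measurable β c).aestronglyMeasurable (Filter.Eventually.of_forall fun x => ?_)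
  show ‖(if Int.fract (c - x) < β then (1 : ℝ) else 0)‖ ≤ ‖(1 : ℝ)‖
  split_ifs <;> simp

theorem gw_integral {β : ℝ} (c : ℝ) (h0 : 0 ≤ β) (h1 : β < 1) :
    ∫ x in (0 : ℝ)..1, gw β c x = β := by
  have hper : Function.Periodic (fun u : ℝ => if Int.fract u < β then (1 : ℝ) else 0) 1 := by
    intro u
    simp only [Int.fract_add_one]
  have e1 : ∫ x in (0 : ℝ)..1, gw β c x =
      ∫ u in (c - 1)..(c - 0), (if Int.fract u < β then (1 : ℝ) else 0) :=
    intervalIntegral.integral_comp_sub_left
      (fun u : ℝ => if Int.fract u < β then (1 : ℝ) else 0) c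
  have e2 := hper.intervalIntegral_add_eq (c - 1) 0
  rw [show c - 1 + 1 = c - 0 by ring, zero_add] at e2
  rw [e1, e2]
  have e3 : ∫ u in (0 : ℝ)..1, (if Int.fract u < β then (1 : ℝ) else 0) =
      ∫ u in (0 : ℝ)..1, Set.indicator {x | x ≤ β} (fun _ => (1 : ℝ)) u := by
    apply intervalIntegral.integral_congr_ae
    have hae : ∀ᵐ x : ℝ, x ∉ ({β, 1} : Set ℝ) :=
      (Set.toFinite ({β, 1} : Set ℝ)).countable.ae_notMem _
    filter_upwards [hae] with u hu hu'
    rw [Set.uIoc_of_le zero_le_one] at hu'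
    simp only [Set.mem_insert_iff, Set.mem_singleton_iff, not_or] at hu
    have hu1 : u < 1 := lt_of_le_of_ne hu'.2 hu.2
    rw [Int.fract_eq_self.2 ⟨hu'.1.le, hu1⟩]
    by_cases h : u < β
    · rw [if_pos h, Set.indicator_of_mem (show u ∈ {x | x ≤ β} from h.le)]
    · rw [if_neg h, Set.indicator_of_notMem]
      intro h2
      exact h (lt_of_le_of_ne h2 hu.1)
  rw [e3, intervalIntegral.integral_indicator ⟨h0, h1.le⟩]
  simp

theorem averaging [Fintype V] [DecidableEq V] {G : SimpleGraph V} [DecidableRel G.Adj]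
    (D : Drawing G) (hn : 3 ≤ Fintype.card V) (c : V → Bool) (hc : ∀ u v, G.Adj u v → c u ≠ c v)
    {α : ℝ} (hα : 0 < α) (hα2 : α ≤ π / 2) (hD : ∀ θ ∈ D.angles, α ≤ θ) :
    (G.edgeFinset.card : ℝ) * α ≤ π * (2 * Fintype.card V - 4) := by
  classical
  have hpi := Real.pi_pos
  choose θ hθ using fun e : Sym2 V => exists_dir D e
  set β : ℝ := α / π with hβ
  have hβ0 : 0 < β := div_pos hα hpi
  have hβ1 : β ≤ 1 / 2 := by rw [hβ, div_le_iff₀ hpi]; linarith
  have key : ∀ x : ℝ, ∑ e ∈ G.edgeFinset, gw β (θ e / π) x ≤ 2 * Fintype.card V - 4 := by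
    intro x
    set S := G.edgeFinset.filter fun e => Int.fract (θ e / π - x) < β with hS
    have hsum : ∑ e ∈ G.edgeFinset, gw β (θ e / π) x = (S.card : ℝ) := by
      unfold gw
      rw [Finset.sum_ite, Finset.sum_const_zero, add_zero, Finset.sum_const, nsmul_eq_mul,
        mul_one]
    set H : SimpleGraph V := SimpleGraph.fromEdgeSet (S : Set (Sym2 V)) with hHdef
    have hHadj : ∀ u v, H.Adj u v → s(u, v) ∈ S ∧ u ≠ v := by
      intro u v h
      rw [hHdef, SimpleGraph.fromEdgeSet_adj] at h
      exact ⟨by exact_mod_cast h.1, h.2⟩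
    have hSG : ∀ e ∈ S, e ∈ G.edgeFinset := fun e he => (Finset.mem_filter.1 he).1
    have hH : H ≤ G := by
      intro u v h
      have := hSG _ (hHadj u v h).1
      rwa [SimpleGraph.mem_edgeFinset, SimpleGraph.mem_edgeSet] at this
    have hcard : ∀ i : Fintype H.edgeSet, @SimpleGraph.edgeFinset V H i = S := by
      intro i
      ext e
      rw [SimpleGraph.mem_edgeFinset, hHdef, SimpleGraph.edgeSet_fromEdgeSet]
      constructor
      · intro h
        exact_mod_cast h.1
      · intro h
        refine ⟨by exact_mod_cast h, ?_⟩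
        have := hSG e h
        rw [SimpleGraph.mem_edgeFinset] at this
        exact G.not_isDiag_of_mem_edgeSet this
    have hb := noncross_bound D hn c hc H hH ?_
    · have hb' : S.card + 4 ≤ 2 * Fintype.card V := by
        rw [hcard] at hb
        exact hb
      rw [hsum]
      have : ((S.card + 4 : ℕ) : ℝ) ≤ ((2 * Fintype.card V : ℕ) : ℝ) := by exact_mod_cast hb'
      push_cast at this
      linarith
    · intro u v u' v' huv huv' hcross
      obtain ⟨hs, hne⟩ := hHadj u v huv
      obtain ⟨hs', hne'⟩ := hHadj u' v' huv'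
      have hf : Int.fract (θ s(u, v) / π - x) < β := (Finset.mem_filter.1 hs).2
      have hf' : Int.fract (θ s(u', v') / π - x) < β := (Finset.mem_filter.1 hs').2
      obtain ⟨r, hr, h0, h1⟩ := hθ s(u, v) u v rfl hne
      obtain ⟨r', hr', h0', h1'⟩ := hθ s(u', v') u' v' rfl hne'
      have hang := angle_dir hr hr' h0 h1 h0' h1'
      set f := Int.fract (θ s(u, v) / π - x) with hfd
      set f' := Int.fract (θ s(u', v') / π - x) with hfd'
      have hf0 : 0 ≤ f := Int.fract_nonneg _
      have hf0' : 0 ≤ f' := Int.fract_nonneg _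
      have hdiff : θ s(u, v) - θ s(u', v') = π * (f - f') +
          ((⌊θ s(u, v) / π - x⌋ - ⌊θ s(u', v') / π - x⌋ : ℤ) : ℝ) * π := by
        have e1 : θ s(u, v) / π - x = ⌊θ s(u, v) / π - x⌋ + f := (Int.floor_add_fract _).symm
        have e2 : θ s(u', v') / π - x = ⌊θ s(u', v') / π - x⌋ + f' :=
          (Int.floor_add_fract _).symm
        have e3 : θ s(u, v) = π * (θ s(u, v) / π) := by field_simp
        have e4 : θ s(u', v') = π * (θ s(u', v') / π) := by field_simp
        have e5 : θ s(u, v) - θ s(u', v') =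
            π * ((θ s(u, v) / π - x) - (θ s(u', v') / π - x)) := by
          conv_lhs => rw [e3, e4]
          ring
        rw [e5]
        conv_lhs => rw [e1, e2]
        push_cast
        ring
      rw [hdiff] at hang
      have habs : |f - f'| < β := by
        rw [abs_lt]
        constructor <;> linarith
      have hmin := min_dir hang (by linarith)
      have hca := hD (D.crossAngle u v u' v') ⟨u, v, u', v', hcross, rfl⟩
      have h3 : D.crossAngle u v u' v' ≤ π * |f - f'| := hmin
      have h4 : π * |f - f'| < π * β := mul_lt_mul_of_pos_left habs hpi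
      have h5 : π * β = α := by rw [hβ]; field_simp
      linarith
  have hint : ∫ x in (0 : ℝ)..1, ∑ e ∈ G.edgeFinset, gw β (θ e / π) x =
      (G.edgeFinset.card : ℝ) * β := by
    rw [intervalIntegral.integral_finsetSum fun e _ => gw_integrable _ _ _ _]
    simp only [gw_integral _ hβ0.le (by linarith : β < 1)]
    rw [Finset.sum_const, nsmul_eq_mul]
  have hle : ∫ x in (0 : ℝ)..1, ∑ e ∈ G.edgeFinset, gw β (θ e / π) x ≤
      ∫ x in (0 : ℝ)..1, ((2 * Fintype.card V - 4 : ℝ)) := by
    refine intervalIntegral.integral_mono zero_le_one ?_ intervalIntegrable_const key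
    have h := IntervalIntegrable.sum G.edgeFinset (f := fun e => gw β (θ e / π))
      (μ := MeasureTheory.volume) (a := 0) (b := 1) fun e _ => gw_integrable _ _ 0 1
    have h2 : (fun x => ∑ e ∈ G.edgeFinset, gw β (θ e / π) x) =
        ∑ e ∈ G.edgeFinset, gw β (θ e / π) := by
      ext x
      simp
    rw [h2]
    exact h
  rw [hint, intervalIntegral.integral_const] at hle
  simp only [sub_zero, one_smul] at hle
  have h6 : (G.edgeFinset.card : ℝ) * α = π * ((G.edgeFinset.card : ℝ) * β) := by
    rw [hβ]; field_simp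
  rw [h6]
  exact mul_le_mul_of_nonneg_left hle hpi.le

/-! ### the cube -/

theorem cube_adj_iff {d : ℕ} (u v : Fin d → Bool) :
    (cube d).Adj u v ↔ ∃ i, v = Function.update u i (!u i) := by
  show hammingDist u v = 1 ↔ _
  rw [hammingDist, Finset.card_eq_one]
  constructor
  · rintro ⟨i, hi⟩
    refine ⟨i, ?_⟩
    ext j
    by_cases hj : j = i
    · subst hj
      have : j ∈ Finset.univ.filter fun k => u k ≠ v k := by rw [hi]; simp
      have h2 : u j ≠ v j := (Finset.mem_filter.1 this).2
      rw [Function.update_self]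
      cases h3 : u j <;> cases h4 : v j <;> simp_all
    · have : j ∉ Finset.univ.filter fun k => u k ≠ v k := by rw [hi]; simpa using hj
      rw [Finset.mem_filter, not_and] at this
      have h2 := this (Finset.mem_univ j)
      rw [Function.update_of_ne hj]
      exact (not_not.1 h2).symm
  · rintro ⟨i, rfl⟩
    refine ⟨i, ?_⟩
    ext j
    rw [Finset.mem_filter, Finset.mem_singleton]
    constructor
    · rintro ⟨-, h⟩
      by_contra hj
      rw [Function.update_of_ne hj] at h
      exact h rfl
    · rintro rfl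
      refine ⟨Finset.mem_univ _, ?_⟩
      rw [Function.update_self]
      cases u j <;> simp

theorem card_edges_cube (d : ℕ) [DecidableRel (cube d).Adj] :
    2 * (cube d).edgeFinset.card = d * 2 ^ d := by
  rw [← SimpleGraph.sum_degrees_eq_twice_card_edges]
  have hdeg : ∀ v : Fin d → Bool, (cube d).degree v = d := by
    intro v
    have h1 : (cube d).neighborFinset v =
        Finset.univ.image fun i : Fin d => Function.update v i (!v i) := by
      ext u
      rw [SimpleGraph.mem_neighborFinset, cube_adj_iff]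
      simp only [Finset.mem_image, Finset.mem_univ, true_and]
      constructor
      · rintro ⟨i, rfl⟩; exact ⟨i, rfl⟩
      · rintro ⟨i, rfl⟩; exact ⟨i, rfl⟩
    rw [← SimpleGraph.card_neighborFinset_eq_degree, h1, Finset.card_image_of_injective]
    · simp
    · intro i j hij
      by_contra hne
      have h2 := congrFun hij i
      simp only at h2
      rw [Function.update_self, Function.update_of_ne hne] at h2
      cases h3 : v i <;> simp [h3] at h2
  simp only [hdeg]
  simp [mul_comm]

theorem crossAngle_nonneg {G : SimpleGraph V} (D : Drawing G) (u v u' v' : V) :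
    0 ≤ D.crossAngle u v u' v' :=
  le_min (InnerProductGeometry.angle_nonneg _ _)
    (sub_nonneg.2 (InnerProductGeometry.angle_le_pi _ _))

theorem crossAngle_le {G : SimpleGraph V} (D : Drawing G) (u v u' v' : V) :
    D.crossAngle u v u' v' ≤ π / 2 := by
  unfold Drawing.crossAngle
  rcases le_total (InnerProductGeometry.angle (D.pos v - D.pos u) (D.pos v' - D.pos u'))
    (π / 2) with h | h
  · exact (min_le_left _ _).trans h
  · exact (min_le_right _ _).trans (by linarith)

/-- parity colouring -/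
def par {d : ℕ} (v : Fin d → Bool) : Bool :=
  decide ((∑ i, (if v i then (1 : ZMod 2) else 0)) = 1)

theorem par_ne {d : ℕ} (u v : Fin d → Bool) (h : (cube d).Adj u v) : par u ≠ par v := by
  obtain ⟨i, rfl⟩ := (cube_adj_iff u v).1 h
  have h1 : ∑ j, (if Function.update u i (!u i) j then (1 : ZMod 2) else 0) =
      (∑ j, (if u j then (1 : ZMod 2) else 0)) + 1 := by
    rw [← sub_eq_iff_eq_add', ← Finset.sum_sub_distrib, Finset.sum_eq_single i]
    · rw [Function.update_self]
      cases u i <;> decide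
    · intro j _ hj
      rw [Function.update_of_ne hj, sub_self]
    · intro h; exact absurd (Finset.mem_univ i) h
  unfold par
  rw [h1]
  generalize (∑ j, (if u j then (1 : ZMod 2) else 0)) = s
  revert s
  decide

theorem car_cube_le (d : ℕ) (hd : 4 ≤ d) :
    car (cube d) ≤ (4 - 8 / 2 ^ d) * π / d := by
  classical
  have hpi := Real.pi_pos
  have hd0 : (0 : ℝ) < d := by exact_mod_cast (by omega : 0 < d)
  have h2d : (16 : ℝ) ≤ 2 ^ d := by
    calc (16 : ℝ) = 2 ^ 4 := by norm_num
      _ ≤ 2 ^ d := pow_le_pow_right₀ (by norm_num) hd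
  have hrhs : 0 ≤ (4 - 8 / (2 : ℝ) ^ d) * π / d := by
    have : 8 / (2 : ℝ) ^ d ≤ 1 := by rw [div_le_one (by positivity)]; linarith
    have : 0 ≤ 4 - 8 / (2 : ℝ) ^ d := by linarith
    positivity
  refine Real.sSup_le ?_ hrhs
  rintro θ ⟨D, ⟨θ₀, hθ₀⟩, rfl⟩
  rcases le_or_gt D.car 0 with h | hpos
  · exact h.trans hrhs
  have hbdd : BddBelow D.angles := by
    refine ⟨0, ?_⟩
    rintro θ ⟨u, v, u', v', -, rfl⟩
    exact crossAngle_nonneg D u v u' v'
  have hle : ∀ θ ∈ D.angles, D.car ≤ θ := fun θ hθ => csInf_le hbdd hθ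
  have hα2 : D.car ≤ π / 2 := by
    refine (hle θ₀ hθ₀).trans ?_
    obtain ⟨u, v, u', v', -, rfl⟩ := hθ₀
    exact crossAngle_le D u v u' v'
  have hcard : Fintype.card (Fin d → Bool) = 2 ^ d := by simp
  have hn : 3 ≤ Fintype.card (Fin d → Bool) := by
    rw [hcard]
    calc 3 ≤ 2 ^ 4 := by norm_num
      _ ≤ 2 ^ d := Nat.pow_le_pow_right (by norm_num) hd
  have havg := averaging D hn par par_ne hpos hα2 hle
  have hE := card_edges_cube d
  have hE' : (2 : ℝ) * ((cube d).edgeFinset.card : ℝ) = d * 2 ^ d := by exact_mod_cast hE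
  rw [hcard] at havg
  push_cast at havg
  rw [le_div_iff₀ hd0]
  have h3 : (d * 2 ^ d) * D.car ≤ π * (4 * 2 ^ d - 8) := by
    rw [← hE']
    linarith
  have h4 : (4 - 8 / (2 : ℝ) ^ d) * π = π * (4 * 2 ^ d - 8) / 2 ^ d := by
    field_simp
  rw [h4, le_div_iff₀ (by positivity)]
  linarith

end Pool.Agent.CarQ
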