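import Pool.Agent.CarQ.Lower
import Pool.Agent.CarQ.Upper

/-!
# Drawings of hypercubes with edges in `k` classes of directions

A drawing of `Q_m` with edges in `j` classes, and such that no two vertices are on a line with one
of the remaining `k - j` directions, is extended to a drawing of `Q_(m+3)` with `j + 1` classes.
-/

namespace Pool.Agent.CarQ

open Real

/-- the `i`-th direction -/
noncomputable def dirA (k i : ℕ) : ℝ := i * (π / k)

/-- the component of a vector orthogonal to the `i`-th direction -/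
noncomputable def nrm (k i : ℕ) (a b : ℝ) : ℝ := cos (dirA k i) * b - sin (dirA k i) * a

/-- the component of a vector in the `i`-th direction -/
noncomputable def alg (k i : ℕ) (a b : ℝ) : ℝ := cos (dirA k i) * a + sin (dirA k i) * b

/-- a drawing with edges in the classes `0, ..., j - 1`, prepared for the classes `j, ..., k - 1` -/
structure CD {V : Type} (k j : ℕ) (δ : ℝ) (X Y : V → ℝ) (E : ℕ → V → V → Prop) : Prop where
  inj : ∀ u v, X u = X v → Y u = Y v → u = v
  nocross : ∀ i < j, ∀ u v u' v', E i u v → E i u' v' → ¬ ((u' = u ∧ v' = v) ∨ (u' = v ∧ v' = u)) →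
    ∀ τ τ' : ℝ, 0 < τ → τ < 1 → 0 < τ' → τ' < 1 →
    X u + τ * (X v - X u) = X u' + τ' * (X v' - X u') →
    Y u + τ * (Y v - Y u) = Y u' + τ' * (Y v' - Y u') → False
  avoid : ∀ i < j, ∀ u v w, E i u v → ∀ τ : ℝ, 0 ≤ τ → τ ≤ 1 → X w = X u + τ * (X v - X u) →
    Y w = Y u + τ * (Y v - Y u) → w = u ∨ w = v
  near : ∀ i < j, ∀ u v, E i u v →
    nrm k i (X v - X u) (Y v - Y u) ^ 2 ≤ δ ^ 2 * ((X v - X u) ^ 2 + (Y v - Y u) ^ 2)
  gen : ∀ i, j ≤ i → i < k → ∀ u v, u ≠ v → nrm k i (X u - X v) (Y u - Y v) ≠ 0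

theorem CD.comap {V W : Type} {k j : ℕ} {δ : ℝ} {X Y : V → ℝ} {E : ℕ → V → V → Prop}
    (h : CD k j δ X Y E) {φ : W → V} (hφ : Function.Injective φ) :
    CD k j δ (fun w => X (φ w)) (fun w => Y (φ w)) (fun i u v => E i (φ u) (φ v)) where
  inj u v hx hy := hφ (h.inj _ _ hx hy)
  nocross i hi u v u' v' h1 h2 hne τ τ' a b c d hx hy := by
    refine h.nocross i hi _ _ _ _ h1 h2 ?_ τ τ' a b c d hx hy
    rintro (⟨e1, e2⟩ | ⟨e1, e2⟩)
    · exact hne (Or.inl ⟨hφ e1, hφ e2⟩)
    · exact hne (Or.inr ⟨hφ e1, hφ e2⟩)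
  avoid i hi u v w h1 τ a b hx hy := by
    rcases h.avoid i hi _ _ _ h1 τ a b hx hy with e | e
    · exact Or.inl (hφ e)
    · exact Or.inr (hφ e)
  near i hi u v h1 := h.near i hi _ _ h1
  gen i h1 h2 u v hne := h.gen i h1 h2 _ _ fun e => hne (hφ e)

/-! ### directions -/

theorem cos_dir_sub {k i j : ℕ} (hi : i < k) (hj : j < k) (hij : i ≠ j) :
    |cos (dirA k i - dirA k j)| ≤ cos (π / k) := by
  have key : ∀ i j : ℕ, i < k → j < i → |cos (dirA k i - dirA k j)| ≤ cos (π / k) := by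
    intro i j hi hji
    have hk : (0 : ℝ) < k := by exact_mod_cast (by omega : 0 < k)
    have hpi := Real.pi_pos
    have hq : 0 < π / k := by positivity
    have e : dirA k i - dirA k j = ((i : ℝ) - j) * (π / k) := by unfold dirA; ring
    have h1 : (1 : ℝ) ≤ (i : ℝ) - j := by
      have : (j : ℝ) + 1 ≤ i := by exact_mod_cast hji
      linarith
    have h2 : (i : ℝ) - j ≤ k - 1 := by
      have h3 : (i : ℝ) + 1 ≤ k := by exact_mod_cast hi
      have h4 : (0 : ℝ) ≤ j := Nat.cast_nonneg j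
      linarith
    have hkq : (k : ℝ) * (π / k) = π := by field_simp
    have h5 : π / k ≤ dirA k i - dirA k j := by rw [e]; nlinarith
    have h6 : dirA k i - dirA k j ≤ π - π / k := by rw [e]; nlinarith
    rw [abs_le]
    constructor
    · have := Real.cos_le_cos_of_nonneg_of_le_pi (x := π / k)
        (y := π - (dirA k i - dirA k j)) hq.le (by linarith) (by linarith)
      rw [Real.cos_pi_sub] at this
      linarith
    · exact Real.cos_le_cos_of_nonneg_of_le_pi hq.le (by linarith) h5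
  rcases lt_or_gt_of_ne hij with h | h
  · rw [← Real.cos_neg, neg_sub]
    exact key j i hj h
  · exact key i j hi h

theorem sin_pos_k {k : ℕ} (hk : 2 ≤ k) : 0 < sin (π / k) := by
  have hk' : (2 : ℝ) ≤ k := by exact_mod_cast hk
  have hpi := Real.pi_pos
  apply Real.sin_pos_of_pos_of_lt_pi
  · positivity
  · rw [div_lt_iff₀ (by linarith)]
    nlinarith

theorem sin_dir_sub {k i j : ℕ} (hi : i < k) (hj : j < k) (hij : i ≠ j) :
    sin (π / k) ≤ |sin (dirA k i - dirA k j)| := by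
  have h := cos_dir_sub hi hj hij
  have h1 := Real.sin_sq_add_cos_sq (dirA k i - dirA k j)
  have h2 := Real.sin_sq_add_cos_sq (π / k)
  have h3 : cos (dirA k i - dirA k j) ^ 2 ≤ cos (π / k) ^ 2 := by
    rw [← sq_abs (cos (dirA k i - dirA k j))]
    exact pow_le_pow_left₀ (abs_nonneg _) h 2
  have h4 : sin (π / k) ^ 2 ≤ sin (dirA k i - dirA k j) ^ 2 := by linarith
  exact (le_abs_self _).trans (sq_le_sq.1 h4)

theorem abs_nrm_le {k i : ℕ} {a b R : ℝ} (ha : |a| ≤ R) (hb : |b| ≤ R) : |nrm k i a b| ≤ 2 * R := by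
  unfold nrm
  have h1 := Real.abs_cos_le_one (dirA k i)
  have h2 := Real.abs_sin_le_one (dirA k i)
  have e1 : |cos (dirA k i) * b| ≤ R := by
    rw [abs_mul]
    have := mul_le_mul h1 hb (abs_nonneg _) zero_le_one
    linarith
  have e2 : |sin (dirA k i) * a| ≤ R := by
    rw [abs_mul]
    have := mul_le_mul h2 ha (abs_nonneg _) zero_le_one
    linarith
  have := abs_sub (cos (dirA k i) * b) (sin (dirA k i) * a)
  linarith

theorem abs_alg_le {k i : ℕ} {a b R : ℝ} (ha : |a| ≤ R) (hb : |b| ≤ R) : |alg k i a b| ≤ 2 * R := by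
  unfold alg
  have h1 := Real.abs_cos_le_one (dirA k i)
  have h2 := Real.abs_sin_le_one (dirA k i)
  have e1 : |cos (dirA k i) * a| ≤ R := by
    rw [abs_mul]
    have := mul_le_mul h1 ha (abs_nonneg _) zero_le_one
    linarith
  have e2 : |sin (dirA k i) * b| ≤ R := by
    rw [abs_mul]
    have := mul_le_mul h2 hb (abs_nonneg _) zero_le_one
    linarith
  have := abs_add_le (cos (dirA k i) * a) (sin (dirA k i) * b)
  linarith

/-! ### the cube `Q_3` in the plane -/

/-- vertices of `Q_3` -/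
abbrev W3 : Type := Bool × Bool × Bool

/-- abscissa -/
def qx : W3 → ℤ
  | (false, false, false) => 0
  | (true, false, false) => 7
  | (true, true, false) => 6
  | (false, true, false) => 1
  | (false, false, true) => 2
  | (true, false, true) => 5
  | (true, true, true) => 4
  | (false, true, true) => 3

/-- ordinate -/
def qy : W3 → ℤ
  | (false, false, false) => 0
  | (true, false, false) => 0
  | (true, true, false) => 7
  | (false, true, false) => 7
  | (false, false, true) => 2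
  | (true, false, true) => 2
  | (true, true, true) => 5
  | (false, true, true) => 5

/-- edges of `Q_3` -/
def R3 (w w' : W3) : Bool :=
  ((w.1 ^^ w'.1).toNat + (w.2.1 ^^ w'.2.1).toNat + (w.2.2 ^^ w'.2.2).toNat) == 1

/-- orientation of a triple of vertices -/
def ori (a b c : W3) : ℤ := (qx b - qx a) * (qy c - qy a) - (qy b - qy a) * (qx c - qx a)

theorem qx_inj : ∀ w w' : W3, qx w = qx w' → w = w' := by decide +kernel

theorem q_range : ∀ w : W3, 0 ≤ qx w ∧ qx w ≤ 7 ∧ 0 ≤ qy w ∧ qy w ≤ 7 := by decide +kernel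

theorem R3_ne : ∀ w w' : W3, R3 w w' = true → w ≠ w' := by decide +kernel

theorem check_avoid : ∀ a b c : W3, R3 a b = true → c ≠ a → c ≠ b → ori a b c ≠ 0 := by
  decide +kernel

theorem check_nocross : ∀ a b c d : W3, R3 a b = true → R3 c d = true →
    ¬ ((c = a ∧ d = b) ∨ (c = b ∧ d = a)) →
    (0 ≤ ori a b c * ori a b d ∧ (ori a b c ≠ 0 ∨ ori a b d ≠ 0)) ∨
    (0 ≤ ori c d a * ori c d b ∧ (ori c d a ≠ 0 ∨ ori c d b ≠ 0)) := by
  decide +kernel

theorem comb_ne_zero {o1 o2 : ℤ} (h : 0 ≤ o1 * o2) (hne : o1 ≠ 0 ∨ o2 ≠ 0) {τ : ℝ} (h0 : 0 < τ)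
    (h1 : τ < 1) : (1 - τ) * (o1 : ℝ) + τ * (o2 : ℝ) ≠ 0 := by
  intro h2
  have h3 : (0 : ℝ) ≤ (o1 : ℝ) * o2 := by exact_mod_cast h
  have h4 : (0 : ℝ) < 1 - τ := by linarith
  have e1 : (1 - τ) * (o1 : ℝ) ^ 2 + τ * ((o1 : ℝ) * o2) = 0 := by
    have := congrArg (fun t => (o1 : ℝ) * t) h2
    simp only [mul_zero] at this
    linarith
  have e2 : (1 - τ) * ((o1 : ℝ) * o2) + τ * (o2 : ℝ) ^ 2 = 0 := by
    have := congrArg (fun t => (o2 : ℝ) * t) h2
    simp only [mul_zero] at this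
    linarith
  rcases hne with hne | hne
  · have : (0 : ℝ) < (o1 : ℝ) ^ 2 := by
      have : (o1 : ℝ) ≠ 0 := by exact_mod_cast hne
      positivity
    nlinarith [mul_nonneg h0.le h3, mul_pos h4 this]
  · have : (0 : ℝ) < (o2 : ℝ) ^ 2 := by
      have : (o2 : ℝ) ≠ 0 := by exact_mod_cast hne
      positivity
    nlinarith [mul_nonneg h4.le h3, mul_pos h0 this]

theorem nocross3 {a b c d : W3} (hab : R3 a b = true) (hcd : R3 c d = true)
    (hne : ¬ ((c = a ∧ d = b) ∨ (c = b ∧ d = a))) {τ τ' : ℝ} (h0 : 0 < τ) (h1 : τ < 1)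
    (h0' : 0 < τ') (h1' : τ' < 1)
    (hx : (qx a : ℝ) + τ * (qx b - qx a) = qx c + τ' * (qx d - qx c))
    (hy : (qy a : ℝ) + τ * (qy b - qy a) = qy c + τ' * (qy d - qy c)) : False := by
  rcases check_nocross a b c d hab hcd hne with ⟨h2, h3⟩ | ⟨h2, h3⟩
  · refine comb_ne_zero h2 h3 h0' h1' ?_
    unfold ori
    push_cast
    linear_combination ((qy b : ℝ) - qy a) * hx - ((qx b : ℝ) - qx a) * hy
  · refine comb_ne_zero h2 h3 h0 h1 ?_
    unfold ori
    push_cast
    linear_combination -((qy d : ℝ) - qy c) * hx + ((qx d : ℝ) - qx c) * hy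

theorem avoid3 {a b c : W3} (hab : R3 a b = true) {τ : ℝ}
    (hx : (qx c : ℝ) = qx a + τ * (qx b - qx a))
    (hy : (qy c : ℝ) = qy a + τ * (qy b - qy a)) : c = a ∨ c = b := by
  by_contra hcon
  push Not at hcon
  apply check_avoid a b c hab hcon.1 hcon.2
  have : ((ori a b c : ℤ) : ℝ) = 0 := by
    unfold ori
    push_cast
    linear_combination ((qx b : ℝ) - qx a) * hy - ((qy b : ℝ) - qy a) * hx
  exact_mod_cast this

theorem comb_abs {a b B τ : ℝ} (ha : |a| ≤ B) (hb : |b| ≤ B) (h0 : 0 ≤ τ) (h1 : τ ≤ 1) :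
    |a + τ * (b - a)| ≤ B := by
  have ha' := abs_le.1 ha
  have hb' := abs_le.1 hb
  rw [abs_le]
  have h2 : 0 ≤ 1 - τ := by linarith
  constructor <;> nlinarith

theorem qx_gap {w w' : W3} (h : w ≠ w') : (1 : ℝ) ≤ |(qx w : ℝ) - qx w'| := by
  have h1 : qx w - qx w' ≠ 0 := fun e => h (qx_inj _ _ (sub_eq_zero.1 e))
  have h2 := Int.one_le_abs h1
  exact_mod_cast h2

theorem qy_comb (a b : W3) {τ : ℝ} (h0 : 0 ≤ τ) (h1 : τ ≤ 1) :
    0 ≤ (qy a : ℝ) + τ * (qy b - qy a) ∧ (qy a : ℝ) + τ * (qy b - qy a) ≤ 7 := by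
  obtain ⟨_, _, ha, ha'⟩ := q_range a
  obtain ⟨_, _, hb, hb'⟩ := q_range b
  have ha : (0 : ℝ) ≤ qy a := by exact_mod_cast ha
  have hb : (0 : ℝ) ≤ qy b := by exact_mod_cast hb
  have ha' : (qy a : ℝ) ≤ 7 := by exact_mod_cast ha'
  have hb' : (qy b : ℝ) ≤ 7 := by exact_mod_cast hb'
  constructor <;> nlinarith

theorem qy_diff (a b : W3) : |(qy a : ℝ) - qy b| ≤ 7 := by
  obtain ⟨_, _, ha, ha'⟩ := q_range a
  obtain ⟨_, _, hb, hb'⟩ := q_range b
  have ha : (0 : ℝ) ≤ qy a := by exact_mod_cast ha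
  have hb : (0 : ℝ) ≤ qy b := by exact_mod_cast hb
  have ha' : (qy a : ℝ) ≤ 7 := by exact_mod_cast ha'
  have hb' : (qy b : ℝ) ≤ 7 := by exact_mod_cast hb'
  rw [abs_le]
  constructor <;> linarith

/-! ### one more factor -/

section step

variable {V : Type} {k j : ℕ} {δ : ℝ} {X Y : V → ℝ} {E : ℕ → V → V → Prop}

/-- new abscissa -/
noncomputable def stX (k j : ℕ) (X : V → ℝ) (L ε : ℝ) (p : V × W3) : ℝ :=
  X p.1 + L * (cos (dirA k j) * qx p.2 - sin (dirA k j) * (ε * qy p.2))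

/-- new ordinate -/
noncomputable def stY (k j : ℕ) (Y : V → ℝ) (L ε : ℝ) (p : V × W3) : ℝ :=
  Y p.1 + L * (sin (dirA k j) * qx p.2 + cos (dirA k j) * (ε * qy p.2))

/-- new classes -/
def stE (j : ℕ) (E : ℕ → V → V → Prop) (i : ℕ) (p q : V × W3) : Prop :=
  if i = j then p.1 = q.1 ∧ R3 p.2 q.2 = true else p.2 = q.2 ∧ E i p.1 q.1

theorem step [Finite V] (hk : 2 ≤ k) (hj : j < k) (hδ : 0 < δ) (h : CD k j δ X Y E) :
    ∃ L ε : ℝ, CD k (j + 1) δ (stX k j X L ε) (stY k j Y L ε) (stE j E) := by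
  classical
  -- bounds
  obtain ⟨R, hR⟩ : ∃ R : ℝ, ∀ v, |X v| ≤ R ∧ |Y v| ≤ R := by
    obtain ⟨R1, h1⟩ := (Set.finite_range fun v => |X v|).bddAbove
    obtain ⟨R2, h2⟩ := (Set.finite_range fun v => |Y v|).bddAbove
    exact ⟨max R1 R2, fun v => ⟨(h1 ⟨v, rfl⟩).trans (le_max_left _ _),
      (h2 ⟨v, rfl⟩).trans (le_max_right _ _)⟩⟩
  obtain ⟨μ, hμ, hμ2⟩ : ∃ μ : ℝ, 0 < μ ∧ ∀ u v, u ≠ v → μ ≤ |nrm k j (X u - X v) (Y u - Y v)| := by
    have hfin : (Set.range fun p : {p : V × V // p.1 ≠ p.2} =>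
        |nrm k j (X p.1.1 - X p.1.2) (Y p.1.1 - Y p.1.2)|).Finite := Set.finite_range _
    have hpos : ∀ x ∈ Set.range fun p : {p : V × V // p.1 ≠ p.2} =>
        |nrm k j (X p.1.1 - X p.1.2) (Y p.1.1 - Y p.1.2)|, 0 < x := by
      rintro _ ⟨p, rfl⟩
      exact abs_pos.2 (h.gen j le_rfl hj _ _ p.2)
    rcases Set.eq_empty_or_nonempty (Set.range fun p : {p : V × V // p.1 ≠ p.2} =>
        |nrm k j (X p.1.1 - X p.1.2) (Y p.1.1 - Y p.1.2)|) with h0 | h0
    · refine ⟨1, one_pos, fun u v huv => ?_⟩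
      exfalso
      have : |nrm k j (X u - X v) (Y u - Y v)| ∈ Set.range fun p : {p : V × V // p.1 ≠ p.2} =>
        |nrm k j (X p.1.1 - X p.1.2) (Y p.1.1 - Y p.1.2)| := ⟨⟨(u, v), huv⟩, rfl⟩
      rw [h0] at this
      exact this
    · obtain ⟨x, hx, hmin⟩ := hfin.exists_minimal h0
      refine ⟨x, hpos x hx, fun u v huv => ?_⟩
      have hmem : |nrm k j (X u - X v) (Y u - Y v)| ∈ Set.range fun p : {p : V × V // p.1 ≠ p.2} =>
        |nrm k j (X p.1.1 - X p.1.2) (Y p.1.1 - Y p.1.2)| := ⟨⟨(u, v), huv⟩, rfl⟩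
      rcases le_total x (|nrm k j (X u - X v) (Y u - Y v)|) with h1 | h1
      · exact h1
      · exact hmin hmem h1
  have hs0 := sin_pos_k hk
  have hs1 : sin (π / k) ≤ 1 := Real.sin_le_one _
  set s0 := sin (π / k) with hs0def
  -- parameters
  obtain ⟨L, hL1, hL2, hL0⟩ : ∃ L : ℝ, 4 * R < L ∧ 8 * R < L * s0 ∧ 0 < L := by
    refine ⟨(8 * |R| + 1) / s0, ?_, ?_, by positivity⟩
    · rw [lt_div_iff₀ hs0]
      have := le_abs_self R
      have h3 := abs_nonneg R
      nlinarith
    · rw [div_mul_cancel₀ _ hs0.ne']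
      have := le_abs_self R
      linarith
  obtain ⟨ε, hε0, hε1, hε2, hε3⟩ : ∃ ε : ℝ, 0 < ε ∧ 7 * ε ≤ δ ∧ 14 * ε ≤ s0 ∧ 7 * (L * ε) < μ := by
    refine ⟨min (δ / 7) (min (s0 / 14) (μ / (14 * L))), by positivity, ?_, ?_, ?_⟩
    · have := min_le_left (δ / 7) (min (s0 / 14) (μ / (14 * L)))
      linarith
    · have := (min_le_right (δ / 7) (min (s0 / 14) (μ / (14 * L)))).trans (min_le_left _ _)
      linarith
    · have := (min_le_right (δ / 7) (min (s0 / 14) (μ / (14 * L)))).trans (min_le_right _ _)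
      rw [le_div_iff₀ (by positivity)] at this
      nlinarith
  refine ⟨L, ε, ?_⟩
  set c := cos (dirA k j) with hc
  set s := sin (dirA k j) with hs
  have hcs : c ^ 2 + s ^ 2 = 1 := by rw [hc, hs]; linarith [Real.sin_sq_add_cos_sq (dirA k j)]
  -- components of the new positions
  have halg : ∀ p, alg k j (stX k j X L ε p) (stY k j Y L ε p) =
      alg k j (X p.1) (Y p.1) + L * qx p.2 := by
    intro p
    unfold alg stX stY
    rw [← hc, ← hs]
    linear_combination L * qx p.2 * hcs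
  have hnrm : ∀ p, nrm k j (stX k j X L ε p) (stY k j Y L ε p) =
      nrm k j (X p.1) (Y p.1) + L * ε * qy p.2 := by
    intro p
    unfold nrm stX stY
    rw [← hc, ← hs]
    linear_combination L * ε * qy p.2 * hcs
  have alin : ∀ a b a' b' τ : ℝ, alg k j (a + τ * (a' - a)) (b + τ * (b' - b)) =
      alg k j a b + τ * (alg k j a' b' - alg k j a b) := by
    intro a b a' b' τ; unfold alg; ring
  have nlin : ∀ a b a' b' τ : ℝ, nrm k j (a + τ * (a' - a)) (b + τ * (b' - b)) =
      nrm k j a b + τ * (nrm k j a' b' - nrm k j a b) := by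
    intro a b a' b' τ; unfold nrm; ring
  have hRa : ∀ v, |alg k j (X v) (Y v)| ≤ 2 * R := fun v => abs_alg_le (hR v).1 (hR v).2
  -- two copies are far from each other
  have far : ∀ {A B : ℝ} {w w' : W3}, |A| ≤ 2 * R → |B| ≤ 2 * R → w ≠ w' →
      A + L * qx w = B + L * qx w' → False := by
    intro A B w w' hA hB hw he
    have h1 := qx_gap hw
    have h2 : L * |(qx w : ℝ) - qx w'| = |B - A| := by
      have e : B - A = L * ((qx w : ℝ) - qx w') := by linarith
      rw [e, abs_mul, abs_of_pos hL0]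
    have h3 := abs_sub B A
    nlinarith
  -- the strips of two vertices are disjoint
  have strip : ∀ {v v' : V} {P Q : ℝ}, v ≠ v' → 0 ≤ P → P ≤ 7 → 0 ≤ Q → Q ≤ 7 →
      nrm k j (X v) (Y v) + L * ε * P = nrm k j (X v') (Y v') + L * ε * Q → False := by
    intro v v' P Q hv hP hP' hQ hQ' he
    have h1 := hμ2 v v' hv
    have h2 : nrm k j (X v - X v') (Y v - Y v') = L * ε * (Q - P) := by
      have : nrm k j (X v - X v') (Y v - Y v') =
        nrm k j (X v) (Y v) - nrm k j (X v') (Y v') := by unfold nrm; ring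
      rw [this]
      linarith
    rw [h2, abs_mul, abs_of_pos (mul_pos hL0 hε0)] at h1
    have h3 : |Q - P| ≤ 7 := by rw [abs_le]; constructor <;> linarith
    have := mul_le_mul_of_nonneg_left h3 (mul_pos hL0 hε0).le
    linarith
  have hE : ∀ {i : ℕ} {p q : V × W3}, i < j + 1 → stE j E i p q →
      (i = j ∧ p.1 = q.1 ∧ R3 p.2 q.2 = true) ∨ (i < j ∧ p.2 = q.2 ∧ E i p.1 q.1) := by
    intro i p q hi he
    unfold stE at he
    split_ifs at he with hij
    · exact Or.inl ⟨hij, he⟩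
    · exact Or.inr ⟨by omega, he⟩
  refine ⟨?_, ?_, ?_, ?_, ?_⟩
  · -- injectivity
    rintro ⟨v, w⟩ ⟨v', w'⟩ hx hy
    have hw : w = w' := by
      by_contra hw
      have h1 := halg (v, w)
      have h2 := halg (v', w')
      rw [hx, hy, h2] at h1
      exact far (hRa v') (hRa v) (Ne.symm hw) h1
    subst hw
    have hv : v = v' := by
      apply h.inj
      · unfold stX at hx; simpa using hx
      · unfold stY at hy; simpa using hy
    rw [hv]
  · -- no crossings
    rintro i hi ⟨v1, w1⟩ ⟨v2, w2⟩ ⟨v3, w3⟩ ⟨v4, w4⟩ h12 h34 hne τ τ' a b a' b' hx hy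
    have e1 := congrArg₂ (alg k j) hx hy
    have e2 := congrArg₂ (nrm k j) hx hy
    rw [alin, alin, halg, halg, halg, halg] at e1
    rw [nlin, nlin, hnrm, hnrm, hnrm, hnrm] at e2
    simp only at e1 e2
    rcases hE hi h12 with ⟨hi1, q1, r1⟩ | ⟨hi1, q1, r1⟩ <;>
      rcases hE hi h34 with ⟨hi2, q2, r2⟩ | ⟨hi2, q2, r2⟩
    · simp only at q1 q2 r1 r2
      subst q1 q2
      by_cases hv : v1 = v3
      · subst hv
        refine nocross3 r1 r2 (fun hcon => hne ?_) a b a' b' ?_ ?_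
        · rcases hcon with ⟨e3, e4⟩ | ⟨e3, e4⟩
          · exact Or.inl ⟨by rw [e3], by rw [e4]⟩
          · exact Or.inr ⟨by rw [e3], by rw [e4]⟩
        · apply mul_left_cancel₀ hL0.ne'
          linarith
        · apply mul_left_cancel₀ (mul_pos hL0 hε0).ne'
          linarith
      · obtain ⟨g1, g2⟩ := qy_comb w1 w2 a.le b.le
        obtain ⟨g3, g4⟩ := qy_comb w3 w4 a'.le b'.le
        refine strip hv g1 g2 g3 g4 ?_
        linarith
    · omega
    · omega
    · simp only at q1 q2 r1 r2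
      subst q1 q2
      by_cases hw : w1 = w3
      · subst hw
        refine h.nocross i hi1 _ _ _ _ r1 r2 (fun hcon => hne ?_) τ τ' a b a' b' ?_ ?_
        · rcases hcon with ⟨e3, e4⟩ | ⟨e3, e4⟩
          · exact Or.inl ⟨by rw [e3], by rw [e4]⟩
          · exact Or.inr ⟨by rw [e3], by rw [e4]⟩
        · unfold stX at hx; simp only at hx; linarith
        · unfold stY at hy; simp only at hy; linarith
      · refine far (comb_abs (hRa v1) (hRa v2) a.le b.le) (comb_abs (hRa v3) (hRa v4) a'.le b'.le)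
          hw ?_
        linarith
  · -- vertices on edges
    rintro i hi ⟨v1, w1⟩ ⟨v2, w2⟩ ⟨v3, w3⟩ h12 τ a b hx hy
    have e1 := congrArg₂ (alg k j) hx hy
    have e2 := congrArg₂ (nrm k j) hx hy
    rw [alin, halg, halg, halg] at e1
    rw [nlin, hnrm, hnrm, hnrm] at e2
    simp only at e1 e2
    rcases hE hi h12 with ⟨hi1, q1, r1⟩ | ⟨hi1, q1, r1⟩
    · simp only at q1 r1
      subst q1
      by_cases hv : v3 = v1
      · subst hv
        rcases avoid3 (c := w3) r1 (τ := τ) (by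
            apply mul_left_cancel₀ hL0.ne'
            linarith) (by
            apply mul_left_cancel₀ (mul_pos hL0 hε0).ne'
            linarith) with e3 | e3
        · exact Or.inl (by rw [e3])
        · exact Or.inr (by rw [e3])
      · exfalso
        obtain ⟨g1, g2⟩ := qy_comb w1 w2 a b
        obtain ⟨_, _, g3, g4⟩ := q_range w3
        have g3 : (0 : ℝ) ≤ qy w3 := by exact_mod_cast g3
        have g4 : (qy w3 : ℝ) ≤ 7 := by exact_mod_cast g4
        refine strip hv g3 g4 g1 g2 ?_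
        linarith
    · simp only at q1 r1
      subst q1
      by_cases hw : w3 = w1
      · subst hw
        rcases h.avoid i hi1 v1 v2 v3 r1 τ a b (by unfold stX at hx; simp only at hx; linarith)
          (by unfold stY at hy; simp only at hy; linarith) with e3 | e3
        · exact Or.inl (by rw [e3])
        · exact Or.inr (by rw [e3])
      · exfalso
        refine far (hRa v3) (comb_abs (hRa v1) (hRa v2) a b) hw ?_
        linarith
  · -- directions
    rintro i hi ⟨v1, w1⟩ ⟨v2, w2⟩ h12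
    rcases hE hi h12 with ⟨hi1, q1, r1⟩ | ⟨hi1, q1, r1⟩
    · simp only at q1 r1
      subst q1 hi1
      have hn : nrm k i (stX k i X L ε (v1, w2) - stX k i X L ε (v1, w1))
          (stY k i Y L ε (v1, w2) - stY k i Y L ε (v1, w1)) = L * ε * ((qy w2 : ℝ) - qy w1) := by
        have h1 := hnrm (v1, w1)
        have h2 := hnrm (v1, w2)
        have h3 : nrm k i (stX k i X L ε (v1, w2) - stX k i X L ε (v1, w1))
          (stY k i Y L ε (v1, w2) - stY k i Y L ε (v1, w1)) =
          nrm k i (stX k i X L ε (v1, w2)) (stY k i Y L ε (v1, w2)) -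
          nrm k i (stX k i X L ε (v1, w1)) (stY k i Y L ε (v1, w1)) := by unfold nrm; ring
        rw [h3, h1, h2]
        ring
      have hd : (stX k i X L ε (v1, w2) - stX k i X L ε (v1, w1)) ^ 2 +
          (stY k i Y L ε (v1, w2) - stY k i Y L ε (v1, w1)) ^ 2 =
          L ^ 2 * (((qx w2 : ℝ) - qx w1) ^ 2 + ε ^ 2 * ((qy w2 : ℝ) - qy w1) ^ 2) := by
        unfold stX stY
        simp only
        rw [← hc, ← hs]
        linear_combination
          L ^ 2 * (((qx w2 : ℝ) - qx w1) ^ 2 + ε ^ 2 * ((qy w2 : ℝ) - qy w1) ^ 2) * hcs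
      rw [hn, hd]
      have h4 := qx_gap (R3_ne _ _ r1).symm
      have h5 := qy_diff w2 w1
      have h6 : (1 : ℝ) ≤ ((qx w2 : ℝ) - qx w1) ^ 2 := by
        rw [← sq_abs]; nlinarith
      have h7 : ((qy w2 : ℝ) - qy w1) ^ 2 ≤ 49 := by
        rw [← sq_abs]; nlinarith [abs_nonneg ((qy w2 : ℝ) - qy w1)]
      have h8 : 49 * ε ^ 2 ≤ δ ^ 2 := by nlinarith
      have h9 : ε ^ 2 * ((qy w2 : ℝ) - qy w1) ^ 2 ≤ δ ^ 2 := by
        have := mul_le_mul_of_nonneg_left h7 (sq_nonneg ε)
        linarith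
      have h10 : δ ^ 2 ≤ δ ^ 2 * (((qx w2 : ℝ) - qx w1) ^ 2 + ε ^ 2 * ((qy w2 : ℝ) - qy w1) ^ 2) := by
        have h11 : (1 : ℝ) ≤ ((qx w2 : ℝ) - qx w1) ^ 2 + ε ^ 2 * ((qy w2 : ℝ) - qy w1) ^ 2 := by
          have := mul_nonneg (sq_nonneg ε) (sq_nonneg ((qy w2 : ℝ) - qy w1))
          linarith
        have := mul_le_mul_of_nonneg_left h11 (sq_nonneg δ)
        linarith
      have h12 := mul_le_mul_of_nonneg_left (h9.trans h10) (sq_nonneg L)
      linarith
    · simp only at q1 r1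
      subst q1
      have h1 := h.near i hi1 v1 v2 r1
      have hX : stX k j X L ε (v2, w1) - stX k j X L ε (v1, w1) = X v2 - X v1 := by
        unfold stX; simp only; ring
      have hY : stY k j Y L ε (v2, w1) - stY k j Y L ε (v1, w1) = Y v2 - Y v1 := by
        unfold stY; simp only; ring
      rw [hX, hY]
      exact h1
  · -- genericity
    rintro i hi hik ⟨v, w⟩ ⟨v', w'⟩ hne hzero
    have hcomp : nrm k i (stX k j X L ε (v, w) - stX k j X L ε (v', w'))
        (stY k j Y L ε (v, w) - stY k j Y L ε (v', w')) =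
        nrm k i (X v - X v') (Y v - Y v') + L * (((qx w : ℝ) - qx w') * sin (dirA k j - dirA k i) +
          ε * ((qy w : ℝ) - qy w') * cos (dirA k j - dirA k i)) := by
      unfold nrm stX stY
      rw [Real.sin_sub, Real.cos_sub]
      simp only
      ring
    rw [hcomp] at hzero
    by_cases hw : w = w'
    · subst hw
      have hv : v ≠ v' := fun e => hne (by rw [e])
      apply h.gen i (by omega) hik v v' hv
      linarith
    · have h1 := qx_gap hw
      have h2 := sin_dir_sub hj hik (by omega)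
      have h3 : s0 ≤ |((qx w : ℝ) - qx w') * sin (dirA k j - dirA k i)| := by
        rw [abs_mul]
        have := mul_le_mul h1 h2 hs0.le (abs_nonneg _)
        linarith
      have h4 : |ε * ((qy w : ℝ) - qy w') * cos (dirA k j - dirA k i)| ≤ s0 / 2 := by
        rw [abs_mul, abs_mul, abs_of_pos hε0]
        have h5 := qy_diff w w'
        have h6 := Real.abs_cos_le_one (dirA k j - dirA k i)
        have h7 : ε * |(qy w : ℝ) - qy w'| ≤ ε * 7 := mul_le_mul_of_nonneg_left h5 hε0.le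
        have h8 := mul_le_mul h7 h6 (abs_nonneg _) (by linarith)
        linarith
      have h5 : s0 / 2 ≤ |((qx w : ℝ) - qx w') * sin (dirA k j - dirA k i) +
          ε * ((qy w : ℝ) - qy w') * cos (dirA k j - dirA k i)| := by
        have := abs_sub_abs_le_abs_sub (((qx w : ℝ) - qx w') * sin (dirA k j - dirA k i))
          (-(ε * ((qy w : ℝ) - qy w') * cos (dirA k j - dirA k i)))
        rw [abs_neg, sub_neg_eq_add] at this
        linarith
      have h6 : |nrm k i (X v - X v') (Y v - Y v')| ≤ 4 * R := by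
        have e : nrm k i (X v - X v') (Y v - Y v') = nrm k i (X v) (Y v) - nrm k i (X v') (Y v') := by
          unfold nrm; ring
        rw [e]
        have := abs_sub (nrm k i (X v) (Y v)) (nrm k i (X v') (Y v'))
        have g1 := abs_nrm_le (k := k) (i := i) (hR v).1 (hR v).2
        have g2 := abs_nrm_le (k := k) (i := i) (hR v').1 (hR v').2
        linarith
      have h7 : |nrm k i (X v - X v') (Y v - Y v')| = L * |((qx w : ℝ) - qx w') *
          sin (dirA k j - dirA k i) + ε * ((qy w : ℝ) - qy w') * cos (dirA k j - dirA k i)| := by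
        have e : nrm k i (X v - X v') (Y v - Y v') = -(L * (((qx w : ℝ) - qx w') *
          sin (dirA k j - dirA k i) + ε * ((qy w : ℝ) - qy w') * cos (dirA k j - dirA k i))) := by
          linarith
        rw [e, abs_neg, abs_mul, abs_of_pos hL0]
      have h8 := mul_le_mul_of_nonneg_left h5 hL0.le
      linarith

end step

end Pool.Agent.CarQ
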