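import Pool.Agent.CarQ.Defs

/-!
# The mirror construction

`B` is a finite set of vertices with coordinates `x, y`; `R` is a set of (nearly horizontal) edges
such that every vertex sees infinity to the right. On `B × Bool × Bool` (four mirror images) the
edges of the images and the horizontal edges joining an image to its mirror image do not cross.
-/

namespace Pool.Agent.CarQ

/-- the coordinate `a` or its mirror image `D - a` -/
def ref (D : ℝ) (s : Bool) (a : ℝ) : ℝ := if s then D - a else a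

@[simp] theorem ref_false (D a : ℝ) : ref D false a = a := by simp [ref]
@[simp] theorem ref_true (D a : ℝ) : ref D true a = D - a := by simp [ref]

theorem ref_comb (D : ℝ) (s : Bool) (a b τ : ℝ) :
    ref D s a + τ * (ref D s b - ref D s a) = ref D s (a + τ * (b - a)) := by
  cases s <;> simp <;> ring

theorem ref_inj {D : ℝ} {s : Bool} {a b : ℝ} (h : ref D s a = ref D s b) : a = b := by
  cases s <;> simp at h <;> linarith

theorem ref_ne {D : ℝ} {s t : Bool} {a b : ℝ} (ha : 2 * a < D) (hb : 2 * b < D) (hst : s ≠ t) :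
    ref D s a ≠ ref D t b := by
  intro h
  cases s <;> cases t <;> simp at h hst <;> linarith

/-- the hypotheses on the base drawing -/
structure Base {B : Type} (x y : B → ℝ) (D : ℝ) (R : B → B → Prop) : Prop where
  inj : Function.Injective y
  x0 : ∀ b, 0 ≤ x b
  xD : ∀ b, 2 * x b < D
  y0 : ∀ b, 0 ≤ y b
  yD : ∀ b, 2 * y b < D
  symm : ∀ u w, R u w → R w u
  irrefl : ∀ u, ¬ R u u
  right : ∀ u w b, R u w → y u < y b → y b < y w →
    (x w - x u) * (y b - y u) < (x b - x u) * (y w - y u)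
  lam : ∀ u w u' w', R u w → R u' w' → y u < y u' → y u' < y w → y u' < y w' → y w' ≤ y w

variable {B : Type} {x y : B → ℝ} {D : ℝ} {R : B → B → Prop}

/-- a vertex on a base edge -/
theorem Base.avoid (h : Base x y D R) {u w b : B} (hR : R u w) {τ : ℝ} (h0 : 0 ≤ τ) (h1 : τ ≤ 1)
    (hx : x b = x u + τ * (x w - x u)) (hy : y b = y u + τ * (y w - y u)) : b = u ∨ b = w := by
  have key : ∀ (u w : B) (τ : ℝ), R u w → y u < y w → 0 ≤ τ → τ ≤ 1 →
      x b = x u + τ * (x w - x u) → y b = y u + τ * (y w - y u) → b = u ∨ b = w := by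
    intro u w τ hR hlt h0 h1 hx hy
    rcases h0.eq_or_lt with h0 | h0
    · left
      apply h.inj
      rw [hy, ← h0]
      ring
    rcases h1.eq_or_lt with h1 | h1
    · right
      apply h.inj
      rw [hy, h1]
      ring
    exfalso
    have h2 : 0 < τ * (y w - y u) := mul_pos h0 (by linarith)
    have h3 : 0 < (1 - τ) * (y w - y u) := mul_pos (by linarith) (by linarith)
    have h4 := h.right u w b hR (by linarith) (by linarith)
    rw [hx, hy] at h4
    have h5 : (x w - x u) * (y u + τ * (y w - y u) - y u) =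
        (x u + τ * (x w - x u) - x u) * (y w - y u) := by ring
    linarith
  have hne : y u ≠ y w := by
    intro he
    have := h.inj he
    subst this
    exact h.irrefl _ hR
  rcases lt_or_gt_of_ne hne with hlt | hlt
  · exact key u w τ hR hlt h0 h1 hx hy
  · exact (key w u (1 - τ) (h.symm _ _ hR) hlt (by linarith) (by linarith)
      (by rw [hx]; ring) (by rw [hy]; ring)).symm

/-- base edges do not cross -/
theorem Base.nocross (h : Base x y D R) {u w u' w' : B} (hR : R u w) (hR' : R u' w')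
    (hne : ¬ ((u' = u ∧ w' = w) ∨ (u' = w ∧ w' = u))) {τ τ' : ℝ} (h0 : 0 < τ) (h1 : τ < 1)
    (h0' : 0 < τ') (h1' : τ' < 1)
    (hx : x u + τ * (x w - x u) = x u' + τ' * (x w' - x u'))
    (hy : y u + τ * (y w - y u) = y u' + τ' * (y w' - y u')) : False := by
  -- the nested case
  have key : ∀ (u w u' w' : B) (τ τ' : ℝ), R u w → R u' w' → y u < y w → y u' < y w' →
      y u ≤ y u' → y w' ≤ y w → ¬ (u' = u ∧ w' = w) → 0 < τ → τ < 1 → 0 < τ' → τ' < 1 →
      x u + τ * (x w - x u) = x u' + τ' * (x w' - x u') →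
      y u + τ * (y w - y u) = y u' + τ' * (y w' - y u') → False := by
    intro u w u' w' τ τ' hR hR' hlt hlt' hle1 hle2 hne h0 h1 h0' h1' hx hy
    have F1 : 0 ≤ (x u' - x u) * (y w - y u) - (x w - x u) * (y u' - y u) ∧
        (u' ≠ u → 0 < (x u' - x u) * (y w - y u) - (x w - x u) * (y u' - y u)) := by
      by_cases he : u' = u
      · subst he
        simp
      · have hl : y u < y u' := lt_of_le_of_ne hle1 (fun h' => he (h.inj h').symm)
        have := h.right u w u' hR hl (by linarith)
        exact ⟨by linarith, fun _ => by linarith⟩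
    have F2 : 0 ≤ (x w' - x u) * (y w - y u) - (x w - x u) * (y w' - y u) ∧
        (w' ≠ w → 0 < (x w' - x u) * (y w - y u) - (x w - x u) * (y w' - y u)) := by
      by_cases he : w' = w
      · subst he
        constructor
        · apply le_of_eq; ring
        · intro h'; exact absurd rfl h'
      · have hl : y w' < y w := lt_of_le_of_ne hle2 (fun h' => he (h.inj h'))
        have := h.right u w w' hR (by linarith) hl
        exact ⟨by linarith, fun _ => by linarith⟩
    have F3 : (1 - τ') * ((x u' - x u) * (y w - y u) - (x w - x u) * (y u' - y u)) +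
        τ' * ((x w' - x u) * (y w - y u) - (x w - x u) * (y w' - y u)) = 0 := by
      have e1 : x u' + τ' * (x w' - x u') - x u = τ * (x w - x u) := by linarith
      have e2 : y u' + τ' * (y w' - y u') - y u = τ * (y w - y u) := by linarith
      have e3 : (1 - τ') * ((x u' - x u) * (y w - y u) - (x w - x u) * (y u' - y u)) +
        τ' * ((x w' - x u) * (y w - y u) - (x w - x u) * (y w' - y u)) =
        (x u' + τ' * (x w' - x u') - x u) * (y w - y u) -
        (x w - x u) * (y u' + τ' * (y w' - y u') - y u) := by ring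
      rw [e3, e1, e2]
      ring
    have g1 : 0 ≤ (1 - τ') * ((x u' - x u) * (y w - y u) - (x w - x u) * (y u' - y u)) :=
      mul_nonneg (by linarith) F1.1
    have g2 : 0 ≤ τ' * ((x w' - x u) * (y w - y u) - (x w - x u) * (y w' - y u)) :=
      mul_nonneg (by linarith) F2.1
    apply hne
    constructor
    · by_contra hu
      have := mul_pos (by linarith : 0 < 1 - τ') (F1.2 hu)
      linarith
    · by_contra hw
      have := mul_pos h0' (F2.2 hw)
      linarith
  -- both oriented upwards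
  have key2 : ∀ (u w u' w' : B) (τ τ' : ℝ), R u w → R u' w' → y u < y w → y u' < y w' →
      ¬ (u' = u ∧ w' = w) → 0 < τ → τ < 1 → 0 < τ' → τ' < 1 →
      x u + τ * (x w - x u) = x u' + τ' * (x w' - x u') →
      y u + τ * (y w - y u) = y u' + τ' * (y w' - y u') → False := by
    have key3 : ∀ (u w u' w' : B) (τ τ' : ℝ), R u w → R u' w' → y u < y w → y u' < y w' →
      y u ≤ y u' → ¬ (u' = u ∧ w' = w) → 0 < τ → τ < 1 → 0 < τ' → τ' < 1 →
      x u + τ * (x w - x u) = x u' + τ' * (x w' - x u') →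
      y u + τ * (y w - y u) = y u' + τ' * (y w' - y u') → False := by
      intro u w u' w' τ τ' hR hR' hlt hlt' hle hne h0 h1 h0' h1' hx hy
      have m1 : 0 < (1 - τ) * (y w - y u) := mul_pos (by linarith) (by linarith)
      have m2 : 0 < τ' * (y w' - y u') := mul_pos h0' (by linarith)
      have hin : y u' < y w := by linarith
      rcases hle.eq_or_lt with he | hl
      · have hu := h.inj he
        subst hu
        rcases le_total (y w') (y w) with hw | hw
        · exact key u w u w' τ τ' hR hR' hlt hlt' le_rfl hw hne h0 h1 h0' h1' hx hy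
        · exact key u w' u w τ' τ hR' hR hlt' hlt le_rfl hw (fun h' => hne ⟨rfl, h'.2.symm⟩)
            h0' h1' h0 h1 hx.symm hy.symm
      · exact key u w u' w' τ τ' hR hR' hlt hlt' hl.le (h.lam u w u' w' hR hR' hl hin hlt') hne
          h0 h1 h0' h1' hx hy
    intro u w u' w' τ τ' hR hR' hlt hlt' hne h0 h1 h0' h1' hx hy
    rcases le_total (y u) (y u') with hl | hl
    · exact key3 u w u' w' τ τ' hR hR' hlt hlt' hl hne h0 h1 h0' h1' hx hy
    · exact key3 u' w' u w τ' τ hR' hR hlt' hlt hl (fun h' => hne ⟨h'.1.symm, h'.2.symm⟩)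
        h0' h1' h0 h1 hx.symm hy.symm
  have hn : ∀ u w, R u w → y u ≠ y w := by
    intro u w hR he
    have := h.inj he
    subst this
    exact h.irrefl _ hR
  rcases lt_or_gt_of_ne (hn u w hR) with hlt | hlt <;>
    rcases lt_or_gt_of_ne (hn u' w' hR') with hlt' | hlt'
  · exact key2 u w u' w' τ τ' hR hR' hlt hlt' (fun h' => hne (Or.inl h')) h0 h1 h0' h1' hx hy
  · exact key2 u w w' u' τ (1 - τ') hR (h.symm _ _ hR') hlt hlt'
      (fun h' => hne (Or.inr ⟨h'.2, h'.1⟩)) h0 h1 (by linarith) (by linarith)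
      (by rw [hx]; ring) (by rw [hy]; ring)
  · exact key2 w u u' w' (1 - τ) τ' (h.symm _ _ hR) hR' hlt hlt'
      (fun h' => hne (Or.inr ⟨h'.1, h'.2⟩)) (by linarith) (by linarith) h0' h1'
      (by rw [← hx]; ring) (by rw [← hy]; ring)
  · exact key2 w u w' u' (1 - τ) (1 - τ') (h.symm _ _ hR) (h.symm _ _ hR') hlt hlt'
      (fun h' => hne (Or.inl ⟨h'.2, h'.1⟩)) (by linarith) (by linarith) (by linarith) (by linarith)
      (by linarith [hx]) (by linarith [hy])

/-- the edges of the four mirror images and the edges joining `(b, false, t)` and `(b, true, t)` -/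
def HE (R : B → B → Prop) (p q : B × Bool × Bool) : Prop :=
  p.2.2 = q.2.2 ∧ ((p.2.1 = q.2.1 ∧ R p.1 q.1) ∨ (p.2.1 ≠ q.2.1 ∧ p.1 = q.1))

/-- first coordinate -/
def X7 (x : B → ℝ) (D : ℝ) (p : B × Bool × Bool) : ℝ := ref D p.2.1 (x p.1)

/-- second coordinate -/
def Y7 (y : B → ℝ) (D : ℝ) (p : B × Bool × Bool) : ℝ := ref D p.2.2 (y p.1)

theorem comb_lt {a b D τ : ℝ} (ha : 2 * a < D) (hb : 2 * b < D) (h0 : 0 ≤ τ) (h1 : τ ≤ 1) :
    2 * (a + τ * (b - a)) < D := by
  have g1 : 0 ≤ (1 - τ) * (D - 2 * a) := mul_nonneg (by linarith) (by linarith)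
  rcases h0.eq_or_lt with h0 | h0
  · rw [← h0]
    linarith
  · have g2 : 0 < τ * (D - 2 * b) := mul_pos h0 (by linarith)
    nlinarith

theorem Base.comb_y (h : Base x y D R) (u w : B) {τ : ℝ} (h0 : 0 ≤ τ) (h1 : τ ≤ 1) :
    2 * (y u + τ * (y w - y u)) < D := comb_lt (h.yD u) (h.yD w) h0 h1

theorem Base.comb_x (h : Base x y D R) (u w : B) {τ : ℝ} (h0 : 0 ≤ τ) (h1 : τ ≤ 1) :
    2 * (x u + τ * (x w - x u)) < D := comb_lt (h.xD u) (h.xD w) h0 h1

theorem Base.inj7 (h : Base x y D R) {p q : B × Bool × Bool} (hx : X7 x D p = X7 x D q)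
    (hy : Y7 y D p = Y7 y D q) : p = q := by
  obtain ⟨u, s, t⟩ := p
  obtain ⟨w, s', t'⟩ := q
  simp only [X7, Y7] at hx hy
  have hs : s = s' := by
    by_contra hs
    exact ref_ne (h.xD u) (h.xD w) hs hx
  have ht : t = t' := by
    by_contra ht
    exact ref_ne (h.yD u) (h.yD w) ht hy
  subst hs ht
  rw [h.inj (ref_inj hy)]

theorem Base.avoid7 (h : Base x y D R) {p q z : B × Bool × Bool} (hE : HE R p q) {τ : ℝ}
    (h0 : 0 ≤ τ) (h1 : τ ≤ 1) (hx : X7 x D z = X7 x D p + τ * (X7 x D q - X7 x D p))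
    (hy : Y7 y D z = Y7 y D p + τ * (Y7 y D q - Y7 y D p)) : z = p ∨ z = q := by
  obtain ⟨u, s, t⟩ := p
  obtain ⟨w, s', t'⟩ := q
  obtain ⟨b, s'', t''⟩ := z
  obtain ⟨ht, hE⟩ := hE
  simp only at ht hE
  subst ht
  simp only [X7, Y7] at hx hy
  rw [ref_comb] at hy
  have ht : t'' = t := by
    by_contra ht
    exact ref_ne (h.yD b) (h.comb_y u w h0 h1) ht hy
  subst ht
  have hy := ref_inj hy
  rcases hE with ⟨hs, hR⟩ | ⟨hs, he⟩
  · subst hs
    rw [ref_comb] at hx
    have hs : s'' = s := by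
      by_contra hs
      exact ref_ne (h.xD b) (h.comb_x u w h0 h1) hs hx
    subst hs
    rcases h.avoid hR h0 h1 (ref_inj hx) hy with h' | h'
    · left; rw [h']
    · right; rw [h']
  · subst he
    have hb : b = u := by
      apply h.inj
      rw [hy]
      ring
    subst hb
    cases s <;> cases s' <;> cases s'' <;> simp at hs ⊢

theorem between_ref {D : ℝ} {s s' : Bool} (hs : s ≠ s') {a τ : ℝ} (ha : 2 * a < D) (h0 : 0 < τ)
    (h1 : τ < 1) : a < ref D s a + τ * (ref D s' a - ref D s a) ∧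
      ref D s a + τ * (ref D s' a - ref D s a) < D - a := by
  have h2 : 0 < τ * (D - 2 * a) := mul_pos h0 (by linarith)
  have h3 : 0 < (1 - τ) * (D - 2 * a) := mul_pos (by linarith) (by linarith)
  cases s <;> cases s' <;> simp at hs ⊢ <;> constructor <;> nlinarith

theorem Base.cross_mixed (h : Base x y D R) {u w b : B} (hR : R u w) {s s' s'' : Bool}
    (hs : s' ≠ s'') {τ τ' : ℝ} (h0 : 0 < τ) (h1 : τ < 1) (h0' : 0 < τ') (h1' : τ' < 1)
    (hx : ref D s (x u + τ * (x w - x u)) = ref D s' (x b) + τ' * (ref D s'' (x b) - ref D s' (x b)))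
    (hy : y u + τ * (y w - y u) = y b) : False := by
  have key : ∀ (u w : B) (τ : ℝ), R u w → y u < y w → 0 < τ → τ < 1 →
      ref D s (x u + τ * (x w - x u)) = ref D s' (x b) + τ' * (ref D s'' (x b) - ref D s' (x b)) →
      y u + τ * (y w - y u) = y b → False := by
    intro u w τ hR hlt h0 h1 hx hy
    have h2 := between_ref hs (h.xD b) h0' h1'
    rw [← hx] at h2
    have h3 : x b < x u + τ * (x w - x u) := by
      cases s <;> simp at h2 <;> linarith
    have m1 : 0 < τ * (y w - y u) := mul_pos h0 (by linarith)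
    have m2 : 0 < (1 - τ) * (y w - y u) := mul_pos (by linarith) (by linarith)
    have h4 := h.right u w b hR (by linarith) (by linarith)
    have h5 : (x b - x u) * (y w - y u) < (τ * (x w - x u)) * (y w - y u) :=
      mul_lt_mul_of_pos_right (by linarith) (by linarith)
    have h6 : y b - y u = τ * (y w - y u) := by linarith
    rw [h6] at h4
    nlinarith
  have hne : y u ≠ y w := by
    intro he
    have := h.inj he
    subst this
    exact h.irrefl _ hR
  rcases lt_or_gt_of_ne hne with hlt | hlt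
  · exact key u w τ hR hlt h0 h1 hx hy
  · exact key w u (1 - τ) (h.symm _ _ hR) hlt (by linarith) (by linarith)
      (by rw [← hx]; congr 1; ring) (by rw [← hy]; ring)

theorem Base.nocross7 (h : Base x y D R) {p q p' q' : B × Bool × Bool} (hE : HE R p q)
    (hE' : HE R p' q') (hne : ¬ ((p' = p ∧ q' = q) ∨ (p' = q ∧ q' = p))) {τ τ' : ℝ} (h0 : 0 < τ)
    (h1 : τ < 1) (h0' : 0 < τ') (h1' : τ' < 1)
    (hx : X7 x D p + τ * (X7 x D q - X7 x D p) = X7 x D p' + τ' * (X7 x D q' - X7 x D p'))
    (hy : Y7 y D p + τ * (Y7 y D q - Y7 y D p) = Y7 y D p' + τ' * (Y7 y D q' - Y7 y D p')) :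
    False := by
  obtain ⟨u, s1, t⟩ := p
  obtain ⟨w, s2, t2⟩ := q
  obtain ⟨u', s1', t'⟩ := p'
  obtain ⟨w', s2', t2'⟩ := q'
  obtain ⟨ht, hE⟩ := hE
  obtain ⟨ht', hE'⟩ := hE'
  simp only at ht hE ht' hE'
  subst ht ht'
  simp only [X7, Y7] at hx hy
  rw [ref_comb, ref_comb] at hy
  have ht : t = t' := by
    by_contra ht
    exact ref_ne (h.comb_y u w h0.le h1.le) (h.comb_y u' w' h0'.le h1'.le) ht hy
  subst ht
  have hy := ref_inj hy
  rcases hE with ⟨hs, hR⟩ | ⟨hs, he⟩ <;> rcases hE' with ⟨hs', hR'⟩ | ⟨hs', he'⟩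
  · subst hs hs'
    rw [ref_comb, ref_comb] at hx
    have hs : s1 = s1' := by
      by_contra hs
      exact ref_ne (h.comb_x u w h0.le h1.le) (h.comb_x u' w' h0'.le h1'.le) hs hx
    subst hs
    refine h.nocross hR hR' ?_ h0 h1 h0' h1' (ref_inj hx) hy
    rintro (⟨rfl, rfl⟩ | ⟨rfl, rfl⟩)
    · exact hne (Or.inl ⟨rfl, rfl⟩)
    · exact hne (Or.inr ⟨rfl, rfl⟩)
  · subst hs he'
    rw [ref_comb] at hx
    exact h.cross_mixed hR hs' h0 h1 h0' h1' hx (by rw [hy]; ring)
  · subst hs' he
    rw [ref_comb] at hx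
    exact h.cross_mixed hR' hs h0' h1' h0 h1 hx.symm (by rw [← hy]; ring)
  · subst he he'
    have hu : u = u' := by
      apply h.inj
      have e1 : y u + τ * (y u - y u) = y u := by ring
      have e2 : y u' + τ' * (y u' - y u') = y u' := by ring
      rw [e1, e2] at hy
      exact hy
    subst hu
    apply hne
    cases s1 <;> cases s2 <;> cases s1' <;> cases s2' <;> simp at hs hs' ⊢

end Pool.Agent.CarQ
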