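import Pool.Agent.CarQ.Scale
import Pool.Agent.CarQ.Mirror

/-!
# The drawing of `Q_5` in which every vertex sees infinity to the right and above

`posx u` and `posy u` are the positions of the vertex `u < 32` (its binary digits are the coordinates)
in the order from left to right and from bottom to top; the gaps between consecutive positions are
powers of `M` with exponents `gapx`, `gapy`. `edgesH` and `edgesV` are the nearly horizontal and the
nearly vertical edges.
-/

namespace Pool.Agent.CarQ

/-- position from left to right -/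
def posx (u : ℕ) : ℕ :=
  [28, 31, 27, 26, 29, 30, 22, 23, 15, 12, 14, 13, 1, 0, 8, 9, 19, 16, 20, 25, 18, 17, 21, 24,
    6, 3, 2, 11, 5, 4, 7, 10].getD u 0

/-- position from bottom to top -/
def posy (u : ℕ) : ℕ :=
  [8, 5, 18, 28, 16, 26, 17, 27, 7, 6, 20, 29, 11, 31, 21, 30, 9, 4, 19, 3, 15, 25, 14, 24, 10,
    1, 0, 2, 12, 22, 13, 23].getD u 0

/-- exponents of the horizontal gaps -/
def gapx (i : ℕ) : ℕ :=
  [105, 47, 40, 10, 23, 20, 34, 21, 41, 5, 31, 21, 45, 43, 32, 33, 32, 31, 7, 43, 37, 3, 3, 26,
    19, 42, 46, 3, 20, 16, 32].getD i 0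

/-- exponents of the vertical gaps -/
def gapy (i : ℕ) : ℕ :=
  [55, 15, 29, 17, 16, 19, 11, 37, 26, 14, 27, 45, 17, 29, 24, 45, 21, 27, 42, 4, 3, 47, 14,
    41, 25, 38, 9, 10, 42, 36, 19].getD i 0

/-- nearly horizontal edges, lower end first -/
def edgesH : List (ℕ × ℕ) :=
  [(8, 0), (0, 16), (1, 9), (17, 1), (6, 2), (2, 10), (2, 18), (7, 3), (3, 11), (4, 6), (12,
    4), (20, 4), (5, 7), (5, 13), (21, 5), (6, 14), (7, 15), (9, 8), (8, 12), (8, 24), (9, 13),
    (25, 9), (10, 14), (11, 15), (12, 13), (12, 14), (12, 28), (15, 13), (29, 13), (16, 24),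
    (19, 17), (25, 17), (27, 19), (22, 20), (28, 20), (23, 21), (29, 21), (30, 22), (31, 23),
    (25, 27), (28, 30), (29, 31)]

/-- nearly vertical edges, left end first -/
def edgesV : List (ℕ × ℕ) :=
  [(0, 1), (2, 0), (0, 4), (3, 1), (5, 1), (3, 2), (19, 3), (4, 5), (6, 7), (22, 6), (7, 23),
    (10, 8), (9, 11), (11, 10), (26, 10), (27, 11), (14, 15), (30, 14), (15, 31), (17, 16), (16,
    18), (20, 16), (17, 21), (18, 19), (18, 22), (26, 18), (23, 19), (21, 20), (22, 23), (25,
    24), (26, 24), (28, 24), (25, 29), (26, 27), (26, 30), (31, 27), (29, 28), (30, 31)]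

/-- `u` and `w` differ in exactly one binary digit -/
def adj32 (u w : ℕ) : Bool := [1, 2, 4, 8, 16].contains (u ^^^ w)

/-- all edges are listed -/
theorem cover : ((List.range 32).all fun u => [1, 2, 4, 8, 16].all fun m =>
    edgesH.contains (u, u ^^^ m) || edgesH.contains (u ^^^ m, u) ||
    edgesV.contains (u, u ^^^ m) || edgesV.contains (u ^^^ m, u)) = true := by decide +kernel

/-- the combinatorial properties of one class: ends, orientation, exponents, visibility, nesting -/
def okClass (p q f g : ℕ → ℕ) (L : List (ℕ × ℕ)) : Bool :=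
  (L.all fun e => decide (e.1 < 32) && decide (e.2 < 32) && decide (q e.1 < q e.2) &&
    decide (ex q g e.1 e.2 < ex p f e.1 e.2)) &&
  (L.all fun e => (List.range 32).all fun b =>
    !(decide (q e.1 < q b) && decide (q b < q e.2)) || cond p q f g e.1 e.2 b) &&
  (L.all fun e => L.all fun e' =>
    !(decide (q e.1 < q e'.1) && decide (q e'.1 < q e.2)) || decide (q e'.2 ≤ q e.2))

theorem okH : okClass posx posy gapx gapy edgesH = true := by decide +kernel

theorem okV : okClass posy posx gapy gapx edgesV = true := by decide +kernel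

theorem posx_le (u : ℕ) : posx u ≤ 31 := by
  by_cases h : u < 32
  · have : ∀ u : Fin 32, posx u ≤ 31 := by decide +kernel
    exact this ⟨u, h⟩
  · unfold posx
    rw [List.getD_eq_default _ _ (by simpa using h)]
    omega

theorem posy_le (u : ℕ) : posy u ≤ 31 := by
  by_cases h : u < 32
  · have : ∀ u : Fin 32, posy u ≤ 31 := by decide +kernel
    exact this ⟨u, h⟩
  · unfold posy
    rw [List.getD_eq_default _ _ (by simpa using h)]
    omega

theorem posx_inj : ∀ u w : Fin 32, posx u = posx w → u = w := by decide +kernel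

theorem posy_inj : ∀ u w : Fin 32, posy u = posy w → u = w := by decide +kernel

end Pool.Agent.CarQ
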