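import Pool.Agent.CarQ.Seven

/-!
# The crossing angular resolution of `Q_7` is `π / 2`
-/

namespace Pool.Agent.CarQ

open Real InnerProductGeometry

variable {V : Type} {G : SimpleGraph V}

/-- the acute angle of two vectors is large if their inner product is small -/
theorem arccos_le_min {a b : Plane} {κ : ℝ}
    (h : |inner ℝ a b| ≤ κ * (‖a‖ * ‖b‖)) (ha : a ≠ 0) (hb : b ≠ 0) :
    arccos κ ≤ min (angle a b) (π - angle a b) := by
  have hpos : 0 < ‖a‖ * ‖b‖ := mul_pos (norm_pos_iff.2 ha) (norm_pos_iff.2 hb)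
  have h1 : |inner ℝ a b / (‖a‖ * ‖b‖)| ≤ κ := by
    rw [abs_div, abs_of_pos hpos, div_le_iff₀ hpos]
    exact h
  have h2 := abs_le.1 h1
  refine le_min ?_ ?_
  · unfold InnerProductGeometry.angle
    exact arccos_le_arccos h2.2
  · unfold InnerProductGeometry.angle
    rw [← arccos_neg]
    exact arccos_le_arccos (by linarith)

theorem ca_le (D : Drawing G) (u v u' v' : V) : D.crossAngle u v u' v' ≤ π / 2 := by
  unfold Drawing.crossAngle
  rcases le_total (angle (D.pos v - D.pos u) (D.pos v' - D.pos u')) (π / 2) with h | h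
  · exact (min_le_left _ _).trans h
  · exact (min_le_right _ _).trans (by linarith)

theorem ca_nonneg (D : Drawing G) (u v u' v' : V) : 0 ≤ D.crossAngle u v u' v' := by
  unfold Drawing.crossAngle
  exact le_min (angle_nonneg _ _) (by linarith [angle_le_pi (D.pos v - D.pos u) (D.pos v' - D.pos u')])

theorem car_drawing_le (D : Drawing G) (h : D.angles.Nonempty) : D.car ≤ π / 2 := by
  obtain ⟨θ, hθ⟩ := h
  have h1 : D.car ≤ θ := csInf_le ⟨0, by
    rintro _ ⟨u, v, u', v', -, rfl⟩
    exact ca_nonneg D u v u' v'⟩ hθ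
  obtain ⟨u, v, u', v', -, rfl⟩ := hθ
  exact h1.trans (ca_le D u v u' v')

theorem car_le (G : SimpleGraph V) : car G ≤ π / 2 := by
  refine Real.sSup_le ?_ (by positivity)
  rintro _ ⟨D, hD, rfl⟩
  exact car_drawing_le D hD

theorem le_car (D : Drawing G) (hD : D.angles.Nonempty) {α : ℝ} (h : ∀ θ ∈ D.angles, α ≤ θ) :
    α ≤ car G := by
  have h1 : α ≤ D.car := le_csInf hD h
  refine h1.trans (le_csSup ⟨π / 2, ?_⟩ ⟨D, hD, rfl⟩)
  rintro _ ⟨D, hD, rfl⟩
  exact car_drawing_le D hD

/-- a point of the plane -/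
noncomputable def pt (a b : ℝ) : Plane := !₂[a, b]

@[simp] theorem pt_zero (a b : ℝ) : pt a b 0 = a := rfl
@[simp] theorem pt_one (a b : ℝ) : pt a b 1 = b := rfl

theorem pt_eq_iff {a b : ℝ} {P : Plane} : pt a b = P ↔ a = P 0 ∧ b = P 1 := by
  constructor
  · rintro rfl
    exact ⟨rfl, rfl⟩
  · rintro ⟨h1, h2⟩
    ext i
    fin_cases i
    · exact h1
    · exact h2

theorem mem_segment_pt {a b a' b' : ℝ} {P : Plane} (h : P ∈ segment ℝ (pt a b) (pt a' b')) :
    ∃ τ : ℝ, 0 ≤ τ ∧ τ ≤ 1 ∧ P 0 = a + τ * (a' - a) ∧ P 1 = b + τ * (b' - b) := by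
  rw [segment_eq_image'] at h
  obtain ⟨τ, ⟨h0, h1⟩, rfl⟩ := h
  exact ⟨τ, h0, h1, by simp, by simp⟩

theorem mem_openSegment_pt {a b a' b' : ℝ} {P : Plane} :
    P ∈ openSegment ℝ (pt a b) (pt a' b') ↔
    ∃ τ : ℝ, 0 < τ ∧ τ < 1 ∧ P 0 = a + τ * (a' - a) ∧ P 1 = b + τ * (b' - b) := by
  rw [openSegment_eq_image']
  constructor
  · rintro ⟨τ, ⟨h0, h1⟩, rfl⟩
    exact ⟨τ, h0, h1, by simp, by simp⟩
  · rintro ⟨τ, h0, h1, hx, hy⟩
    refine ⟨τ, ⟨h0, h1⟩, ?_⟩
    ext i
    fin_cases i
    · simp [hx]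
    · simp [hy]

/-- the first coordinate of the base drawing -/
noncomputable def bx (M : ℝ) (u : Fin 32) : ℝ := co gapx M (posx u)

/-- the second coordinate of the base drawing -/
noncomputable def bY (M : ℝ) (u : Fin 32) : ℝ := co gapy M (posy u)

/-- the size of the drawing -/
noncomputable def bD (M : ℝ) : ℝ := 2 * co gapx M 31 + 2 * co gapy M 31 + 1

theorem baseH {M : ℝ} (hM : 961 < M) : Base (bx M) (bY M) (bD M) (rel edgesH) := by
  have h1 := co_nonneg gapx (by linarith : 1 ≤ M) 31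
  have h2 := co_nonneg gapy (by linarith : 1 ≤ M) 31
  exact base_of_ok okH posx_le posy_le posy_inj hM (by unfold bD; linarith)
    (by unfold bD; linarith)

theorem baseV {M : ℝ} (hM : 961 < M) : Base (bY M) (bx M) (bD M) (rel edgesV) := by
  have h1 := co_nonneg gapx (by linarith : 1 ≤ M) 31
  have h2 := co_nonneg gapy (by linarith : 1 ≤ M) 31
  exact base_of_ok okV posy_le posx_le posx_inj hM (by unfold bD; linarith)
    (by unfold bD; linarith)

/-- the first coordinate of the drawing of `Q_7` -/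
noncomputable def px7 (M : ℝ) (v : Fin 7 → Bool) : ℝ := X7 (bx M) (bD M) (enc v)

/-- the second coordinate of the drawing of `Q_7` -/
noncomputable def py7 (M : ℝ) (v : Fin 7 → Bool) : ℝ := Y7 (bY M) (bD M) (enc v)

/-- the drawing of `Q_7` -/
noncomputable def draw7 (M : ℝ) (hM : 961 < M) : Drawing (cube 7) where
  pos v := pt (px7 M v) (py7 M v)
  inj u v h := by
    rw [pt_eq_iff] at h
    exact enc_inj ((baseH hM).inj7 h.1 h.2)
  avoid u v w hadj hw := by
    obtain ⟨τ, h0, h1, hx, hy⟩ := mem_segment_pt hw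
    simp only [pt_zero, pt_one] at hx hy
    rcases classes hadj with h | h
    · rcases (baseH hM).avoid7 h h0 h1 hx hy with h2 | h2
      · exact Or.inl (enc_inj h2)
      · exact Or.inr (enc_inj h2)
    · have hsw : ∀ p q, sw p = sw q → p = q := by
        rintro ⟨a, b, c⟩ ⟨a', b', c'⟩ h
        simp only [sw, Prod.mk.injEq] at h
        simp [h.1, h.2.1, h.2.2]
      rcases (baseV hM).avoid7 (z := sw (enc w)) h h0 h1 hy hx with h2 | h2
      · exact Or.inl (enc_inj (hsw _ _ h2))
      · exact Or.inr (enc_inj (hsw _ _ h2))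

theorem flat7 {B : Type} {x y : B → ℝ} {D M : ℝ} {R : B → B → Prop} (hM : 0 < M)
    (h : ∀ u w, R u w → M * |y w - y u| ≤ 31 * |x w - x u|) {p q : B × Bool × Bool}
    (hE : HE R p q) : M * |Y7 y D q - Y7 y D p| ≤ 31 * |X7 x D q - X7 x D p| := by
  obtain ⟨u, s, t⟩ := p
  obtain ⟨w, s', t'⟩ := q
  obtain ⟨ht, hE⟩ := hE
  simp only at ht hE
  subst ht
  simp only [X7, Y7]
  rcases hE with ⟨hs, hR⟩ | ⟨hs, he⟩
  · subst hs
    have e : ∀ (s : Bool) (a b : ℝ), |ref D s a - ref D s b| = |a - b| := by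
      intro s a b
      cases s
      · simp
      · simp only [ref_true]
        rw [abs_sub_comm]
        congr 1
        ring
    rw [e, e]
    exact h u w hR
  · subst he
    simp only [sub_self, abs_zero, mul_zero]
    positivity

theorem flatH {M : ℝ} (hM : 961 < M) {u v : Fin 7 → Bool} (h : HE (rel edgesH) (enc u) (enc v)) :
    M * |py7 M v - py7 M u| ≤ 31 * |px7 M v - px7 M u| :=
  flat7 (by linarith) (fun _ _ hR => flat_of_ok okH posx_le posy_le posx_inj hM hR) h

theorem flatV {M : ℝ} (hM : 961 < M) {u v : Fin 7 → Bool}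
    (h : HE (rel edgesV) (sw (enc u)) (sw (enc v))) :
    M * |px7 M v - px7 M u| ≤ 31 * |py7 M v - py7 M u| :=
  flat7 (x := bY M) (y := bx M) (D := bD M) (by linarith)
    (fun _ _ hR => flat_of_ok okV posy_le posx_le posy_inj hM hR) h

/-- crossings are between a horizontal and a vertical edge -/
theorem cross_classes {M : ℝ} (hM : 961 < M) {u v u' v' : Fin 7 → Bool}
    (h : (draw7 M hM).Cross u v u' v') :
    (HE (rel edgesH) (enc u) (enc v) ∧ HE (rel edgesV) (sw (enc u')) (sw (enc v'))) ∨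
    (HE (rel edgesV) (sw (enc u)) (sw (enc v)) ∧ HE (rel edgesH) (enc u') (enc v')) := by
  obtain ⟨h1, h2, hne, P, hP, hP'⟩ := h
  obtain ⟨τ, a0, a1, ax, ay⟩ := mem_openSegment_pt.1 hP
  obtain ⟨τ', b0, b1, bx', by'⟩ := mem_openSegment_pt.1 hP'
  have hne' : ¬ ((enc u' = enc u ∧ enc v' = enc v) ∨ (enc u' = enc v ∧ enc v' = enc u)) := by
    rintro (⟨h3, h4⟩ | ⟨h3, h4⟩)
    · exact hne (by rw [enc_inj h3, enc_inj h4])
    · exact hne (by rw [enc_inj h3, enc_inj h4]; exact Sym2.eq_swap)
  rcases classes h1 with c1 | c1 <;> rcases classes h2 with c2 | c2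
  · exfalso
    exact (baseH hM).nocross7 c1 c2 hne' a0 a1 b0 b1 (ax.symm.trans bx') (ay.symm.trans by')
  · exact Or.inl ⟨c1, c2⟩
  · exact Or.inr ⟨c1, c2⟩
  · exfalso
    have hsw : ∀ p q, sw p = sw q → p = q := by
      rintro ⟨a, b, c⟩ ⟨a', b', c'⟩ h
      simp only [sw, Prod.mk.injEq] at h
      simp [h.1, h.2.1, h.2.2]
    refine (baseV hM).nocross7 c1 c2 ?_ a0 a1 b0 b1 (ay.symm.trans by') (ax.symm.trans bx')
    rintro (⟨h3, h4⟩ | ⟨h3, h4⟩)
    · exact hne' (Or.inl ⟨hsw _ _ h3, hsw _ _ h4⟩)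
    · exact hne' (Or.inr ⟨hsw _ _ h3, hsw _ _ h4⟩)

theorem inner_pt (a b : Plane) : inner ℝ a b = a 0 * b 0 + a 1 * b 1 := by
  rw [PiLp.inner_apply, Fin.sum_univ_two]
  simp [mul_comm]

theorem abs_coord_le (a : Plane) (i : Fin 2) : |a i| ≤ ‖a‖ := by
  have := PiLp.norm_apply_le a i
  rwa [Real.norm_eq_abs] at this

/-- a flat and a steep vector -/
theorem inner_small {a b : Plane} {M : ℝ} (hM : 0 < M) (ha : M * |a 1| ≤ 31 * |a 0|)
    (hb : M * |b 0| ≤ 31 * |b 1|) : |inner ℝ a b| ≤ (62 / M) * (‖a‖ * ‖b‖) := by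
  rw [inner_pt]
  have h1 : |a 0 * b 0 + a 1 * b 1| ≤ |a 0| * |b 0| + |a 1| * |b 1| := by
    rw [← abs_mul, ← abs_mul]
    exact abs_add_le _ _
  have h2 : M * (|a 0| * |b 0| + |a 1| * |b 1|) ≤ 62 * (|a 0| * |b 1|) := by
    have e1 : |a 0| * (M * |b 0|) ≤ |a 0| * (31 * |b 1|) :=
      mul_le_mul_of_nonneg_left hb (abs_nonneg _)
    have e2 : (M * |a 1|) * |b 1| ≤ (31 * |a 0|) * |b 1| :=
      mul_le_mul_of_nonneg_right ha (abs_nonneg _)
    linarith
  have h3 : |a 0| * |b 1| ≤ ‖a‖ * ‖b‖ :=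
    mul_le_mul (abs_coord_le a 0) (abs_coord_le b 1) (abs_nonneg _) (norm_nonneg _)
  have h4 : M * (|a 0| * |b 0| + |a 1| * |b 1|) ≤ 62 * (‖a‖ * ‖b‖) := by linarith
  have h5 : (62 / M) * (‖a‖ * ‖b‖) = (62 * (‖a‖ * ‖b‖)) / M := by ring
  rw [h5, le_div_iff₀ hM]
  have h6 := mul_le_mul_of_nonneg_left h1 hM.le
  linarith

theorem draw7_angles {M : ℝ} (hM : 961 < M) : ∀ θ ∈ (draw7 M hM).angles, arccos (62 / M) ≤ θ := by
  rintro _ ⟨u, v, u', v', hc, rfl⟩
  have hpos : ∀ w w' : Fin 7 → Bool, (cube 7).Adj w w' →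
      (draw7 M hM).pos w' - (draw7 M hM).pos w ≠ 0 := by
    intro w w' hadj h
    exact hadj.ne ((draw7 M hM).inj (sub_eq_zero.1 h)).symm
  refine arccos_le_min ?_ (hpos _ _ hc.1) (hpos _ _ hc.2.1)
  rcases cross_classes hM hc with ⟨c1, c2⟩ | ⟨c1, c2⟩
  · exact inner_small (by linarith) (flatH hM c1) (flatV hM c2)
  · rw [real_inner_comm, mul_comm ‖_‖]
    exact inner_small (by linarith) (flatH hM c2) (flatV hM c1)

/-- the place of the coordinate `i` of `Q_7` in the coordinates of `Q_d` -/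
def place : Fin 7 → ℕ := ![0, 3, 4, 5, 6, 1, 2]

/-- the subcube `Q_d` of `Q_7` -/
def sub (d : ℕ) (v : Fin d → Bool) : Fin 7 → Bool := fun i =>
  if h : place i < d then v ⟨place i, h⟩ else false

theorem place_inj : Function.Injective place := by decide

theorem place_surj : ∀ j < 7, ∃ i, place i = j := by decide

theorem sub_hamming {d : ℕ} (hd : d ≤ 7) (u v : Fin d → Bool) :
    hammingDist (sub d u) (sub d v) = hammingDist u v := by
  unfold hammingDist
  refine Finset.card_bij' (fun i _ => if h : place i < d then ⟨place i, h⟩ else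
      ⟨0, by
        by_contra h0
        have : d = 0 := by omega
        subst this
        simp_all [sub]⟩)
    (fun j _ => (place_surj j (by omega)).choose) ?_ ?_ ?_ ?_
  · intro i hi
    simp only [Finset.mem_filter, Finset.mem_univ, true_and, sub] at hi ⊢
    by_cases h : place i < d
    · simpa [h] using hi
    · simp [h] at hi
  · intro j hj
    have h1 := (place_surj j (by omega)).choose_spec
    simp only [Finset.mem_filter, Finset.mem_univ, true_and, sub] at hj ⊢
    simpa [h1] using hj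
  · intro i hi
    simp only [Finset.mem_filter, Finset.mem_univ, true_and, sub] at hi
    by_cases h : place i < d
    · apply place_inj
      simp only [h, dif_pos]
      exact (place_surj (place i) (by omega)).choose_spec
    · simp [h] at hi
  · intro j hj
    have h1 := (place_surj j (by omega)).choose_spec
    simp [h1]

theorem sub_inj {d : ℕ} (hd : d ≤ 7) {u v : Fin d → Bool} (h : sub d u = sub d v) : u = v := by
  have h1 := sub_hamming hd u v
  rw [h, hammingDist_self] at h1
  exact hammingDist_eq_zero.1 h1.symm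

/-- the drawing of `Q_d`, `d ≤ 7` -/
noncomputable def drawd (d : ℕ) (hd : d ≤ 7) (M : ℝ) (hM : 961 < M) : Drawing (cube d) where
  pos v := (draw7 M hM).pos (sub d v)
  inj u v h := sub_inj hd ((draw7 M hM).inj h)
  avoid u v w hadj hw := by
    have h1 : (cube 7).Adj (sub d u) (sub d v) := (sub_hamming hd u v).trans hadj
    rcases (draw7 M hM).avoid _ _ _ h1 hw with h | h
    · exact Or.inl (sub_inj hd h)
    · exact Or.inr (sub_inj hd h)

theorem drawd_angles {d : ℕ} (hd : d ≤ 7) {M : ℝ} (hM : 961 < M) :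
    ∀ θ ∈ (drawd d hd M hM).angles, arccos (62 / M) ≤ θ := by
  rintro _ ⟨u, v, u', v', hc, rfl⟩
  refine draw7_angles hM _ ⟨sub d u, sub d v, sub d u', sub d v', ⟨?_, ?_, ?_, hc.2.2.2⟩, rfl⟩
  · exact (sub_hamming hd u v).trans hc.1
  · exact (sub_hamming hd u' v').trans hc.2.1
  · intro he
    apply hc.2.2.1
    rw [Sym2.eq_iff] at he ⊢
    rcases he with ⟨h1, h2⟩ | ⟨h1, h2⟩
    · exact Or.inl ⟨sub_inj hd h1, sub_inj hd h2⟩
    · exact Or.inr ⟨sub_inj hd h1, sub_inj hd h2⟩

/-- the vertex of `Q_d` with the first three coordinates `a, b, c` and the others `0` -/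
def vtx (d : ℕ) (a b c : Bool) : Fin d → Bool := fun i =>
  if (i : ℕ) = 0 then a else if (i : ℕ) = 1 then b else if (i : ℕ) = 2 then c else false

theorem sub_vtx {d : ℕ} (hd : 3 ≤ d) (a b c : Bool) :
    sub d (vtx d a b c) = ![a, false, false, false, false, b, c] := by
  funext i
  unfold sub vtx
  fin_cases i
  · simp [place, show 0 < d by omega]
  · simp [place]
  · simp [place]
  · simp [place]
  · simp [place]
  · simp [place, show 1 < d by omega]
  · simp [place, show 2 < d by omega]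

theorem drawd_nonempty {d : ℕ} (hd : d ≤ 7) (hd3 : 3 ≤ d) {M : ℝ} (hM : 961 < M) :
    (drawd d hd M hM).angles.Nonempty := by
  have hM1 : (1 : ℝ) ≤ M := by linarith
  have hs := fun a b c => sub_vtx hd3 a b c
  refine ⟨_, vtx d false false false, vtx d false true false, vtx d true false false,
    vtx d true false true, ⟨?_, ?_, ?_, ?_⟩, rfl⟩
  · show hammingDist _ _ = 1
    rw [← sub_hamming hd, hs, hs]
    decide
  · show hammingDist _ _ = 1
    rw [← sub_hamming hd, hs, hs]
    decide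
  · intro he
    rw [Sym2.eq_iff] at he
    rcases he with ⟨h1, -⟩ | ⟨h1, -⟩
    · have := congrArg (sub d) h1
      rw [hs, hs] at this
      exact absurd this (by decide)
    · have := congrArg (sub d) h1
      rw [hs, hs] at this
      exact absurd this (by decide)
  · have e1 : enc ![false, false, false, false, false, false, false] = (0, false, false) := by
      decide
    have e2 : enc ![false, false, false, false, false, true, false] = (0, true, false) := by decide
    have e3 : enc ![true, false, false, false, false, false, false] = (1, false, false) := by decide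
    have e4 : enc ![true, false, false, false, false, false, true] = (1, false, true) := by decide
    refine ⟨pt (bx M 1) (bY M 0), ?_, ?_⟩
    · show _ ∈ openSegment ℝ (pt _ _) (pt _ _)
      rw [mem_openSegment_pt]
      simp only [px7, py7, hs, e1, e2, X7, Y7, ref_false, ref_true, pt_zero, pt_one]
      have hlt : bx M 0 < bx M 1 := co_strictMono gapx hM1 (by decide)
      have h1 := (baseH hM).xD 1
      have h2 := (baseH hM).xD 0
      have hden : 0 < bD M - bx M 0 - bx M 0 := by linarith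
      refine ⟨(bx M 1 - bx M 0) / (bD M - bx M 0 - bx M 0), div_pos (by linarith) hden, ?_, ?_,
        by ring⟩
      · rw [div_lt_one hden]
        linarith
      · field_simp
        ring
    · show _ ∈ openSegment ℝ (pt _ _) (pt _ _)
      rw [mem_openSegment_pt]
      simp only [px7, py7, hs, e3, e4, X7, Y7, ref_false, ref_true, pt_zero, pt_one]
      have hlt : bY M 1 < bY M 0 := co_strictMono gapy hM1 (by decide)
      have h1 := (baseH hM).yD 1
      have h2 := (baseH hM).yD 0
      have hden : 0 < bD M - bY M 1 - bY M 1 := by linarith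
      refine ⟨(bY M 0 - bY M 1) / (bD M - bY M 1 - bY M 1), div_pos (by linarith) hden, ?_,
        by ring, ?_⟩
      · rw [div_lt_one hden]
        linarith
      · field_simp
        ring

/-- The crossing angular resolution of `Q_d` is `π / 2` for `d ≤ 7`. -/
theorem car_of_le_seven {d : ℕ} (hd : d ≤ 7) (hd3 : 3 ≤ d) : car (cube d) = π / 2 := by
  refine le_antisymm (car_le _) ?_
  have h1 : ∀ M : ℝ, 961 < M → arccos (62 / M) ≤ car (cube d) := fun M hM =>
    le_car (drawd d hd M hM) (drawd_nonempty hd hd3 hM) (drawd_angles hd hM)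
  have h2 : Filter.Tendsto (fun M : ℝ => arccos (62 / M)) Filter.atTop (nhds (arccos 0)) := by
    refine (continuous_arccos.tendsto 0).comp ?_
    exact Filter.Tendsto.const_div_atTop Filter.tendsto_id 62
  rw [arccos_zero] at h2
  refine le_of_tendsto h2 ?_
  filter_upwards [Filter.eventually_gt_atTop 961] with M hM
  exact h1 M hM

end Pool.Agent.CarQ
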