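import Pool.Agent.CarQ.Factors

/-!
# The lower bound `π / k` for the crossing angular resolution of `Q_d`, `d ≤ 3 k + 1`
-/

namespace Pool.Agent.CarQ

open Real InnerProductGeometry

/-- the classes of the edges of `Q_7` -/
def E7 (i : ℕ) (u v : Fin 7 → Bool) : Prop :=
  (i = 0 ∧ HE (rel edgesH) (enc u) (enc v)) ∨ (i = 1 ∧ HE (rel edgesV) (sw (enc u)) (sw (enc v)))

theorem sw_inj : ∀ p q, sw p = sw q → p = q := by
  rintro ⟨a, b, c⟩ ⟨a', b', c'⟩ h
  simp only [sw, Prod.mk.injEq] at h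
  simp [h.1, h.2.1, h.2.2]

theorem base_cd {k : ℕ} (hk : 2 ≤ k) {δ : ℝ} (hδ : 0 < δ) :
    ∃ X Y : (Fin 7 → Bool) → ℝ, CD k 2 δ X Y E7 := by
  obtain ⟨M, hM, hM2⟩ : ∃ M : ℝ, 961 < M ∧ 124 ≤ δ * M := by
    refine ⟨max 962 (124 / δ), lt_of_lt_of_le (by norm_num) (le_max_left _ _), ?_⟩
    have := le_max_right 962 (124 / δ)
    rw [div_le_iff₀ hδ] at this
    linarith
  have hk' : (2 : ℝ) ≤ k := by exact_mod_cast hk
  set c1 := cos (π / k) with hc1
  set s1 := sin (π / k) with hs1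
  have hs0 : 0 < s1 := sin_pos_k hk
  have hd0 : dirA k 0 = 0 := by simp [dirA]
  have hd1 : dirA k 1 = π / k := by simp [dirA]
  have hcs : c1 ^ 2 + s1 ^ 2 = 1 := by rw [hc1, hs1]; linarith [Real.sin_sq_add_cos_sq (π / k)]
  have hc1a : |c1| ≤ 1 := Real.abs_cos_le_one _
  -- the scale
  obtain ⟨c, ⟨hc, hc'⟩, hbad⟩ := (Set.Icc_infinite (α := ℝ) one_lt_two).exists_notMem_finite
    (Set.finite_range fun p : (Fin 7 → Bool) × (Fin 7 → Bool) × Fin k =>
      -((px7 M p.1 - px7 M p.2.1) * nrm k p.2.2 1 0) /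
        ((py7 M p.1 - py7 M p.2.1) * nrm k p.2.2 c1 s1))
  have hc0 : 0 < c := by linarith
  let X : (Fin 7 → Bool) → ℝ := fun v => px7 M v + c * py7 M v * c1
  let Y : (Fin 7 → Bool) → ℝ := fun v => c * py7 M v * s1
  have key : ∀ {a b a' b' : ℝ}, a + c * b * c1 = a' + c * b' * c1 → c * b * s1 = c * b' * s1 →
      a = a' ∧ b = b' := by
    intro a b a' b' h1 h2
    have h3 : b = b' := by
      apply mul_left_cancel₀ (mul_pos hc0 hs0).ne'
      linarith
    subst h3
    exact ⟨by linarith, rfl⟩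
  have hinj : ∀ u v, px7 M u = px7 M v → py7 M u = py7 M v → u = v := fun u v h1 h2 =>
    enc_inj ((baseH hM).inj7 h1 h2)
  have hdiff : ∀ u v, (X v - X u) ^ 2 + (Y v - Y u) ^ 2 =
      (px7 M v - px7 M u) ^ 2 + 2 * c * c1 * ((px7 M v - px7 M u) * (py7 M v - py7 M u)) +
        c ^ 2 * (py7 M v - py7 M u) ^ 2 := by
    intro u v
    simp only [X, Y]
    linear_combination (c ^ 2 * (py7 M v - py7 M u) ^ 2) * hcs
  have hcross : ∀ p q : ℝ, -(4 * (|p| * |q|)) ≤ 2 * c * c1 * (p * q) := by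
    intro p q
    have h1 : |2 * c * c1 * (p * q)| ≤ 4 * (|p| * |q|) := by
      rw [abs_mul, abs_mul, abs_mul p q, abs_of_pos (by linarith : 0 < 2 * c)]
      have h2 : 2 * c * |c1| ≤ 4 := by nlinarith [abs_nonneg c1]
      exact mul_le_mul_of_nonneg_right h2 (by positivity)
    exact (abs_le.1 h1).1
  refine ⟨X, Y, ?_, ?_, ?_, ?_, ?_⟩
  · intro u v hx hy
    obtain ⟨h1, h2⟩ := key hx hy
    exact hinj u v h1 h2
  · rintro i hi u v u' v' h1 h2 hne τ τ' a b a' b' hx hy
    have hx' : (px7 M u + τ * (px7 M v - px7 M u)) + c * (py7 M u + τ * (py7 M v - py7 M u)) * c1 =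
        (px7 M u' + τ' * (px7 M v' - px7 M u')) +
          c * (py7 M u' + τ' * (py7 M v' - py7 M u')) * c1 := by
      simp only [X] at hx
      linear_combination hx
    have hy' : c * (py7 M u + τ * (py7 M v - py7 M u)) * s1 =
          c * (py7 M u' + τ' * (py7 M v' - py7 M u')) * s1 := by
      simp only [Y] at hy
      linear_combination hy
    obtain ⟨e1, e2⟩ := key hx' hy'
    rcases h1 with ⟨j1, h1⟩ | ⟨j1, h1⟩ <;> rcases h2 with ⟨j2, h2⟩ | ⟨j2, h2⟩
    · refine (baseH hM).nocross7 h1 h2 ?_ a b a' b' e1 e2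
      rintro (⟨h3, h4⟩ | ⟨h3, h4⟩)
      · exact hne (Or.inl ⟨enc_inj h3, enc_inj h4⟩)
      · exact hne (Or.inr ⟨enc_inj h3, enc_inj h4⟩)
    · omega
    · omega
    · refine (baseV hM).nocross7 h1 h2 ?_ a b a' b' e2 e1
      rintro (⟨h3, h4⟩ | ⟨h3, h4⟩)
      · exact hne (Or.inl ⟨enc_inj (sw_inj _ _ h3), enc_inj (sw_inj _ _ h4)⟩)
      · exact hne (Or.inr ⟨enc_inj (sw_inj _ _ h3), enc_inj (sw_inj _ _ h4)⟩)
  · rintro i hi u v w h1 τ a b hx hy
    have hx' : px7 M w + c * py7 M w * c1 =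
        (px7 M u + τ * (px7 M v - px7 M u)) + c * (py7 M u + τ * (py7 M v - py7 M u)) * c1 := by
      simp only [X] at hx
      linear_combination hx
    have hy' : c * py7 M w * s1 = c * (py7 M u + τ * (py7 M v - py7 M u)) * s1 := by
      simp only [Y] at hy
      linear_combination hy
    obtain ⟨e1, e2⟩ := key hx' hy'
    rcases h1 with ⟨j1, h1⟩ | ⟨j1, h1⟩
    · rcases (baseH hM).avoid7 h1 a b e1 e2 with h2 | h2
      · exact Or.inl (enc_inj h2)
      · exact Or.inr (enc_inj h2)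
    · rcases (baseV hM).avoid7 (z := sw (enc w)) h1 a b e2 e1 with h2 | h2
      · exact Or.inl (enc_inj (sw_inj _ _ h2))
      · exact Or.inr (enc_inj (sw_inj _ _ h2))
  · rintro i hi u v h1
    rw [hdiff]
    set p := px7 M v - px7 M u with hp
    set q := py7 M v - py7 M u with hq
    have hpq := hcross p q
    have hab : 0 ≤ |p| * |q| := by positivity
    rcases h1 with ⟨j1, h1⟩ | ⟨j1, h1⟩
    · have h2 := flatH hM h1
      rw [← hp, ← hq] at h2
      have h3 : 8 * |q| ≤ |p| := by nlinarith [abs_nonneg q]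
      have h4 : 4 * |q| ≤ δ * |p| := by nlinarith [abs_nonneg q, abs_nonneg p]
      have h5 : nrm k i (X v - X u) (Y v - Y u) = c * q * s1 := by
        subst j1
        simp only [nrm, hd0, cos_zero, sin_zero, X, Y, hq]
        ring
      rw [h5]
      have h6 : (c * q * s1) ^ 2 ≤ 4 * |q| ^ 2 := by
        have e1 : (c * q * s1) ^ 2 = (c ^ 2 * s1 ^ 2) * |q| ^ 2 := by rw [sq_abs]; ring
        rw [e1]
        refine mul_le_mul_of_nonneg_right ?_ (sq_nonneg _)
        nlinarith [sq_nonneg c1, sq_nonneg s1]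
      have h7 : p ^ 2 / 2 ≤ p ^ 2 + 2 * c * c1 * (p * q) + c ^ 2 * q ^ 2 := by
        have e1 : 8 * (|p| * |q|) ≤ p ^ 2 := by rw [← sq_abs p]; nlinarith [abs_nonneg p]
        nlinarith [sq_nonneg (c * q)]
      have h8 : 16 * |q| ^ 2 ≤ δ ^ 2 * p ^ 2 := by
        rw [← sq_abs p]
        have := mul_self_le_mul_self (by positivity) h4
        nlinarith
      have h9 := mul_le_mul_of_nonneg_left h7 (sq_nonneg δ)
      nlinarith [sq_nonneg |q|]
    · have h2 := flatV hM h1
      rw [← hp, ← hq] at h2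
      have h3 : 8 * |p| ≤ |q| := by nlinarith [abs_nonneg p]
      have h4 : 4 * |p| ≤ δ * |q| := by nlinarith [abs_nonneg q, abs_nonneg p]
      have h5 : nrm k i (X v - X u) (Y v - Y u) = -(s1 * p) := by
        subst j1
        simp only [nrm, hd1, X, Y, hp, ← hc1, ← hs1]
        ring
      rw [h5]
      have h6 : (-(s1 * p)) ^ 2 ≤ |p| ^ 2 := by
        have e1 : (-(s1 * p)) ^ 2 = s1 ^ 2 * |p| ^ 2 := by rw [sq_abs]; ring
        rw [e1]
        nlinarith [sq_nonneg c1, sq_nonneg |p|]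
      have h7 : q ^ 2 / 2 ≤ p ^ 2 + 2 * c * c1 * (p * q) + c ^ 2 * q ^ 2 := by
        have e1 : 8 * (|p| * |q|) ≤ q ^ 2 := by rw [← sq_abs q]; nlinarith [abs_nonneg q]
        have e2 : q ^ 2 ≤ c ^ 2 * q ^ 2 := le_mul_of_one_le_left (sq_nonneg q) (by nlinarith)
        nlinarith [sq_nonneg p]
      have h8 : 16 * |p| ^ 2 ≤ δ ^ 2 * q ^ 2 := by
        rw [← sq_abs q]
        have := mul_self_le_mul_self (by positivity) h4
        nlinarith
      have h9 := mul_le_mul_of_nonneg_left h7 (sq_nonneg δ)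
      nlinarith [sq_nonneg |p|]
  · intro i hi hik u v huv hzero
    have h0 : nrm k i 1 0 ≠ 0 := by
      have h1 := sin_dir_sub hik (by omega : 0 < k) (by omega)
      rw [hd0, sub_zero] at h1
      have h2 : nrm k i 1 0 = -sin (dirA k i) := by unfold nrm; ring
      rw [h2, neg_ne_zero]
      intro h3
      rw [h3, abs_zero] at h1
      linarith
    have h1 : nrm k i c1 s1 ≠ 0 := by
      have h1 := sin_dir_sub (by omega : 1 < k) hik (by omega)
      have h2 : nrm k i c1 s1 = sin (dirA k 1 - dirA k i) := by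
        rw [Real.sin_sub, hd1, ← hc1, ← hs1]; unfold nrm; ring
      rw [h2]
      intro h3
      rw [h3, abs_zero] at h1
      linarith
    have hcomp : nrm k i (X u - X v) (Y u - Y v) =
        (px7 M u - px7 M v) * nrm k i 1 0 + c * ((py7 M u - py7 M v) * nrm k i c1 s1) := by
      simp only [nrm, X, Y]
      ring
    rw [hcomp] at hzero
    by_cases hq : py7 M u = py7 M v
    · rw [hq, sub_self, zero_mul, mul_zero, add_zero] at hzero
      rcases mul_eq_zero.1 hzero with h2 | h2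
      · exact huv (hinj u v (sub_eq_zero.1 h2) hq)
      · exact h0 h2
    · apply hbad
      refine ⟨(u, v, ⟨i, hik⟩), ?_⟩
      simp only
      rw [div_eq_iff (mul_ne_zero (sub_ne_zero.2 hq) h1)]
      linarith

/-! ### all factors -/

/-- a vertex of `Q_(m+3)` as a pair -/
def split3 (m : ℕ) (v : Fin (m + 3) → Bool) : (Fin m → Bool) × W3 :=
  (fun i => v (Fin.castAdd 3 i), v (Fin.natAdd m 0), v (Fin.natAdd m 1), v (Fin.natAdd m 2))

theorem split3_inj (m : ℕ) : Function.Injective (split3 m) := by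
  intro u v h
  simp only [split3, Prod.mk.injEq] at h
  obtain ⟨h1, h2, h3, h4⟩ := h
  funext i
  refine Fin.addCases (fun i => ?_) (fun i => ?_) i
  · exact congrFun h1 i
  · fin_cases i
    · exact h2
    · exact h3
    · exact h4

theorem split3_adj {m : ℕ} {u v : Fin (m + 3) → Bool} (h : (cube (m + 3)).Adj u v) :
    ((split3 m u).1 = (split3 m v).1 ∧ R3 (split3 m u).2 (split3 m v).2 = true) ∨
    ((split3 m u).2 = (split3 m v).2 ∧ (cube m).Adj (split3 m u).1 (split3 m v).1) := by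
  obtain ⟨i, rfl⟩ := (cube_adj_iff u v).1 h
  revert h
  refine Fin.addCases (fun i => ?_) (fun i => ?_) i
  · intro _
    right
    have hne : ∀ j : Fin 3, Fin.natAdd m j ≠ Fin.castAdd 3 i := by
      intro j hj
      have := congrArg Fin.val hj
      simp only [Fin.val_natAdd, Fin.val_castAdd] at this
      omega
    constructor
    · simp only [split3]
      rw [Function.update_of_ne (hne 0), Function.update_of_ne (hne 1),
        Function.update_of_ne (hne 2)]
    · rw [cube_adj_iff]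
      refine ⟨i, ?_⟩
      funext j
      simp only [split3]
      by_cases hj : j = i
      · subst hj
        simp
      · rw [Function.update_of_ne hj, Function.update_of_ne]
        intro he
        exact hj (Fin.castAdd_injective m 3 he)
  · intro _
    left
    have hne : ∀ j : Fin m, Fin.castAdd 3 j ≠ Fin.natAdd m i := by
      intro j hj
      have := congrArg Fin.val hj
      simp only [Fin.val_natAdd, Fin.val_castAdd] at this
      omega
    have hne2 : ∀ a b : Fin 3, a ≠ b → Fin.natAdd m a ≠ Fin.natAdd m b := fun a b hab he =>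
      hab (Fin.natAdd_injective 3 m he)
    constructor
    · funext j
      simp only [split3]
      rw [Function.update_of_ne (hne j)]
    · simp only [split3]
      fin_cases i
      · simp only [Fin.zero_eta]
        rw [Function.update_self, Function.update_of_ne (hne2 1 0 (by decide)),
          Function.update_of_ne (hne2 2 0 (by decide))]
        generalize u (Fin.natAdd m 0) = a
        generalize u (Fin.natAdd m 1) = b
        generalize u (Fin.natAdd m 2) = c
        revert a b c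
        decide
      · simp only [Fin.mk_one]
        rw [Function.update_self, Function.update_of_ne (hne2 0 1 (by decide)),
          Function.update_of_ne (hne2 2 1 (by decide))]
        generalize u (Fin.natAdd m 0) = a
        generalize u (Fin.natAdd m 1) = b
        generalize u (Fin.natAdd m 2) = c
        revert a b c
        decide
      · simp only [Fin.reduceFinMk]
        rw [Function.update_self, Function.update_of_ne (hne2 0 2 (by decide)),
          Function.update_of_ne (hne2 1 2 (by decide))]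
        generalize u (Fin.natAdd m 0) = a
        generalize u (Fin.natAdd m 1) = b
        generalize u (Fin.natAdd m 2) = c
        revert a b c
        decide

theorem exists_cd {k : ℕ} (hk : 2 ≤ k) {δ : ℝ} (hδ : 0 < δ) : ∀ t : ℕ, t + 2 ≤ k →
    ∃ (X Y : (Fin (7 + 3 * t) → Bool) → ℝ)
      (E : ℕ → (Fin (7 + 3 * t) → Bool) → (Fin (7 + 3 * t) → Bool) → Prop),
      CD k (t + 2) δ X Y E ∧ ∀ u v, (cube (7 + 3 * t)).Adj u v → ∃ i < t + 2, E i u v := by
  intro t
  induction t with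
  | zero =>
    intro _
    obtain ⟨X, Y, h⟩ := base_cd hk hδ
    refine ⟨X, Y, E7, h, fun u v huv => ?_⟩
    rcases classes huv with h1 | h1
    · exact ⟨0, by omega, Or.inl ⟨rfl, h1⟩⟩
    · exact ⟨1, by omega, Or.inr ⟨rfl, h1⟩⟩
  | succ t ih =>
    intro ht
    obtain ⟨X, Y, E, h, hcov⟩ := ih (by omega)
    obtain ⟨L, ε, hst⟩ := step hk (by omega : t + 2 < k) hδ h
    have hm : 7 + 3 * (t + 1) = 7 + 3 * t + 3 := by ring
    rw [hm]
    refine ⟨_, _, _, hst.comap (split3_inj (7 + 3 * t)), fun u v huv => ?_⟩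
    rcases split3_adj huv with ⟨h1, h2⟩ | ⟨h1, h2⟩
    · exact ⟨t + 2, by omega, by unfold stE; rw [if_pos rfl]; exact ⟨h1, h2⟩⟩
    · obtain ⟨i, hi, hE⟩ := hcov _ _ h2
      exact ⟨i, by omega, by unfold stE; rw [if_neg (by omega)]; exact ⟨h1, hE⟩⟩

/-! ### the drawings of `Q_d` -/

/-- `Q_d` as a subcube of `Q_m` -/
def extF (d m : ℕ) (v : Fin d → Bool) : Fin m → Bool := fun i =>
  if h : (i : ℕ) < d then v ⟨i, h⟩ else false

theorem extF_inj {d m : ℕ} (hdm : d ≤ m) : Function.Injective (extF d m) := by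
  intro u v h
  funext i
  have := congrFun h ⟨i, by omega⟩
  simpa [extF] using this

theorem extF_adj {d m : ℕ} (hdm : d ≤ m) {u v : Fin d → Bool} (h : (cube d).Adj u v) :
    (cube m).Adj (extF d m u) (extF d m v) := by
  obtain ⟨i, rfl⟩ := (cube_adj_iff u v).1 h
  rw [cube_adj_iff]
  refine ⟨⟨i, by omega⟩, ?_⟩
  funext j
  by_cases hj : j = ⟨i, by omega⟩
  · subst hj
    simp [extF]
  · rw [Function.update_of_ne hj]
    unfold extF
    by_cases hjd : (j : ℕ) < d
    · rw [dif_pos hjd, dif_pos hjd, Function.update_of_ne]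
      intro he
      apply hj
      ext
      rw [← he]
    · rw [dif_neg hjd, dif_neg hjd]

/-- two vectors of different classes -/
theorem inner_class {k i i' : ℕ} (hi : i < k) (hi' : i' < k) (hne : i ≠ i') {a b : Plane} {δ : ℝ}
    (h0 : 0 ≤ δ) (h1 : δ ≤ 1) (ha : nrm k i (a 0) (a 1) ^ 2 ≤ δ ^ 2 * (a 0 ^ 2 + a 1 ^ 2))
    (hb : nrm k i' (b 0) (b 1) ^ 2 ≤ δ ^ 2 * (b 0 ^ 2 + b 1 ^ 2)) :
    |inner ℝ a b| ≤ (cos (π / k) + 3 * δ) * (‖a‖ * ‖b‖) := by
  have hA : ‖a‖ ^ 2 = a 0 ^ 2 + a 1 ^ 2 := by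
    rw [EuclideanSpace.norm_sq_eq, Fin.sum_univ_two]; simp
  have hB : ‖b‖ ^ 2 = b 0 ^ 2 + b 1 ^ 2 := by
    rw [EuclideanSpace.norm_sq_eq, Fin.sum_univ_two]; simp
  set A := ‖a‖
  set B := ‖b‖
  have hA0 : 0 ≤ A := norm_nonneg _
  have hB0 : 0 ≤ B := norm_nonneg _
  set Na := nrm k i (a 0) (a 1) with hNa
  set Nb := nrm k i' (b 0) (b 1) with hNb
  set Ua := alg k i (a 0) (a 1) with hUa
  set Ub := alg k i' (b 0) (b 1) with hUb
  have t1 := Real.sin_sq_add_cos_sq (dirA k i)
  have t2 := Real.sin_sq_add_cos_sq (dirA k i')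
  have e1 : Ua ^ 2 + Na ^ 2 = A ^ 2 := by
    rw [hA, hUa, hNa]; unfold alg nrm; linear_combination (a 0 ^ 2 + a 1 ^ 2) * t1
  have e2 : Ub ^ 2 + Nb ^ 2 = B ^ 2 := by
    rw [hB, hUb, hNb]; unfold alg nrm; linear_combination (b 0 ^ 2 + b 1 ^ 2) * t2
  have n1 : |Na| ≤ δ * A := by
    apply abs_le_of_sq_le_sq _ (by positivity)
    rw [mul_pow, hA]; exact ha
  have n2 : |Nb| ≤ δ * B := by
    apply abs_le_of_sq_le_sq _ (by positivity)
    rw [mul_pow, hB]; exact hb
  have u1 : |Ua| ≤ A := by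
    apply abs_le_of_sq_le_sq _ hA0
    linarith [sq_nonneg Na]
  have u2 : |Ub| ≤ B := by
    apply abs_le_of_sq_le_sq _ hB0
    linarith [sq_nonneg Nb]
  have hin : inner ℝ a b = Ua * Ub * cos (dirA k i - dirA k i') +
      (Na * Nb * cos (dirA k i - dirA k i') + Ua * Nb * sin (dirA k i - dirA k i') -
        Na * Ub * sin (dirA k i - dirA k i')) := by
    have ha0 : a 0 = cos (dirA k i) * Ua - sin (dirA k i) * Na := by
      rw [hUa, hNa]; unfold alg nrm; linear_combination -(a 0) * t1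
    have ha1 : a 1 = sin (dirA k i) * Ua + cos (dirA k i) * Na := by
      rw [hUa, hNa]; unfold alg nrm; linear_combination -(a 1) * t1
    have hb0 : b 0 = cos (dirA k i') * Ub - sin (dirA k i') * Nb := by
      rw [hUb, hNb]; unfold alg nrm; linear_combination -(b 0) * t2
    have hb1 : b 1 = sin (dirA k i') * Ub + cos (dirA k i') * Nb := by
      rw [hUb, hNb]; unfold alg nrm; linear_combination -(b 1) * t2
    rw [inner_pt, ha0, ha1, hb0, hb1, Real.cos_sub, Real.sin_sub]
    ring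
  have hC := cos_dir_sub hi hi' hne
  have hC1 := Real.abs_cos_le_one (dirA k i - dirA k i')
  have hS1 := Real.abs_sin_le_one (dirA k i - dirA k i')
  have hC0 : 0 ≤ cos (π / k) := (abs_nonneg _).trans hC
  have m1 : |Ua * Ub * cos (dirA k i - dirA k i')| ≤ A * B * cos (π / k) := by
    rw [abs_mul, abs_mul]
    exact mul_le_mul (mul_le_mul u1 u2 (abs_nonneg _) hA0) hC (abs_nonneg _) (by positivity)
  have m2 : |Na * Nb * cos (dirA k i - dirA k i')| ≤ (δ * A) * (δ * B) * 1 := by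
    rw [abs_mul, abs_mul]
    exact mul_le_mul (mul_le_mul n1 n2 (abs_nonneg _) (by positivity)) hC1 (abs_nonneg _)
      (by positivity)
  have m3 : |Ua * Nb * sin (dirA k i - dirA k i')| ≤ A * (δ * B) * 1 := by
    rw [abs_mul, abs_mul]
    exact mul_le_mul (mul_le_mul u1 n2 (abs_nonneg _) hA0) hS1 (abs_nonneg _) (by positivity)
  have m4 : |Na * Ub * sin (dirA k i - dirA k i')| ≤ (δ * A) * B * 1 := by
    rw [abs_mul, abs_mul]
    exact mul_le_mul (mul_le_mul n1 u2 (abs_nonneg _) (by positivity)) hS1 (abs_nonneg _)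
      (by positivity)
  have hd2 : (δ * A) * (δ * B) ≤ δ * (A * B) := by
    have h2 : 0 ≤ A * B := mul_nonneg hA0 hB0
    have h3 : δ * δ ≤ δ := by nlinarith
    have h4 := mul_le_mul_of_nonneg_right h3 h2
    linarith
  rw [hin, abs_le]
  have m1' := abs_le.1 m1
  have m2' := abs_le.1 m2
  have m3' := abs_le.1 m3
  have m4' := abs_le.1 m4
  constructor <;> nlinarith

/-- every drawing of `Q_d`, `d ≥ 4`, has a crossing -/
theorem angles_nonempty {d : ℕ} (hd : 4 ≤ d) (D : Drawing (cube d)) : D.angles.Nonempty := by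
  classical
  by_contra hemp
  have hcard : Fintype.card (Fin d → Bool) = 2 ^ d := by simp
  have h16 : 2 ^ 4 ≤ 2 ^ d := Nat.pow_le_pow_right (by norm_num) hd
  have hb := noncross_bound D (by rw [hcard]; omega) par par_ne (cube d) le_rfl
    (fun u v u' v' _ _ hc => hemp ⟨_, u, v, u', v', hc, rfl⟩)
  have hE := card_edges_cube d
  rw [hcard] at hb
  have h3 : 4 * 2 ^ d ≤ d * 2 ^ d := Nat.mul_le_mul_right _ hd
  omega

theorem exists_drawing {k d : ℕ} (hk : 2 ≤ k) (hdk : d ≤ 3 * k + 1) {δ : ℝ} (h0 : 0 < δ)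
    (h1 : δ ≤ 1) : ∃ D : Drawing (cube d), ∀ θ ∈ D.angles, arccos (cos (π / k) + 3 * δ) ≤ θ := by
  obtain ⟨t, rfl⟩ : ∃ t, k = t + 2 := ⟨k - 2, by omega⟩
  obtain ⟨X, Y, E, h, hcov⟩ := exists_cd hk h0 t le_rfl
  have hdm : d ≤ 7 + 3 * t := by omega
  set φ := extF d (7 + 3 * t) with hφ
  have hinj : Function.Injective φ := extF_inj hdm
  have hadj : ∀ {u v}, (cube d).Adj u v → (cube (7 + 3 * t)).Adj (φ u) (φ v) := fun h =>
    extF_adj hdm h
  let D : Drawing (cube d) :=
    { pos := fun v => pt (X (φ v)) (Y (φ v))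
      inj := by
        intro u v huv
        rw [pt_eq_iff] at huv
        exact hinj (h.inj _ _ huv.1 huv.2)
      avoid := by
        intro u v w huv hw
        obtain ⟨τ, a, b, hx, hy⟩ := mem_segment_pt hw
        simp only [pt_zero, pt_one] at hx hy
        obtain ⟨i, hi, hE⟩ := hcov _ _ (hadj huv)
        rcases h.avoid i hi _ _ _ hE τ a b hx hy with e | e
        · exact Or.inl (hinj e)
        · exact Or.inr (hinj e) }
  refine ⟨D, ?_⟩
  rintro _ ⟨u, v, u', v', ⟨huv, huv', hne, P, hP, hP'⟩, rfl⟩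
  obtain ⟨i, hi, hE⟩ := hcov _ _ (hadj huv)
  obtain ⟨i', hi', hE'⟩ := hcov _ _ (hadj huv')
  have hpos : ∀ w w' : Fin d → Bool, (cube d).Adj w w' → D.pos w' - D.pos w ≠ 0 := by
    intro w w' hadj h
    exact hadj.ne (D.inj (sub_eq_zero.1 h)).symm
  have hii : i ≠ i' := by
    rintro rfl
    obtain ⟨τ, a0, a1, ax, ay⟩ := mem_openSegment_pt.1 hP
    obtain ⟨τ', b0, b1, bx', by'⟩ := mem_openSegment_pt.1 hP'
    refine h.nocross i hi _ _ _ _ hE hE' ?_ τ τ' a0 a1 b0 b1 (ax.symm.trans bx')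
      (ay.symm.trans by')
    rintro (⟨h3, h4⟩ | ⟨h3, h4⟩)
    · exact hne (by rw [hinj h3, hinj h4])
    · exact hne (by rw [hinj h3, hinj h4]; exact Sym2.eq_swap)
  refine arccos_le_min ?_ (hpos _ _ huv) (hpos _ _ huv')
  refine inner_class hi hi' hii h0.le h1 ?_ ?_
  · exact h.near i hi _ _ hE
  · exact h.near i' hi' _ _ hE'

/-- **The lower bound** -/
theorem pi_div_le_car {k d : ℕ} (hk : 2 ≤ k) (hd : 4 ≤ d) (hdk : d ≤ 3 * k + 1) :
    π / k ≤ car (cube d) := by
  have h1 : ∀ δ : ℝ, 0 < δ → δ ≤ 1 → arccos (cos (π / k) + 3 * δ) ≤ car (cube d) := by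
    intro δ h0 h1
    obtain ⟨D, hD⟩ := exists_drawing hk hdk h0 h1
    exact le_car D (angles_nonempty hd D) hD
  have hk' : (2 : ℝ) ≤ k := by exact_mod_cast hk
  have hpi := Real.pi_pos
  have h2 : Filter.Tendsto (fun δ : ℝ => arccos (cos (π / k) + 3 * δ)) (nhdsWithin 0 (Set.Ioi 0))
      (nhds (arccos (cos (π / k) + 3 * 0))) := by
    refine Filter.Tendsto.mono_left ?_ nhdsWithin_le_nhds
    exact (continuous_arccos.comp (by fun_prop : Continuous fun δ : ℝ => cos (π / k) + 3 * δ)).tendsto 0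
  rw [mul_zero, add_zero, arccos_cos (by positivity) (by
    rw [div_le_iff₀ (by linarith)]; nlinarith)] at h2
  refine le_of_tendsto h2 ?_
  filter_upwards [Ioc_mem_nhdsGT (show (0 : ℝ) < 1 by norm_num)] with δ hδ
  exact h1 δ hδ.1 hδ.2

end Pool.Agent.CarQ
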