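import Pool.Agent.CarQ.Defs

/-!
# A bipartite graph drawn with straight non crossing edges has at most `2n - 4` edges

`x, y` are the coordinates of the vertices, all abscissas are different. `line x y u v t` is the
height at the abscissa `t` of the line through `u` and `v`.
-/

namespace Pool.Agent.CarQ

variable {V : Type}

/-- the height at the abscissa `t` of the line through `u` and `v` -/
noncomputable def line (x y : V → ℝ) (u v : V) (t : ℝ) : ℝ :=
  y u + (y v - y u) * (t - x u) / (x v - x u)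

/-- A set of edges, given as pairs (left end, right end), drawn straight without crossings. -/
structure PDraw (V : Type) where
  x : V → ℝ
  y : V → ℝ
  E : Finset (V × V)
  inj : Function.Injective x
  lt : ∀ e ∈ E, x e.1 < x e.2
  nv : ∀ e ∈ E, ∀ w, x e.1 < x w → x w < x e.2 → y w ≠ line x y e.1 e.2 (x w)
  ncr : ∀ e ∈ E, ∀ f ∈ E, e ≠ f → ∀ t, x e.1 < t → t < x e.2 → x f.1 < t → t < x f.2 →
    line x y e.1 e.2 t ≠ line x y f.1 f.2 t
  tri : ∀ a b c, (a, b) ∈ E → (b, c) ∈ E → (a, c) ∉ E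

namespace PDraw

variable (D : PDraw V)

/-- height of the edge `e` at `t` -/
noncomputable def h (e : V × V) (t : ℝ) : ℝ := line D.x D.y e.1 e.2 t

/-- the open span of an edge -/
def O (e : V × V) (t : ℝ) : Prop := D.x e.1 < t ∧ t < D.x e.2

theorem h_left (e : V × V) : D.h e (D.x e.1) = D.y e.1 := by
  simp [h, line]

theorem h_right {e : V × V} (he : e ∈ D.E) : D.h e (D.x e.2) = D.y e.2 := by
  have h1 : D.x e.2 - D.x e.1 ≠ 0 := by
    have := D.lt e he
    linarith
  simp only [h, line]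
  field_simp
  ring

theorem h_cont (e : V × V) : Continuous (D.h e) := by
  unfold h line
  fun_prop

theorem ne_vert {e : V × V} (he : e ∈ D.E) {w : V} (hw : D.O e (D.x w)) :
    D.y w ≠ D.h e (D.x w) := D.nv e he w hw.1 hw.2

theorem ne_h {e f : V × V} (he : e ∈ D.E) (hf : f ∈ D.E) (hef : e ≠ f) {t : ℝ}
    (h1 : D.O e t) (h2 : D.O f t) : D.h e t ≠ D.h f t :=
  D.ncr e he f hf hef t h1.1 h1.2 h2.1 h2.2

/-- the order of two edges is constant on the common span -/
theorem ord {e f : V × V} (he : e ∈ D.E) (hf : f ∈ D.E) {s t : ℝ}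
    (se1 : D.x e.1 ≤ s) (se2 : s ≤ D.x e.2) (sf1 : D.x f.1 ≤ s) (sf2 : s ≤ D.x f.2)
    (hs : D.h e s < D.h f s) (te : D.O e t) (tf : D.O f t) : D.h e t < D.h f t := by
  have hef : e ≠ f := by
    rintro rfl
    exact lt_irrefl _ hs
  by_contra hcon
  have h1 : D.h f t < D.h e t :=
    lt_of_le_of_ne (not_lt.mp hcon) (fun h => D.ne_h he hf hef te tf h.symm)
  have hc : Continuous (fun r => D.h f r - D.h e r) := (D.h_cont f).sub (D.h_cont e)
  have hiv := intermediate_value_uIcc (a := t) (b := s) hc.continuousOn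
  have h0 : (0 : ℝ) ∈ Set.uIcc (D.h f t - D.h e t) (D.h f s - D.h e s) := by
    rw [Set.uIcc_of_le (by linarith)]
    constructor <;> linarith
  obtain ⟨r, hr, hr0⟩ := hiv h0
  have hr0' : D.h f r - D.h e r = 0 := hr0
  have hrs : r ≠ s := by
    rintro rfl
    linarith
  obtain ⟨te1, te2⟩ := te
  obtain ⟨tf1, tf2⟩ := tf
  rcases le_total t s with hts | hts
  · rw [Set.uIcc_of_le hts] at hr
    have hrs' : r < s := lt_of_le_of_ne hr.2 hrs
    exact D.ne_h he hf hef ⟨lt_of_lt_of_le te1 hr.1, lt_of_lt_of_le hrs' se2⟩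
      ⟨lt_of_lt_of_le tf1 hr.1, lt_of_lt_of_le hrs' sf2⟩ (by linarith)
  · rw [Set.uIcc_of_ge hts] at hr
    have hrs' : s < r := lt_of_le_of_ne hr.1 (Ne.symm hrs)
    exact D.ne_h he hf hef ⟨lt_of_le_of_lt se1 hrs', lt_of_le_of_lt hr.2 te2⟩
      ⟨lt_of_le_of_lt sf1 hrs', lt_of_le_of_lt hr.2 tf2⟩ (by linarith)

/-- weak form at a point of the closed spans -/
theorem ord' {e f : V × V} (he : e ∈ D.E) (hf : f ∈ D.E) {s t : ℝ}
    (se1 : D.x e.1 ≤ s) (se2 : s ≤ D.x e.2) (sf1 : D.x f.1 ≤ s) (sf2 : s ≤ D.x f.2)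
    (te : D.O e t) (tf : D.O f t) (ht : D.h e t < D.h f t) : D.h e s ≤ D.h f s := by
  by_contra hcon
  exact lt_asymm ht (D.ord hf he sf1 sf2 se1 se2 (not_le.mp hcon) tf te)

/-- `f` is the first edge above the point `(t, η)` -/
def FA (t η : ℝ) (f : V × V) : Prop :=
  f ∈ D.E ∧ D.O f t ∧ η < D.h f t ∧ ∀ g ∈ D.E, D.O g t → η < D.h g t → D.h f t ≤ D.h g t

/-- `e` is the first edge below the point `(t, η)` -/
def FB (t η : ℝ) (e : V × V) : Prop :=
  e ∈ D.E ∧ D.O e t ∧ D.h e t < η ∧ ∀ g ∈ D.E, D.O g t → D.h g t < η → D.h g t ≤ D.h e t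

theorem FA_unique {t η : ℝ} {f f' : V × V} (h1 : D.FA t η f) (h2 : D.FA t η f') : f = f' := by
  by_contra hne
  exact D.ne_h h1.1 h2.1 hne h1.2.1 h2.2.1
    (le_antisymm (h1.2.2.2 f' h2.1 h2.2.1 h2.2.2.1) (h2.2.2.2 f h1.1 h1.2.1 h1.2.2.1))

theorem FA_exists {t η : ℝ} {g : V × V} (hg : g ∈ D.E) (hgt : D.O g t) (h : η < D.h g t) :
    ∃ f, D.FA t η f := by
  classical
  obtain ⟨f, hf, hmin⟩ := (D.E.filter (fun g => D.O g t ∧ η < D.h g t)).exists_min_image
    (fun g => D.h g t) ⟨g, by simp [hg, hgt, h]⟩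
  rw [Finset.mem_filter] at hf
  exact ⟨f, hf.1, hf.2.1, hf.2.2, fun g hg h1 h2 => hmin g (by simp [hg, h1, h2])⟩

theorem FB_exists {t η : ℝ} {g : V × V} (hg : g ∈ D.E) (hgt : D.O g t) (h : D.h g t < η) :
    ∃ f, D.FB t η f := by
  classical
  obtain ⟨f, hf, hmin⟩ := (D.E.filter (fun g => D.O g t ∧ D.h g t < η)).exists_max_image
    (fun g => D.h g t) ⟨g, by simp [hg, hgt, h]⟩
  rw [Finset.mem_filter] at hf
  exact ⟨f, hf.1, hf.2.1, hf.2.2, fun g hg h1 h2 => hmin g (by simp [hg, h1, h2])⟩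

/-- a test point just to the right of a vertex -/
theorem exists_mid [Fintype V] (u : V) : ∃ m, D.x u < m ∧ ∀ v, D.x u < D.x v → m < D.x v := by
  classical
  by_cases hne : (Finset.univ.filter (fun v => D.x u < D.x v)).Nonempty
  · obtain ⟨v0, hv0, hmin⟩ := Finset.exists_min_image _ D.x hne
    rw [Finset.mem_filter] at hv0
    refine ⟨(D.x u + D.x v0) / 2, by linarith [hv0.2], fun v hv => ?_⟩
    have := hmin v (by simp [hv])
    linarith [hv0.2]
  · rw [Finset.not_nonempty_iff_eq_empty, Finset.filter_eq_empty_iff] at hne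
    exact ⟨D.x u + 1, by linarith, fun v hv => absurd hv (hne (Finset.mem_univ v))⟩

/-- the test point -/
noncomputable def mid [Fintype V] (u : V) : ℝ := (D.exists_mid u).choose

theorem lt_mid [Fintype V] (u : V) : D.x u < D.mid u := (D.exists_mid u).choose_spec.1

theorem mid_lt [Fintype V] {u v : V} (h : D.x u < D.x v) : D.mid u < D.x v :=
  (D.exists_mid u).choose_spec.2 v h

theorem le_of_lt_mid [Fintype V] {u v : V} (h : D.x v < D.mid u) : D.x v ≤ D.x u := by
  by_contra hcon
  exact lt_asymm h (D.mid_lt (not_le.mp hcon))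

theorem mid_ne [Fintype V] (u v : V) : D.x v ≠ D.mid u := by
  intro h
  rcases le_or_gt (D.x v) (D.x u) with h1 | h1
  · exact absurd (D.lt_mid u) (by linarith)
  · exact absurd (D.mid_lt h1) (by linarith)

variable [Fintype V]

theorem O_mid {e : V × V} (he : e ∈ D.E) : D.O e (D.mid e.1) :=
  ⟨D.lt_mid _, D.mid_lt (D.lt e he)⟩

/-- `f` is the first edge above `e` just to the right of the left end of `e` -/
def Cls (e f : V × V) : Prop := D.FA (D.mid e.1) (D.h e (D.mid e.1)) f

theorem above_mid {e g : V × V} (he : e ∈ D.E) (hg : g ∈ D.E) (hO : D.O g (D.x e.1))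
    (h : D.y e.1 < D.h g (D.x e.1)) :
    D.O g (D.mid e.1) ∧ D.h e (D.mid e.1) < D.h g (D.mid e.1) := by
  have h1 : D.O g (D.mid e.1) := ⟨hO.1.trans (D.lt_mid _), D.mid_lt hO.2⟩
  refine ⟨h1, D.ord he hg le_rfl (D.lt e he).le hO.1.le hO.2.le ?_ (D.O_mid he) h1⟩
  rwa [D.h_left]

theorem cls_left {e f : V × V} (he : e ∈ D.E) (hf : D.Cls e f) :
    f.1 = e.1 ∨ D.FA (D.x e.1) (D.y e.1) f := by
  obtain ⟨hfE, hfO, hfh, hfmin⟩ := hf
  by_cases hne : f.1 = e.1
  · exact Or.inl hne
  right
  have h1 : D.x f.1 < D.x e.1 :=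
    lt_of_le_of_ne (D.le_of_lt_mid hfO.1) (fun h => hne (D.inj h))
  have h2 : D.x e.1 < D.x f.2 := (D.lt_mid _).trans hfO.2
  have hO : D.O f (D.x e.1) := ⟨h1, h2⟩
  have h3 : D.h e (D.x e.1) ≤ D.h f (D.x e.1) :=
    D.ord' he hfE le_rfl (D.lt e he).le h1.le h2.le (D.O_mid he) hfO hfh
  rw [D.h_left] at h3
  refine ⟨hfE, hO, lt_of_le_of_ne h3 (D.ne_vert hfE hO), fun g hg hgO hgh => ?_⟩
  obtain ⟨h4, h5⟩ := D.above_mid he hg hgO hgh
  by_contra hcon
  have h6 : D.h g (D.mid e.1) < D.h f (D.mid e.1) :=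
    D.ord hg hfE hgO.1.le hgO.2.le h1.le h2.le (not_le.mp hcon) h4 hfO
  exact absurd (hfmin g hg h4 h5) (not_le.mpr h6)

theorem cls_inf {e : V × V} (he : e ∈ D.E) (hf : ∀ f, ¬ D.Cls e f) :
    ∀ f, ¬ D.FA (D.x e.1) (D.y e.1) f := by
  intro f h
  obtain ⟨h4, h5⟩ := D.above_mid he h.1 h.2.1 h.2.2.1
  obtain ⟨g, hg⟩ := D.FA_exists h.1 h4 h5
  exact hf g hg

theorem cls_inj {e e' : V × V} (he : e ∈ D.E) (he' : e' ∈ D.E) (h1 : e.1 = e'.1)
    (hcl : ∀ f, D.Cls e f ↔ D.Cls e' f) : e = e' := by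
  by_contra hne
  have key : ∀ a b : V × V, a ∈ D.E → b ∈ D.E → a.1 = b.1 → (∀ f, D.Cls a f ↔ D.Cls b f) →
      D.h a (D.mid a.1) < D.h b (D.mid a.1) → False := by
    intro a b ha hb hab hc hlt
    have hO : D.O b (D.mid a.1) := by
      rw [hab]
      exact D.O_mid hb
    obtain ⟨f, hf⟩ := D.FA_exists hb hO hlt
    have hf' : D.Cls b f := (hc f).mp hf
    have h2 : D.h b (D.mid b.1) < D.h f (D.mid b.1) := hf'.2.2.1
    rw [← hab] at h2
    exact absurd (hf.2.2.2 b hb hO hlt) (not_le.mpr h2)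
  have hO : D.O e' (D.mid e.1) := by
    rw [h1]
    exact D.O_mid he'
  rcases lt_or_gt_of_ne (D.ne_h he he' hne (D.O_mid he) hO) with h2 | h2
  · exact key e e' he he' h1 hcl h2
  · exact key e' e he' he h1.symm (fun f => (hcl f).symm) (by rw [← h1]; exact h2)

/-- The candidate argument: if no vertex sits directly above `e`, then between `e` and the next
edge `f` above it there is no vertex to the right of the test point, and `f` does not end. -/
theorem no_cand {e f : V × V} (he : e ∈ D.E) (hB : ∀ z, ¬ D.FB (D.x z) (D.y z) e)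
    (hf : D.Cls e f) (z : V) (hz1 : D.mid e.1 < D.x z) (hz2 : D.x z < D.x e.2)
    (hz3 : D.h e (D.x z) < D.y z) (hz4 : D.x z ≤ D.x f.2) (hz5 : D.y z ≤ D.h f (D.x z)) :
    False := by
  classical
  obtain ⟨hfE, hfO, hfh, hfmin⟩ := hf
  obtain ⟨z, hzm, hmin⟩ := (Finset.univ.filter (fun z => D.mid e.1 < D.x z ∧ D.x z < D.x e.2 ∧
    D.h e (D.x z) < D.y z ∧ D.x z ≤ D.x f.2 ∧ D.y z ≤ D.h f (D.x z))).exists_min_image D.x
    ⟨z, by simp [hz1, hz2, hz3, hz4, hz5]⟩
  rw [Finset.mem_filter] at hzm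
  obtain ⟨-, hz1, hz2, hz3, hz4, hz5⟩ := hzm
  have hOe : D.O e (D.x z) := ⟨(D.lt_mid _).trans hz1, hz2⟩
  apply hB z
  refine ⟨he, hOe, hz3, fun g hg hgO hgz => ?_⟩
  by_contra hcon
  have hcon' : D.h e (D.x z) < D.h g (D.x z) := not_le.mp hcon
  have hgf : D.h g (D.x z) < D.h f (D.x z) := lt_of_lt_of_le hgz hz5
  rcases lt_or_gt_of_ne (D.mid_ne e.1 g.1) with h1 | h1
  · -- `g` starts before the test point
    have hgm : D.O g (D.mid e.1) := ⟨h1, hz1.trans hgO.2⟩
    have h2 : D.h e (D.mid e.1) < D.h g (D.mid e.1) :=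
      D.ord he hg hOe.1.le hOe.2.le hgO.1.le hgO.2.le hcon' (D.O_mid he) hgm
    have h3 : D.h g (D.mid e.1) < D.h f (D.mid e.1) :=
      D.ord hg hfE hgO.1.le hgO.2.le (hfO.1.trans hz1).le hz4 hgf hgm hfO
    exact absurd (hfmin g hg hgm h2) (not_le.mpr h3)
  · -- `g` starts after the test point: its left end is a candidate
    have hOe' : D.O e (D.x g.1) := ⟨(D.lt_mid _).trans h1, hgO.1.trans hz2⟩
    have hOf' : D.O f (D.x g.1) := ⟨hfO.1.trans h1, lt_of_lt_of_le hgO.1 hz4⟩
    have h2 : D.h e (D.x g.1) ≤ D.h g (D.x g.1) :=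
      D.ord' he hg hOe'.1.le hOe'.2.le le_rfl (D.lt g hg).le hOe hgO hcon'
    rw [D.h_left] at h2
    have h3 : D.h e (D.x g.1) < D.y g.1 := lt_of_le_of_ne h2 (Ne.symm (D.ne_vert he hOe'))
    have h4 : D.h g (D.x g.1) ≤ D.h f (D.x g.1) := by
      by_contra hc
      -- compare at a point of the common open span
      have hgsp : D.O g ((D.x g.1 + D.x z) / 2) := by
        constructor
        · linarith [hgO.1]
        · linarith [hgO.1, hgO.2]
      have hfsp : D.O f ((D.x g.1 + D.x z) / 2) := by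
        constructor
        · linarith [hgO.1, hOf'.1]
        · linarith [hgO.1]
      have h5 := D.ord hfE hg hOf'.1.le hOf'.2.le le_rfl (D.lt g hg).le (not_le.mp hc) hfsp hgsp
      have h6 := D.ord hg hfE hgO.1.le hgO.2.le (hfO.1.trans hz1).le hz4 hgf hgsp hfsp
      exact lt_asymm h5 h6
    rw [D.h_left] at h4
    have := hmin g.1 (by
      simp only [Finset.mem_filter, Finset.mem_univ, true_and]
      exact ⟨h1, hgO.1.trans hz2, h3, hOf'.2.le, h4⟩)
    exact absurd hgO.1 (not_lt.mpr this)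

theorem cls_right {e f : V × V} (he : e ∈ D.E) (hB : ∀ z, ¬ D.FB (D.x z) (D.y z) e)
    (hf : D.Cls e f) : f.2 = e.2 ∨ D.FA (D.x e.2) (D.y e.2) f := by
  have hf0 := hf
  obtain ⟨hfE, hfO, hfh, hfmin⟩ := hf
  by_cases hne : f.2 = e.2
  · exact Or.inl hne
  right
  have hme : D.mid e.1 < D.x e.2 := D.mid_lt (D.lt e he)
  have hlt : D.x e.2 < D.x f.2 := by
    by_contra hcon
    have h1 : D.x f.2 < D.x e.2 := lt_of_le_of_ne (not_lt.mp hcon) (fun h => hne (D.inj h))
    have hO : D.O e (D.x f.2) := ⟨(D.lt_mid _).trans hfO.2, h1⟩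
    have h2 : D.h e (D.x f.2) ≤ D.h f (D.x f.2) :=
      D.ord' he hfE hO.1.le hO.2.le (D.lt f hfE).le le_rfl (D.O_mid he) hfO hfh
    rw [D.h_right hfE] at h2
    exact D.no_cand he hB hf0 f.2 hfO.2 h1 (lt_of_le_of_ne h2 (Ne.symm (D.ne_vert he hO))) le_rfl
      (by rw [D.h_right hfE])
  have hO : D.O f (D.x e.2) := ⟨hfO.1.trans hme, hlt⟩
  have h3 : D.h e (D.x e.2) ≤ D.h f (D.x e.2) :=
    D.ord' he hfE (D.lt e he).le le_rfl hO.1.le hO.2.le (D.O_mid he) hfO hfh
  rw [D.h_right he] at h3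
  refine ⟨hfE, hO, lt_of_le_of_ne h3 (D.ne_vert hfE hO), fun g hg hgO hgh => ?_⟩
  by_contra hcon
  have hgf : D.h g (D.x e.2) < D.h f (D.x e.2) := not_le.mp hcon
  have heg : D.h e (D.x e.2) < D.h g (D.x e.2) := by rwa [D.h_right he]
  rcases lt_or_gt_of_ne (D.mid_ne e.1 g.1) with h1 | h1
  · have hgm : D.O g (D.mid e.1) := ⟨h1, hme.trans hgO.2⟩
    have h2 : D.h e (D.mid e.1) < D.h g (D.mid e.1) :=
      D.ord he hg (D.lt e he).le le_rfl hgO.1.le hgO.2.le heg (D.O_mid he) hgm
    have h4 : D.h g (D.mid e.1) < D.h f (D.mid e.1) :=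
      D.ord hg hfE hgO.1.le hgO.2.le hO.1.le hO.2.le hgf hgm hfO
    exact absurd (hfmin g hg hgm h2) (not_le.mpr h4)
  · have hOe' : D.O e (D.x g.1) := ⟨(D.lt_mid _).trans h1, hgO.1⟩
    have hOf' : D.O f (D.x g.1) := ⟨hfO.1.trans h1, hgO.1.trans hlt⟩
    have hgsp : D.O g ((D.x g.1 + D.x e.2) / 2) := by
      constructor
      · linarith [hgO.1]
      · linarith [hgO.1, hgO.2]
    have hfsp : D.O f ((D.x g.1 + D.x e.2) / 2) := by
      constructor
      · linarith [hgO.1, hOf'.1]
      · linarith [hgO.1]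
    have hesp : D.O e ((D.x g.1 + D.x e.2) / 2) := by
      constructor
      · linarith [hgO.1, hOe'.1]
      · linarith [hgO.1]
    have h5 := D.ord he hg (D.lt e he).le le_rfl hgO.1.le hgO.2.le heg hesp hgsp
    have h6 := D.ord hg hfE hgO.1.le hgO.2.le hO.1.le hO.2.le hgf hgsp hfsp
    have h7 : D.h e (D.x g.1) ≤ D.h g (D.x g.1) :=
      D.ord' he hg hOe'.1.le hOe'.2.le le_rfl (D.lt g hg).le hesp hgsp h5
    have h8 : D.h g (D.x g.1) ≤ D.h f (D.x g.1) :=
      D.ord' hg hfE le_rfl (D.lt g hg).le hOf'.1.le hOf'.2.le hgsp hfsp h6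
    rw [D.h_left] at h7 h8
    exact D.no_cand he hB hf0 g.1 h1 hgO.1 (lt_of_le_of_ne h7 (Ne.symm (D.ne_vert he hOe')))
      hOf'.2.le h8

/-- counting, one side -/
theorem half [Nonempty V] (D : PDraw V) :
    ∀ [DecidablePred fun f => ∃ w, D.FA (D.x w) (D.y w) f]
      [DecidablePred fun e => ¬ ∃ z, D.FB (D.x z) (D.y z) e]
      [DecidablePred fun w => ¬ ∃ f, D.FA (D.x w) (D.y w) f],
    (D.E.filter (fun f => ∃ w, D.FA (D.x w) (D.y w) f)).card +
      (D.E.filter (fun e => ¬ ∃ z, D.FB (D.x z) (D.y z) e)).card +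
      (Finset.univ.filter (fun w => ¬ ∃ f, D.FA (D.x w) (D.y w) f)).card + 1
      ≤ 2 * Fintype.card V := by
  intro _ _ _
  classical
  set E' := D.E.filter (fun f => ∃ w, D.FA (D.x w) (D.y w) f) with hE'
  set b0 := D.E.filter (fun e => ¬ ∃ z, D.FB (D.x z) (D.y z) e) with hb0
  set U := Finset.univ.filter (fun w => ¬ ∃ f, D.FA (D.x w) (D.y w) f) with hU
  set A : V × V → Finset V := fun f => Finset.univ.filter (fun w => D.FA (D.x w) (D.y w) f)
    with hA
  set Z : V × V → Finset (V × V) := fun f => b0.filter (fun e => D.Cls e f) with hZ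
  set Zi := b0.filter (fun e => ∀ f, ¬ D.Cls e f) with hZi
  have memb : ∀ e, e ∈ b0 ↔ e ∈ D.E ∧ ∀ z, ¬ D.FB (D.x z) (D.y z) e := by
    intro e
    rw [hb0, Finset.mem_filter, not_exists]
  have memE' : ∀ f, f ∈ E' ↔ f ∈ D.E ∧ ∃ w, D.FA (D.x w) (D.y w) f := by
    intro f
    rw [hE', Finset.mem_filter]
  have memZ : ∀ e f, e ∈ Z f ↔ e ∈ b0 ∧ D.Cls e f := by
    intro e f
    rw [hZ, Finset.mem_filter]
  have memA : ∀ w f, w ∈ A f ↔ D.FA (D.x w) (D.y w) f := by
    intro w f
    simp [hA]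
  -- the ends of an edge of `Z f`
  have ends : ∀ e f, e ∈ Z f → (e.1 = f.1 ∨ e.1 ∈ A f) ∧ (e.2 = f.2 ∨ e.2 ∈ A f) ∧ e ≠ f := by
    intro e f he
    rw [memZ, memb] at he
    obtain ⟨⟨heE, hB⟩, hcl⟩ := he
    refine ⟨?_, ?_, ?_⟩
    · rcases D.cls_left heE hcl with h | h
      · exact Or.inl h.symm
      · exact Or.inr ((memA _ _).mpr h)
    · rcases D.cls_right heE hB hcl with h | h
      · exact Or.inl h.symm
      · exact Or.inr ((memA _ _).mpr h)
    · rintro rfl
      exact lt_irrefl _ hcl.2.2.1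
  have inj1 : ∀ f, Set.InjOn (Prod.fst : V × V → V) (Z f : Set (V × V)) := by
    intro f a ha b hb hab
    rw [Finset.mem_coe, memZ, memb] at ha hb
    refine D.cls_inj ha.1.1 hb.1.1 hab (fun g => ⟨fun hg => ?_, fun hg => ?_⟩)
    · rw [D.FA_unique hg ha.2]
      exact hb.2
    · rw [D.FA_unique hg hb.2]
      exact ha.2
  -- (1)
  have h1 : b0 ⊆ E'.biUnion Z ∪ Zi := by
    intro e he
    rw [Finset.mem_union]
    by_cases hcl : ∃ f, D.Cls e f
    · left
      obtain ⟨f, hf⟩ := hcl
      have heZ : e ∈ Z f := (memZ _ _).mpr ⟨he, hf⟩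
      obtain ⟨a1, a2, a3⟩ := ends e f heZ
      rw [Finset.mem_biUnion]
      refine ⟨f, (memE' _).mpr ⟨hf.1, ?_⟩, heZ⟩
      rcases a1 with a1 | a1
      · rcases a2 with a2 | a2
        · exact absurd (Prod.ext a1 a2) a3
        · exact ⟨_, (memA _ _).mp a2⟩
      · exact ⟨_, (memA _ _).mp a1⟩
    · right
      rw [hZi, Finset.mem_filter]
      exact ⟨he, not_exists.mp hcl⟩
  -- (2)
  have h2 : ∀ f ∈ E', 1 + (Z f).card ≤ 2 * (A f).card := by
    intro f hf
    obtain ⟨hfE, w, hw⟩ := (memE' f).mp hf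
    have hpos : 0 < (A f).card := Finset.card_pos.mpr ⟨w, (memA _ _).mpr hw⟩
    rcases Nat.lt_or_ge 1 (A f).card with h3 | h3
    · have h4 : (Z f).card ≤ (insert f.1 (A f)).card := by
        refine Finset.card_le_card_of_injOn Prod.fst ?_ (inj1 f)
        intro e he
        rw [Finset.mem_coe] at he ⊢
        rw [Finset.mem_insert]
        exact (ends e f he).1
      have h5 := Finset.card_insert_le f.1 (A f)
      omega
    · have h4 : (A f).card = 1 := le_antisymm h3 hpos
      obtain ⟨z, hz⟩ := Finset.card_eq_one.mp h4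
      have h5 : ∀ e ∈ Z f, e = (f.1, z) ∨ e = (z, f.2) := by
        intro e he
        obtain ⟨a1, a2, a3⟩ := ends e f he
        rw [hz, Finset.mem_singleton] at a1 a2
        rcases a1 with a1 | a1
        · rcases a2 with a2 | a2
          · exact absurd (Prod.ext a1 a2) a3
          · exact Or.inl (Prod.ext a1 a2)
        · rcases a2 with a2 | a2
          · exact Or.inr (Prod.ext a1 a2)
          · have := D.lt e ((memb e).mp ((memZ _ _).mp he).1).1
            rw [a1, a2] at this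
            exact absurd this (lt_irrefl _)
      have h6 : ∀ e ∈ Z f, e ∈ D.E := fun e he => ((memb e).mp ((memZ _ _).mp he).1).1
      have h7 : (Z f).card ≤ 1 := by
        rw [Finset.card_le_one]
        intro a ha b hb
        rcases h5 a ha with ha' | ha' <;> rcases h5 b hb with hb' | hb'
        · rw [ha', hb']
        · exfalso
          have i1 := h6 a ha
          have i2 := h6 b hb
          rw [ha'] at i1
          rw [hb'] at i2
          exact D.tri _ _ _ i1 i2 hfE
        · exfalso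
          have i1 := h6 a ha
          have i2 := h6 b hb
          rw [ha'] at i1
          rw [hb'] at i2
          exact D.tri _ _ _ i2 i1 hfE
        · rw [ha', hb']
      omega
  -- (3)
  obtain ⟨R, -, hR⟩ := Finset.exists_max_image Finset.univ D.x (Finset.univ_nonempty (α := V))
  have hRU : R ∈ U := by
    rw [hU, Finset.mem_filter]
    refine ⟨Finset.mem_univ _, ?_⟩
    rintro ⟨f, hf⟩
    exact absurd hf.2.1.2 (not_lt.mpr (hR f.2 (Finset.mem_univ _)))
  have h3 : Zi.card + 1 ≤ U.card := by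
    have h4 : Zi.card ≤ (U.erase R).card := by
      refine Finset.card_le_card_of_injOn Prod.fst ?_ ?_
      · intro e he
        rw [Finset.mem_coe, hZi, Finset.mem_filter, memb] at he
        rw [Finset.mem_coe, Finset.mem_erase, hU, Finset.mem_filter]
        refine ⟨?_, Finset.mem_univ _, ?_⟩
        · intro h
          have h5 := D.lt e he.1.1
          rw [h] at h5
          exact absurd h5 (not_lt.mpr (hR e.2 (Finset.mem_univ _)))
        · rintro ⟨f, hf⟩
          exact D.cls_inf he.1.1 he.2 f hf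
      · intro a ha b hb hab
        rw [Finset.mem_coe, hZi, Finset.mem_filter, memb] at ha hb
        exact D.cls_inj ha.1.1 hb.1.1 hab
          (fun g => ⟨fun hg => absurd hg (ha.2 g), fun hg => absurd hg (hb.2 g)⟩)
    have h5 := Finset.card_erase_add_one hRU
    omega
  -- (4)
  have h4 : ∑ f ∈ E', (A f).card + U.card ≤ Fintype.card V := by
    rw [← Finset.card_biUnion, ← Finset.card_union_of_disjoint]
    · exact Finset.card_le_univ _
    · rw [Finset.disjoint_left]
      intro w hw hwU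
      rw [Finset.mem_biUnion] at hw
      obtain ⟨f, -, hf⟩ := hw
      rw [hU, Finset.mem_filter] at hwU
      exact hwU.2 ⟨f, (memA _ _).mp hf⟩
    · intro f hf g hg hfg
      rw [Function.onFun, Finset.disjoint_left]
      intro w hw hw'
      exact hfg (D.FA_unique ((memA _ _).mp hw) ((memA _ _).mp hw'))
  have h5 : b0.card ≤ ∑ f ∈ E', (Z f).card + Zi.card :=
    (Finset.card_le_card h1).trans ((Finset.card_union_le _ _).trans
      (Nat.add_le_add_right Finset.card_biUnion_le _))
  have h6 : E'.card + ∑ f ∈ E', (Z f).card ≤ 2 * ∑ f ∈ E', (A f).card := by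
    have : E'.card = ∑ f ∈ E', 1 := by simp
    rw [this, ← Finset.sum_add_distrib, Finset.mul_sum]
    exact Finset.sum_le_sum h2
  omega

omit [Fintype V] in
/-- the drawing upside down -/
noncomputable def neg (D : PDraw V) : PDraw V where
  x := D.x
  y := fun v => - D.y v
  E := D.E
  inj := D.inj
  lt := D.lt
  nv := by
    intro e he w h1 h2 h
    apply D.nv e he w h1 h2
    have : line D.x (fun v => - D.y v) e.1 e.2 (D.x w) = - line D.x D.y e.1 e.2 (D.x w) := by
      simp only [line]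
      ring
    rw [this] at h
    linarith
  ncr := by
    intro e he f hf hef t h1 h2 h3 h4 h
    apply D.ncr e he f hf hef t h1 h2 h3 h4
    have : ∀ e : V × V, line D.x (fun v => - D.y v) e.1 e.2 t = - line D.x D.y e.1 e.2 t := by
      intro e
      simp only [line]
      ring
    rw [this, this] at h
    linarith
  tri := D.tri

omit [Fintype V] in
theorem neg_h (D : PDraw V) (e : V × V) (t : ℝ) : D.neg.h e t = - D.h e t := by
  simp only [h, line, neg]
  ring

omit [Fintype V] in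
theorem neg_FA (D : PDraw V) (t η : ℝ) (f : V × V) : D.neg.FA t (-η) f ↔ D.FB t η f := by
  unfold FA FB
  simp only [neg_h, neg_lt_neg_iff, neg_le_neg_iff]
  rfl

omit [Fintype V] in
theorem neg_FB (D : PDraw V) (t η : ℝ) (f : V × V) : D.neg.FB t (-η) f ↔ D.FA t η f := by
  unfold FA FB
  simp only [neg_h, neg_lt_neg_iff, neg_le_neg_iff]
  rfl

omit [Fintype V] in
theorem not_above {p q M : ℝ} {e : V × V} {t : ℝ} (ht : D.O e t)
    (h1 : D.y e.1 - (p + q * D.x e.1) ≤ M) (h2 : D.y e.2 - (p + q * D.x e.2) ≤ M) :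
    D.h e t - (p + q * t) ≤ M := by
  obtain ⟨t1, t2⟩ := ht
  have hd : 0 < D.x e.2 - D.x e.1 := by linarith
  set θ := (t - D.x e.1) / (D.x e.2 - D.x e.1) with hθ
  have e1 : D.h e t = D.y e.1 + (D.y e.2 - D.y e.1) * θ := by
    simp only [h, line, hθ]
    ring
  have e2 : t = D.x e.1 + (D.x e.2 - D.x e.1) * θ := by
    rw [hθ]
    field_simp
    ring
  have h0 : 0 ≤ θ := div_nonneg (by linarith) hd.le
  have h3 : θ ≤ 1 := by
    rw [hθ, div_le_one hd]
    linarith
  have e3 : D.h e t - (p + q * t) = (1 - θ) * (D.y e.1 - (p + q * D.x e.1)) +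
      θ * (D.y e.2 - (p + q * D.x e.2)) := by
    rw [e1]
    linear_combination (-q) * e2
  rw [e3]
  nlinarith [mul_le_mul_of_nonneg_left h1 (sub_nonneg.mpr h3), mul_le_mul_of_nonneg_left h2 h0]

omit [Fintype V] in
/-- a vertex of maximal height with respect to an affine function has no edge above it -/
theorem max_not_FA {p q : ℝ} {w : V}
    (hw : ∀ v, D.y v - (p + q * D.x v) ≤ D.y w - (p + q * D.x w)) (f : V × V) :
    ¬ D.FA (D.x w) (D.y w) f := by
  intro hf
  have := D.not_above (p := p) (q := q) hf.2.1 (hw f.1) (hw f.2)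
  linarith [hf.2.2.1]

/-- at least five tokens are not spent -/
theorem five (hn : 3 ≤ Fintype.card V) (D : PDraw V) :
    ∀ [DecidablePred fun w => ¬ ∃ f, D.FA (D.x w) (D.y w) f]
      [DecidablePred fun w => ¬ ∃ f, D.FB (D.x w) (D.y w) f],
    5 ≤ (Finset.univ.filter (fun w => ¬ ∃ f, D.FA (D.x w) (D.y w) f)).card +
      (Finset.univ.filter (fun w => ¬ ∃ f, D.FB (D.x w) (D.y w) f)).card := by
  intro _ _
  classical
  have hne : Nonempty V := Fintype.card_pos_iff.mp (by omega)
  obtain ⟨L, -, hL⟩ := Finset.exists_min_image Finset.univ D.x (Finset.univ_nonempty (α := V))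
  obtain ⟨R, -, hR⟩ := Finset.exists_max_image Finset.univ D.x (Finset.univ_nonempty (α := V))
  set UA := Finset.univ.filter (fun w => ¬ ∃ f, D.FA (D.x w) (D.y w) f) with hUA
  set UB := Finset.univ.filter (fun w => ¬ ∃ f, D.FB (D.x w) (D.y w) f) with hUB
  have hLR : L ≠ R := by
    intro h
    have h1 : ∀ v w : V, v = w := by
      intro v w
      apply D.inj
      have a1 := hL v (Finset.mem_univ _)
      have a2 := hR v (Finset.mem_univ _)
      have a3 := hL w (Finset.mem_univ _)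
      have a4 := hR w (Finset.mem_univ _)
      rw [← h] at a2 a4
      linarith
    have h2 : Fintype.card V ≤ 1 := Fintype.card_le_one_iff.mpr h1
    omega
  have hxLR : D.x L < D.x R :=
    lt_of_le_of_ne (hL R (Finset.mem_univ _)) (fun h => hLR (D.inj h))
  have LA : L ∈ UA := by
    rw [hUA, Finset.mem_filter]
    refine ⟨Finset.mem_univ _, ?_⟩
    rintro ⟨f, hf⟩
    exact absurd hf.2.1.1 (not_lt.mpr (hL f.1 (Finset.mem_univ _)))
  have LB : L ∈ UB := by
    rw [hUB, Finset.mem_filter]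
    refine ⟨Finset.mem_univ _, ?_⟩
    rintro ⟨f, hf⟩
    exact absurd hf.2.1.1 (not_lt.mpr (hL f.1 (Finset.mem_univ _)))
  have RA : R ∈ UA := by
    rw [hUA, Finset.mem_filter]
    refine ⟨Finset.mem_univ _, ?_⟩
    rintro ⟨f, hf⟩
    exact absurd hf.2.1.2 (not_lt.mpr (hR f.2 (Finset.mem_univ _)))
  have RB : R ∈ UB := by
    rw [hUB, Finset.mem_filter]
    refine ⟨Finset.mem_univ _, ?_⟩
    rintro ⟨f, hf⟩
    exact absurd hf.2.1.2 (not_lt.mpr (hR f.2 (Finset.mem_univ _)))
  -- the affine function of the line `LR`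
  set q := (D.y R - D.y L) / (D.x R - D.x L) with hq
  set p := D.y L - q * D.x L with hp
  have gL : D.y L - (p + q * D.x L) = 0 := by
    rw [hp]
    ring
  have gR : D.y R - (p + q * D.x R) = 0 := by
    have : D.x R - D.x L ≠ 0 := by linarith
    rw [hp, hq]
    field_simp
    ring
  set W := (Finset.univ : Finset V).filter (fun v => v ≠ L ∧ v ≠ R) with hW
  have hWne : W.Nonempty := by
    by_contra hcon
    rw [Finset.not_nonempty_iff_eq_empty, hW, Finset.filter_eq_empty_iff] at hcon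
    have h1 : (Finset.univ : Finset V) ⊆ {L, R} := by
      intro v hv
      have := hcon hv
      rw [Finset.mem_insert, Finset.mem_singleton]
      by_contra h
      push Not at h
      exact this h
    have h2 := Finset.card_le_card h1
    have h3 : ({L, R} : Finset V).card ≤ 2 := Finset.card_le_two
    rw [Finset.card_univ] at h2
    omega
  have memW : ∀ v, v ∈ W ↔ v ≠ L ∧ v ≠ R := by
    intro v
    simp [hW]
  have cardA : 2 ≤ UA.card := by
    have : ({L, R} : Finset V) ⊆ UA := by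
      intro v hv
      rw [Finset.mem_insert, Finset.mem_singleton] at hv
      rcases hv with rfl | rfl
      · exact LA
      · exact RA
    have h2 := Finset.card_le_card this
    rwa [Finset.card_pair hLR] at h2
  have cardB : 2 ≤ UB.card := by
    have : ({L, R} : Finset V) ⊆ UB := by
      intro v hv
      rw [Finset.mem_insert, Finset.mem_singleton] at hv
      rcases hv with rfl | rfl
      · exact LB
      · exact RB
    have h2 := Finset.card_le_card this
    rwa [Finset.card_pair hLR] at h2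
  have three : ∀ (S : Finset V) (z : V), L ∈ S → R ∈ S → z ∈ S → z ∈ W → 3 ≤ S.card := by
    intro S z h1 h2 h3 h4
    rw [memW] at h4
    have h5 : ({z, L, R} : Finset V) ⊆ S := by
      intro v hv
      rw [Finset.mem_insert, Finset.mem_insert, Finset.mem_singleton] at hv
      rcases hv with rfl | rfl | rfl
      · exact h3
      · exact h1
      · exact h2
    have h6 := Finset.card_le_card h5
    have h7 : ({z, L, R} : Finset V).card = 3 := Finset.card_eq_three.mpr
      ⟨z, L, R, h4.1, h4.2, hLR, rfl⟩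
    omega
  obtain ⟨z, hzW, hz⟩ := W.exists_max_image (fun v => D.y v - (p + q * D.x v)) hWne
  by_cases hz0 : 0 ≤ D.y z - (p + q * D.x z)
  · have hmax : ∀ v, D.y v - (p + q * D.x v) ≤ D.y z - (p + q * D.x z) := by
      intro v
      by_cases h1 : v = L
      · rw [h1, gL]
        exact hz0
      by_cases h2 : v = R
      · rw [h2, gR]
        exact hz0
      exact hz v ((memW v).mpr ⟨h1, h2⟩)
    have hzA : z ∈ UA := by
      rw [hUA, Finset.mem_filter]
      refine ⟨Finset.mem_univ _, ?_⟩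
      rintro ⟨f, hf⟩
      exact D.max_not_FA hmax f hf
    have := three UA z LA RA hzA hzW
    omega
  · obtain ⟨z', hz'W, hz'⟩ := W.exists_min_image (fun v => D.y v - (p + q * D.x v)) hWne
    have hz'0 : D.y z' - (p + q * D.x z') < 0 := lt_of_le_of_lt (hz' z hzW) (not_le.mp hz0)
    have hmin : ∀ v, D.y z' - (p + q * D.x z') ≤ D.y v - (p + q * D.x v) := by
      intro v
      by_cases h1 : v = L
      · rw [h1, gL]
        exact hz'0.le
      by_cases h2 : v = R
      · rw [h2, gR]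
        exact hz'0.le
      exact hz' v ((memW v).mpr ⟨h1, h2⟩)
    have hzB : z' ∈ UB := by
      rw [hUB, Finset.mem_filter]
      refine ⟨Finset.mem_univ _, ?_⟩
      rintro ⟨f, hf⟩
      rw [← D.neg_FA] at hf
      refine D.neg.max_not_FA (p := -p) (q := -q) (w := z') ?_ f hf
      intro v
      have := hmin v
      change - D.y v - (-p + -q * D.x v) ≤ - D.y z' - (-p + -q * D.x z')
      linarith
    have := three UB z' LB RB hzB hz'W
    omega

/-- the bound for the number of edges -/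
theorem card_E (hn : 3 ≤ Fintype.card V) (D : PDraw V) : D.E.card + 4 ≤ 2 * Fintype.card V := by
  classical
  have hne : Nonempty V := Fintype.card_pos_iff.mp (by omega)
  have h1 := half D
  have h2 := half D.neg
  have h5 := five hn D
  have e1 : (D.neg.E.filter (fun f => ∃ w, D.neg.FA (D.neg.x w) (D.neg.y w) f)) =
      D.E.filter (fun f => ∃ w, D.FB (D.x w) (D.y w) f) := by
    apply Finset.filter_congr
    intro f _
    exact exists_congr fun w => D.neg_FA _ _ _
  have e2 : (D.neg.E.filter (fun e => ¬ ∃ z, D.neg.FB (D.neg.x z) (D.neg.y z) e)) =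
      D.E.filter (fun f => ¬ ∃ w, D.FA (D.x w) (D.y w) f) := by
    apply Finset.filter_congr
    intro f _
    exact not_congr (exists_congr fun w => D.neg_FB _ _ _)
  have e3 : (Finset.univ.filter (fun w => ¬ ∃ f, D.neg.FA (D.neg.x w) (D.neg.y w) f)) =
      Finset.univ.filter (fun w => ¬ ∃ f, D.FB (D.x w) (D.y w) f) := by
    apply Finset.filter_congr
    intro w _
    exact not_congr (exists_congr fun f => D.neg_FA _ _ _)
  rw [e1, e2, e3] at h2
  have s1 := Finset.card_filter_add_card_filter_not (s := D.E)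
    (fun f => ∃ w, D.FA (D.x w) (D.y w) f)
  have s2 := Finset.card_filter_add_card_filter_not (s := D.E)
    (fun f => ∃ w, D.FB (D.x w) (D.y w) f)
  omega

end PDraw

theorem planar_bound [Fintype V] [DecidableEq V] (G : SimpleGraph V) [DecidableRel G.Adj]
    (hn : 3 ≤ Fintype.card V) (x y : V → ℝ) (hx : Function.Injective x)
    (c : V → Bool) (hc : ∀ u v, G.Adj u v → c u ≠ c v)
    (hv : ∀ u v w, G.Adj u v → x u < x w → x w < x v → y w ≠ line x y u v (x w))
    (hcr : ∀ u v u' v', G.Adj u v → G.Adj u' v' → s(u, v) ≠ s(u', v') →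
      ∀ t, x u < t → t < x v → x u' < t → t < x v' → line x y u v t ≠ line x y u' v' t) :
    G.edgeFinset.card + 4 ≤ 2 * Fintype.card V := by
  let D : PDraw V :=
    { x := x
      y := y
      E := Finset.univ.filter (fun p : V × V => G.Adj p.1 p.2 ∧ x p.1 < x p.2)
      inj := hx
      lt := by
        intro e he
        rw [Finset.mem_filter] at he
        exact he.2.2
      nv := by
        intro e he w h1 h2
        rw [Finset.mem_filter] at he
        exact hv e.1 e.2 w he.2.1 h1 h2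
      ncr := by
        intro e he f hf hef t h1 h2 h3 h4
        rw [Finset.mem_filter] at he hf
        refine hcr e.1 e.2 f.1 f.2 he.2.1 hf.2.1 ?_ t h1 h2 h3 h4
        intro h
        rw [Sym2.eq_iff] at h
        rcases h with h | h
        · exact hef (Prod.ext h.1 h.2)
        · have a1 := he.2.2
          have a2 := hf.2.2
          rw [h.1, h.2] at a1
          exact lt_asymm a1 a2
      tri := by
        intro a b d h1 h2 h3
        rw [Finset.mem_filter] at h1 h2 h3
        have c1 := hc _ _ h1.2.1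
        have c2 := hc _ _ h2.2.1
        have c3 := hc _ _ h3.2.1
        simp only at c1 c2 c3
        revert c1 c2 c3
        cases c a <;> cases c b <;> cases c d <;> simp }
  have h1 := PDraw.card_E hn D
  have h2 : G.edgeFinset.card ≤ D.E.card := by
    have h3 : G.edgeFinset ⊆ D.E.image (fun p => s(p.1, p.2)) := by
      intro e he
      induction e using Sym2.ind with
      | _ u v =>
        rw [SimpleGraph.mem_edgeFinset, SimpleGraph.mem_edgeSet] at he
        rw [Finset.mem_image]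
        rcases lt_or_gt_of_ne (fun h : x u = x v => he.ne (hx h)) with h | h
        · exact ⟨(u, v), Finset.mem_filter.mpr ⟨Finset.mem_univ _, he, h⟩, rfl⟩
        · exact ⟨(v, u), Finset.mem_filter.mpr ⟨Finset.mem_univ _, he.symm, h⟩, Sym2.eq_swap⟩
    exact (Finset.card_le_card h3).trans Finset.card_image_le
  omega

end Pool.Agent.CarQ
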