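import Pool.Agent.CarQ.Defs

/-!
# Coordinates which are sums of powers of a large number

`co g M k = M ^ g 0 + ... + M ^ g (k - 1)`. The difference `co g M b - co g M a` is comparable with
`M ^ mx g a (b - a)`, where `mx` is the largest exponent between `a` and `b`.
-/

namespace Pool.Agent.CarQ

/-- the maximum of `g a, ..., g (a + n - 1)` -/
def mx (g : ℕ → ℕ) (a : ℕ) : ℕ → ℕ
  | 0 => 0
  | n + 1 => max (mx g a n) (g (a + n))

/-- the sum of the first powers -/
noncomputable def co (g : ℕ → ℕ) (M : ℝ) : ℕ → ℝ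
  | 0 => 0
  | n + 1 => co g M n + M ^ g n

theorem co_sub_le (g : ℕ → ℕ) {M : ℝ} (hM : 1 ≤ M) (a n : ℕ) :
    co g M (a + n) - co g M a ≤ n * M ^ mx g a n := by
  induction n with
  | zero => simp
  | succ n ih =>
    have h1 : M ^ mx g a n ≤ M ^ mx g a (n + 1) := pow_le_pow_right₀ hM (le_max_left _ _)
    have h2 : M ^ g (a + n) ≤ M ^ mx g a (n + 1) := pow_le_pow_right₀ hM (le_max_right _ _)
    have h3 : (n : ℝ) * M ^ mx g a n ≤ n * M ^ mx g a (n + 1) :=
      mul_le_mul_of_nonneg_left h1 (Nat.cast_nonneg n)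
    have h4 : co g M (a + (n + 1)) = co g M (a + n) + M ^ g (a + n) := rfl
    rw [h4]
    push_cast
    linarith

theorem le_co_sub (g : ℕ → ℕ) {M : ℝ} (hM : 1 ≤ M) (a n : ℕ) :
    M ^ mx g a (n + 1) ≤ co g M (a + (n + 1)) - co g M a := by
  induction n with
  | zero =>
    have h4 : co g M (a + (0 + 1)) = co g M (a + 0) + M ^ g (a + 0) := rfl
    have h5 : mx g a (0 + 1) = max 0 (g (a + 0)) := rfl
    rw [h4, h5]
    simp
  | succ n ih =>
    have h4 : co g M (a + (n + 1 + 1)) = co g M (a + (n + 1)) + M ^ g (a + (n + 1)) := rfl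
    have h5 : mx g a (n + 1 + 1) = max (mx g a (n + 1)) (g (a + (n + 1))) := rfl
    have h6 : 0 ≤ M ^ g (a + (n + 1)) := by positivity
    have h7 : 0 ≤ M ^ mx g a (n + 1) := by positivity
    rw [h4, h5]
    rcases le_total (mx g a (n + 1)) (g (a + (n + 1))) with h | h
    · rw [max_eq_right h]
      linarith
    · rw [max_eq_left h]
      linarith

/-- the largest exponent between the positions of `u` and `w` -/
def ex {B : Type} (p : B → ℕ) (g : ℕ → ℕ) (u w : B) : ℕ :=
  mx g (min (p u) (p w)) (max (p u) (p w) - min (p u) (p w))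

theorem ex_comm {B : Type} (p : B → ℕ) (g : ℕ → ℕ) (u w : B) : ex p g u w = ex p g w u := by
  unfold ex
  rw [min_comm, max_comm]

theorem bounds {B : Type} (p : B → ℕ) (g : ℕ → ℕ) (hp : ∀ u, p u ≤ 31) {M : ℝ} (hM : 1 ≤ M)
    (u w : B) (h : p u < p w) : M ^ ex p g u w ≤ co g M (p w) - co g M (p u) ∧
      co g M (p w) - co g M (p u) ≤ 31 * M ^ ex p g u w := by
  obtain ⟨n, hn⟩ : ∃ n, p w = p u + (n + 1) := ⟨p w - p u - 1, by omega⟩
  have h1 : ex p g u w = mx g (p u) (n + 1) := by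
    unfold ex
    rw [min_eq_left h.le, max_eq_right h.le, hn, Nat.add_sub_cancel_left]
  rw [h1, hn]
  refine ⟨le_co_sub g hM _ _, (co_sub_le g hM _ _).trans ?_⟩
  have h2 : ((n + 1 : ℕ) : ℝ) ≤ 31 := by
    have := hp w
    exact_mod_cast (by omega : n + 1 ≤ 31)
  exact mul_le_mul_of_nonneg_right h2 (by positivity)

theorem dom {M : ℝ} (hM : 961 < M) {a b c d : ℕ} (h : c + d < a + b) {A B C D : ℝ}
    (hA : M ^ a ≤ A) (hB : M ^ b ≤ B) (hC0 : 0 ≤ C) (hC : C ≤ 31 * M ^ c)
    (hD0 : 0 ≤ D) (hD : D ≤ 31 * M ^ d) : C * D < A * B := by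
  have hM1 : (1 : ℝ) ≤ M := by linarith
  have h1 : C * D ≤ (31 * M ^ c) * (31 * M ^ d) := mul_le_mul hC hD hD0 (by positivity)
  have h2 : M ^ a * M ^ b ≤ A * B := mul_le_mul hA hB (by positivity) ((by positivity :
    (0 : ℝ) ≤ M ^ a).trans hA)
  have h3 : M ^ (c + d + 1) ≤ M ^ (a + b) := pow_le_pow_right₀ hM1 h
  have h4 : (31 * M ^ c) * (31 * M ^ d) = 961 * M ^ (c + d) := by ring
  have h5 : M ^ (c + d + 1) = M * M ^ (c + d) := by ring
  have h6 : 961 * M ^ (c + d) < M * M ^ (c + d) := mul_lt_mul_of_pos_right hM (by positivity)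
  have h7 : M ^ a * M ^ b = M ^ (a + b) := by ring
  linarith

/-- the combinatorial condition: `b` is to the right of the edge `uw` at its height -/
def cond {B : Type} (p q : B → ℕ) (f g : ℕ → ℕ) (u w b : B) : Bool :=
  (decide (p u < p b) && decide (p w < p b)) ||
  (decide (p u < p b) && decide (p b < p w) &&
    (decide (ex p f u w + ex q g u b < ex p f u b + ex q g u w) ||
     decide (ex p f b w + ex q g u w < ex p f u w + ex q g b w))) ||
  (decide (p w < p b) && decide (p b < p u) &&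
    (decide (ex p f w u + ex q g b w < ex p f w b + ex q g u w) ||
     decide (ex p f b u + ex q g u w < ex p f w u + ex q g u b)))

theorem cond_spec {B : Type} (p q : B → ℕ) (f g : ℕ → ℕ) (hp : ∀ u, p u ≤ 31)
    (hq : ∀ u, q u ≤ 31) {M : ℝ} (hM : 961 < M) {u w b : B} (h1 : q u < q b) (h2 : q b < q w)
    (h : cond p q f g u w b = true) :
    (co f M (p w) - co f M (p u)) * (co g M (q b) - co g M (q u)) <
      (co f M (p b) - co f M (p u)) * (co g M (q w) - co g M (q u)) := by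
  have hM1 : (1 : ℝ) ≤ M := by linarith
  have y1 := bounds q g hq hM1 u b h1
  have y2 := bounds q g hq hM1 b w h2
  have y3 := bounds q g hq hM1 u w (h1.trans h2)
  have pos : ∀ k : ℕ, (0 : ℝ) < M ^ k := fun k => by positivity
  set xu := co f M (p u)
  set xw := co f M (p w)
  set xb := co f M (p b)
  set yu := co g M (q u)
  set yw := co g M (q w)
  set yb := co g M (q b)
  have hy1 : 0 < yb - yu := (pos _).trans_le y1.1
  have hy2 : 0 < yw - yb := (pos _).trans_le y2.1
  have hy3 : 0 < yw - yu := (pos _).trans_le y3.1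
  unfold cond at h
  simp only [Bool.or_eq_true, Bool.and_eq_true, decide_eq_true_eq] at h
  rcases h with (⟨h3, h4⟩ | ⟨⟨h3, h4⟩, h5⟩) | ⟨⟨h3, h4⟩, h5⟩
  · have x1 := (pos _).trans_le (bounds p f hp hM1 u b h3).1
    have x2 := (pos _).trans_le (bounds p f hp hM1 w b h4).1
    change 0 < xb - xu at x1
    change 0 < xb - xw at x2
    nlinarith [mul_pos x1 hy2, mul_pos x2 hy1]
  · have x1 := bounds p f hp hM1 u b h3
    have x2 := bounds p f hp hM1 b w h4
    have x3 := bounds p f hp hM1 u w (h3.trans h4)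
    change _ ≤ xb - xu ∧ xb - xu ≤ _ at x1
    change _ ≤ xw - xb ∧ xw - xb ≤ _ at x2
    change _ ≤ xw - xu ∧ xw - xu ≤ _ at x3
    rcases h5 with h5 | h5
    · exact dom hM h5 x1.1 y3.1 ((pos _).le.trans x3.1) x3.2 ((pos _).le.trans y1.1) y1.2
    · have := dom hM h5 x3.1 y2.1 ((pos _).le.trans x2.1) x2.2 ((pos _).le.trans y3.1) y3.2
      nlinarith [this]
  · have x1 := bounds p f hp hM1 w b h3
    have x2 := bounds p f hp hM1 b u h4
    have x3 := bounds p f hp hM1 w u (h3.trans h4)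
    change _ ≤ xb - xw ∧ xb - xw ≤ _ at x1
    change _ ≤ xu - xb ∧ xu - xb ≤ _ at x2
    change _ ≤ xu - xw ∧ xu - xw ≤ _ at x3
    rcases h5 with h5 | h5
    · have := dom hM h5 x1.1 y3.1 ((pos _).le.trans x3.1) x3.2 ((pos _).le.trans y2.1) y2.2
      nlinarith [this]
    · have := dom hM h5 x3.1 y1.1 ((pos _).le.trans x2.1) x2.2 ((pos _).le.trans y3.1) y3.2
      nlinarith [this]

end Pool.Agent.CarQ
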