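import Pool.Agent.CarQ.Five

/-!
# The drawings of `Q_7`
-/

namespace Pool.Agent.CarQ

open Real

/-- the relation of a list of edges -/
def rel (L : List (ℕ × ℕ)) (u w : Fin 32) : Prop := ((u : ℕ), (w : ℕ)) ∈ L ∨ ((w : ℕ), (u : ℕ)) ∈ L

theorem co_strictMono (g : ℕ → ℕ) {M : ℝ} (hM : 1 ≤ M) : StrictMono (co g M) := by
  refine strictMono_nat_of_lt_succ fun n => ?_
  have : 0 < M ^ g n := by positivity
  show co g M n < co g M n + M ^ g n
  linarith

theorem co_nonneg (g : ℕ → ℕ) {M : ℝ} (hM : 1 ≤ M) (k : ℕ) : 0 ≤ co g M k :=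
  (co_strictMono g hM).monotone (Nat.zero_le k)

variable {p q f g : ℕ → ℕ} {L : List (ℕ × ℕ)} {M D : ℝ}

theorem ok1 (h : okClass p q f g L = true) {u w : ℕ} (hL : (u, w) ∈ L) :
    q u < q w ∧ ex q g u w < ex p f u w := by
  unfold okClass at h
  simp only [Bool.and_eq_true, List.all_eq_true, decide_eq_true_eq] at h
  have := h.1.1 _ hL
  exact ⟨this.1.2, this.2⟩

theorem ok2 (h : okClass p q f g L = true) {u w b : ℕ} (hb : b < 32) (hL : (u, w) ∈ L)
    (h1 : q u < q b) (h2 : q b < q w) : cond p q f g u w b = true := by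
  unfold okClass at h
  simp only [Bool.and_eq_true, List.all_eq_true, Bool.or_eq_true, Bool.not_eq_true',
    decide_eq_true_eq, List.mem_range, Bool.and_eq_false_iff, decide_eq_false_iff_not] at h
  rcases h.1.2 _ hL b hb with (h3 | h3) | h3
  · exact absurd h1 h3
  · exact absurd h2 h3
  · exact h3

theorem ok3 (h : okClass p q f g L = true) {u w u' w' : ℕ} (hL : (u, w) ∈ L) (hL' : (u', w') ∈ L)
    (h1 : q u < q u') (h2 : q u' < q w) : q w' ≤ q w := by
  unfold okClass at h
  simp only [Bool.and_eq_true, List.all_eq_true, Bool.or_eq_true, Bool.not_eq_true',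
    decide_eq_true_eq, List.mem_range, Bool.and_eq_false_iff, decide_eq_false_iff_not] at h
  rcases h.2 _ hL _ hL' with (h3 | h3) | h3
  · exact absurd h1 h3
  · exact absurd h2 h3
  · exact h3

theorem rel_oriented (h : okClass p q f g L = true) {u w : Fin 32} (hR : rel L u w)
    (h1 : q u < q w) : ((u : ℕ), (w : ℕ)) ∈ L := by
  rcases hR with hR | hR
  · exact hR
  · have := (ok1 h hR).1
    omega

theorem base_of_ok (h : okClass p q f g L = true) (hp : ∀ u, p u ≤ 31) (hq : ∀ u, q u ≤ 31)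
    (hinj : ∀ u w : Fin 32, q u = q w → u = w) (hM : 961 < M)
    (hDx : 2 * co f M 31 < D) (hDy : 2 * co g M 31 < D) :
    Base (fun u : Fin 32 => co f M (p u)) (fun u : Fin 32 => co g M (q u)) D (rel L) := by
  have hM1 : (1 : ℝ) ≤ M := by linarith
  have hf := co_strictMono f hM1
  have hg := co_strictMono g hM1
  refine ⟨?_, ?_, ?_, ?_, ?_, ?_, ?_, ?_, ?_⟩
  · intro u w huw
    exact hinj u w (hg.injective huw)
  · intro b
    exact co_nonneg f hM1 _
  · intro b
    have := hf.monotone (hp b)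
    show 2 * co f M (p b) < D
    linarith
  · intro b
    exact co_nonneg g hM1 _
  · intro b
    have := hg.monotone (hq b)
    show 2 * co g M (q b) < D
    linarith
  · intro u w hR
    exact hR.symm
  · intro u hR
    rcases hR with hR | hR <;> exact lt_irrefl _ (ok1 h hR).1
  · intro u w b hR h1 h2
    have h1' : q u < q b := hg.lt_iff_lt.1 h1
    have h2' : q b < q w := hg.lt_iff_lt.1 h2
    exact cond_spec p q f g hp hq hM h1' h2'
      (ok2 h b.isLt (rel_oriented h hR (h1'.trans h2')) h1' h2')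
  · intro u w u' w' hR hR' h1 h2 h3
    have h1' : q u < q u' := hg.lt_iff_lt.1 h1
    have h2' : q u' < q w := hg.lt_iff_lt.1 h2
    have h3' : q u' < q w' := hg.lt_iff_lt.1 h3
    exact hg.monotone (ok3 h (rel_oriented h hR (h1'.trans h2')) (rel_oriented h hR' h3') h1' h2')

/-- the edges are flat -/
theorem flat_of_ok (h : okClass p q f g L = true) (hp : ∀ u, p u ≤ 31) (hq : ∀ u, q u ≤ 31)
    (hinj : ∀ u w : Fin 32, p u = p w → u = w) (hM : 961 < M) {u w : Fin 32} (hR : rel L u w) :
    M * |co g M (q w) - co g M (q u)| ≤ 31 * |co f M (p w) - co f M (p u)| := by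
  have hM1 : (1 : ℝ) ≤ M := by linarith
  have key : ∀ u w : Fin 32, ((u : ℕ), (w : ℕ)) ∈ L →
      M * |co g M (q w) - co g M (q u)| ≤ 31 * |co f M (p w) - co f M (p u)| := by
    intro u w hL
    obtain ⟨h1, h2⟩ := ok1 h hL
    have hy := bounds q g hq hM1 (u : ℕ) (w : ℕ) h1
    have hx : M ^ ex p f (u : ℕ) (w : ℕ) ≤ |co f M (p w) - co f M (p u)| := by
      have hne : p u ≠ p w := by
        intro he
        have := hinj u w he
        subst this
        exact lt_irrefl _ h1
      rcases lt_or_gt_of_ne hne with hlt | hlt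
      · exact (bounds p f hp hM1 (u : ℕ) (w : ℕ) hlt).1.trans (le_abs_self _)
      · rw [ex_comm, abs_sub_comm]
        exact (bounds p f hp hM1 (w : ℕ) (u : ℕ) hlt).1.trans (le_abs_self _)
    have hpos : (0 : ℝ) < M ^ ex q g (u : ℕ) (w : ℕ) := by positivity
    rw [abs_of_pos (hpos.trans_le hy.1)]
    have h3 : M * M ^ ex q g (u : ℕ) (w : ℕ) ≤ M ^ ex p f (u : ℕ) (w : ℕ) := by
      rw [← pow_succ']
      exact pow_le_pow_right₀ hM1 h2
    have h4 : M * (co g M (q w) - co g M (q u)) ≤ M * (31 * M ^ ex q g (u : ℕ) (w : ℕ)) :=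
      mul_le_mul_of_nonneg_left hy.2 (by linarith)
    linarith
  rcases hR with hR | hR
  · exact key u w hR
  · rw [abs_sub_comm, abs_sub_comm (co f M (p w))]
    exact key w u hR

/-! ## The vertices of `Q_7` -/

/-- the number with binary digits `a, b, c, d, e` -/
def enc5 (a b c d e : Bool) : Fin 32 :=
  ⟨a.toNat + 2 * b.toNat + 4 * c.toNat + 8 * d.toNat + 16 * e.toNat, by
    have := Bool.toNat_le a
    have := Bool.toNat_le b
    have := Bool.toNat_le c
    have := Bool.toNat_le d
    have := Bool.toNat_le e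
    omega⟩

/-- the vertex of `Q_7` as a triple -/
def enc (v : Fin 7 → Bool) : Fin 32 × Bool × Bool :=
  (enc5 (v 0) (v 1) (v 2) (v 3) (v 4), v 5, v 6)

theorem enc5_inj : ∀ a b c d e a' b' c' d' e', enc5 a b c d e = enc5 a' b' c' d' e' →
    a = a' ∧ b = b' ∧ c = c' ∧ d = d' ∧ e = e' := by
  decide +kernel

theorem enc_inj {u v : Fin 7 → Bool} (h : enc u = enc v) : u = v := by
  unfold enc at h
  simp only [Prod.mk.injEq] at h
  obtain ⟨h1, h2, h3⟩ := h
  obtain ⟨h4, h5, h6, h7, h8⟩ := enc5_inj _ _ _ _ _ _ _ _ _ _ h1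
  funext i
  fin_cases i <;> assumption

/-- exchange of the two mirror bits -/
def sw (p : Fin 32 × Bool × Bool) : Fin 32 × Bool × Bool := (p.1, p.2.2, p.2.1)

/-- an edge of `Q_5` is in one of the lists -/
def relb (L : List (ℕ × ℕ)) (u w : Fin 32) : Bool :=
  L.contains ((u : ℕ), (w : ℕ)) || L.contains ((w : ℕ), (u : ℕ))

theorem rel_of_relb {L : List (ℕ × ℕ)} {u w : Fin 32} (h : relb L u w = true) : rel L u w := by
  unfold relb at h
  simpa [rel, List.contains_iff_mem] using h

theorem flip0 : ∀ a b c d e, (relb edgesH (enc5 a b c d e) (enc5 (!a) b c d e) ||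
    relb edgesV (enc5 a b c d e) (enc5 (!a) b c d e)) = true := by decide +kernel
theorem flip1 : ∀ a b c d e, (relb edgesH (enc5 a b c d e) (enc5 a (!b) c d e) ||
    relb edgesV (enc5 a b c d e) (enc5 a (!b) c d e)) = true := by decide +kernel
theorem flip2 : ∀ a b c d e, (relb edgesH (enc5 a b c d e) (enc5 a b (!c) d e) ||
    relb edgesV (enc5 a b c d e) (enc5 a b (!c) d e)) = true := by decide +kernel
theorem flip3 : ∀ a b c d e, (relb edgesH (enc5 a b c d e) (enc5 a b c (!d) e) ||
    relb edgesV (enc5 a b c d e) (enc5 a b c (!d) e)) = true := by decide +kernel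
theorem flip4 : ∀ a b c d e, (relb edgesH (enc5 a b c d e) (enc5 a b c d (!e)) ||
    relb edgesV (enc5 a b c d e) (enc5 a b c d (!e))) = true := by decide +kernel

theorem classes {u v : Fin 7 → Bool} (h : (cube 7).Adj u v) :
    HE (rel edgesH) (enc u) (enc v) ∨ HE (rel edgesV) (sw (enc u)) (sw (enc v)) := by
  have h1 : hammingDist u v = 1 := h
  obtain ⟨i, hi, hj⟩ : ∃ i, v i = !(u i) ∧ ∀ j, j ≠ i → v j = u j := by
    rw [hammingDist, Finset.card_eq_one] at h1
    obtain ⟨i, hi⟩ := h1
    have hi' : ∀ j, u j ≠ v j ↔ j = i := by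
      intro j
      have := congrArg (fun s => j ∈ s) hi
      simpa using this
    refine ⟨i, ?_, ?_⟩
    · have := (hi' i).2 rfl
      cases hu : u i <;> cases hv : v i <;> simp_all
    · intro j hj
      by_contra hne
      exact hj ((hi' j).1 fun h' => hne h'.symm)
  have base : ∀ {a b : Fin 32}, (relb edgesH a b || relb edgesV a b) = true → ∀ s t : Bool,
      HE (rel edgesH) (a, s, t) (b, s, t) ∨ HE (rel edgesV) (sw (a, s, t)) (sw (b, s, t)) := by
    intro a b hab s t
    rw [Bool.or_eq_true] at hab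
    rcases hab with hab | hab
    · exact Or.inl ⟨rfl, Or.inl ⟨rfl, rel_of_relb hab⟩⟩
    · exact Or.inr ⟨rfl, Or.inl ⟨rfl, rel_of_relb hab⟩⟩
  unfold enc
  fin_cases i
  · simp only [Fin.zero_eta, Fin.isValue] at hi
    rw [hi, hj 1 (by decide), hj 2 (by decide), hj 3 (by decide), hj 4 (by decide),
      hj 5 (by decide), hj 6 (by decide)]
    exact base (flip0 _ _ _ _ _) _ _
  · simp only [Fin.mk_one, Fin.isValue] at hi
    rw [hi, hj 0 (by decide), hj 2 (by decide), hj 3 (by decide), hj 4 (by decide),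
      hj 5 (by decide), hj 6 (by decide)]
    exact base (flip1 _ _ _ _ _) _ _
  · simp only [Fin.reduceFinMk, Fin.isValue] at hi
    rw [hi, hj 0 (by decide), hj 1 (by decide), hj 3 (by decide), hj 4 (by decide),
      hj 5 (by decide), hj 6 (by decide)]
    exact base (flip2 _ _ _ _ _) _ _
  · simp only [Fin.reduceFinMk, Fin.isValue] at hi
    rw [hi, hj 0 (by decide), hj 1 (by decide), hj 2 (by decide), hj 4 (by decide),
      hj 5 (by decide), hj 6 (by decide)]
    exact base (flip3 _ _ _ _ _) _ _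
  · simp only [Fin.reduceFinMk, Fin.isValue] at hi
    rw [hi, hj 0 (by decide), hj 1 (by decide), hj 2 (by decide), hj 3 (by decide),
      hj 5 (by decide), hj 6 (by decide)]
    exact base (flip4 _ _ _ _ _) _ _
  · simp only [Fin.reduceFinMk, Fin.isValue] at hi
    rw [hi, hj 0 (by decide), hj 1 (by decide), hj 2 (by decide), hj 3 (by decide),
      hj 4 (by decide), hj 6 (by decide)]
    left
    refine ⟨rfl, Or.inr ⟨?_, rfl⟩⟩
    simp
  · simp only [Fin.reduceFinMk, Fin.isValue] at hi
    rw [hi, hj 0 (by decide), hj 1 (by decide), hj 2 (by decide), hj 3 (by decide),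
      hj 4 (by decide), hj 5 (by decide)]
    right
    refine ⟨rfl, Or.inr ⟨?_, rfl⟩⟩
    simp [sw]

end Pool.Agent.CarQ
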